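import Pool.Agent.KUR.Cond

set_option autoImplicit false

/-! # Amalgamation of conditions

PROOF of `cmp_of_agree`. The condition `r` with `d = p.d`, `pi = p.pi`, `A = p.A ∪ q.A`,
`b ξ = p.b ξ` if `ξ ∈ p.A` and `q.b ξ` otherwise, `e ξ α = p.e ξ α` if it is not `none` and `q.e ξ α`
otherwise (classical decidability). `coh` is `p.coh`; `br` for `ξ ∉ p.A` is `q.br`, rewritten with
`hpi` and `hd`. `r ≤ p`: by definition. `r ≤ q`: `b` for `ξ ∈ q.A`: if `ξ ∈ p.A` use `hb`; `e`: if
`p.e ξ α` is not `none`, use `he`. The support of `r.e` is contained in the union of the supports. -/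

namespace Pool.Agent.RFN.GX.KUR

theorem cmp_of_agree {p q : Cn} (hd : p.d = q.d)
    (hpi : ∀ β α n, β < α → α < p.d → p.pi β α n = q.pi β α n)
    (hb : ∀ ξ ∈ p.A, ξ ∈ q.A → ∀ α < p.d, p.b ξ α = q.b ξ α)
    (he : ∀ ξ α ρ ρ', p.e ξ α = some ρ → q.e ξ α = some ρ' → ρ = ρ') : Cmp p q := by
  classical
  let r : Cn :=
    { d := p.d
      pi := p.pi
      A := p.A ∪ q.A
      b := fun ξ => if ξ ∈ p.A then p.b ξ else q.b ξ
      e := fun ξ α => if p.e ξ α = none then q.e ξ α else p.e ξ α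
      hA := p.hA.union q.hA
      he := by
        refine (p.he.union q.he).mono ?_
        rintro ⟨ξ, α⟩ h
        simp only [Set.mem_ofPred_eq, Set.mem_union] at h ⊢
        by_cases h1 : p.e ξ α = none
        · rw [if_pos h1] at h
          exact Or.inr h
        · exact Or.inl h1
      h0 := Or.inl p.h0
      coh := p.coh
      br := by
        intro ξ hξ β α hβ hα
        by_cases h1 : ξ ∈ p.A
        · simp only [if_pos h1]
          exact p.br ξ h1 β α hβ hα
        · simp only [if_neg h1]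
          have h2 : ξ ∈ q.A := hξ.resolve_left h1
          rw [hpi β α _ hβ hα]
          exact q.br ξ h2 β α hβ (hd ▸ hα) }
  refine ⟨r, ⟨le_rfl, fun _ _ _ _ _ => rfl, Set.subset_union_left, ?_, ?_⟩,
    ⟨le_of_eq hd.symm, ?_, Set.subset_union_right, ?_, ?_⟩⟩
  · intro ξ hξ α _
    show (if ξ ∈ p.A then p.b ξ else q.b ξ) α = p.b ξ α
    rw [if_pos hξ]
  · intro ξ α ρ h
    show (if p.e ξ α = none then q.e ξ α else p.e ξ α) = some ρ
    rw [if_neg (by rw [h]; simp), h]
  · intro β α n hβ hα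
    exact hpi β α n hβ (hd ▸ hα)
  · intro ξ hξ α hα
    show (if ξ ∈ p.A then p.b ξ else q.b ξ) α = q.b ξ α
    by_cases h1 : ξ ∈ p.A
    · rw [if_pos h1]
      exact hb ξ h1 hξ α (hd ▸ hα)
    · rw [if_neg h1]
  · intro ξ α ρ h
    show (if p.e ξ α = none then q.e ξ α else p.e ξ α) = some ρ
    by_cases h1 : p.e ξ α = none
    · rw [if_pos h1, h]
    · rw [if_neg h1]
      obtain ⟨ρ', hρ'⟩ := Option.ne_none_iff_exists'.1 h1
      rw [hρ', he ξ α ρ' ρ hρ' h]

end Pool.Agent.RFN.GX.KUR
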