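import Mathlib

set_option autoImplicit false

/-! # The number of functions with countable support

PROOF of `mk_csupp_le`. For `f` with countable support `S = {i | f i ≠ r0}` choose `u f : ℕ → Option I`
such that `some i` is in the range of `u f` for all `i ∈ S` and every `i` with `some i` in the range is
in `S` (enumerate the countable set `insert none (some '' S)`). Map `f` to the function
`n ↦ (u f n).map (fun i => (i, f i)) : ℕ → Option (I × R)`. It is injective: `f i = r` for `i ∈ S` iff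
`some (i, r)` is in the range, and `i ∈ S` iff some `some (i, r)` is in the range; `f i = r0` for
`i ∉ S`. The cardinality of `ℕ → Option (I × R)` is at most `𝔠 ^ ℵ₀ = 𝔠`
(`#(Option (I × R)) ≤ 𝔠` by `Cardinal.mk_option`, `Cardinal.mk_prod`, `Cardinal.continuum_mul_self`). -/

namespace Pool.Agent.RFN.GX.KUR

open Cardinal

private theorem seq_le {R : Type} (hR : #R ≤ 𝔠) : #(ℕ → R) ≤ 𝔠 := by
  have h1 : #(ℕ → R) = #R ^ ℵ₀ := by simp
  rw [h1]
  calc #R ^ ℵ₀ ≤ 𝔠 ^ ℵ₀ := Cardinal.power_le_power_right hR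
    _ = 𝔠 := Cardinal.continuum_power_aleph0

private theorem prod_le {R S : Type} (hR : #R ≤ 𝔠) (hS : #S ≤ 𝔠) : #(R × S) ≤ 𝔠 := by
  rw [Cardinal.mk_prod, Cardinal.lift_uzero, Cardinal.lift_uzero]
  calc #R * #S ≤ 𝔠 * 𝔠 := mul_le_mul' hR hS
    _ = 𝔠 := Cardinal.continuum_mul_self

theorem mk_csupp_le {I R : Type} (hI : #I ≤ 𝔠) (hR : #R ≤ 𝔠) (r0 : R) :
    #{f : I → R // {i | f i ≠ r0}.Countable} ≤ 𝔠 := by
  have hu : ∀ f : {f : I → R // {i | f i ≠ r0}.Countable}, ∃ u : ℕ → Option I,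
      insert none (some '' {i | f.1 i ≠ r0}) = Set.range u := by
    intro f
    exact Set.Countable.exists_eq_range ((f.2.image some).insert none) ⟨none, Set.mem_insert _ _⟩
  choose u hu using hu
  obtain ⟨F, hF⟩ : ∃ F : {f : I → R // {i | f i ≠ r0}.Countable} → (ℕ → Option (I × R)),
      F = fun f n => (u f n).map (fun i => (i, f.1 i)) := ⟨_, rfl⟩
  have key : ∀ f g : {f : I → R // {i | f i ≠ r0}.Countable}, F f = F g →
      ∀ i, f.1 i ≠ r0 → f.1 i = g.1 i := by
    intro f g h i hi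
    have h1 : some i ∈ Set.range (u f) := by
      rw [← hu f]
      exact Set.mem_insert_of_mem _ ⟨i, hi, rfl⟩
    obtain ⟨n, hn⟩ := h1
    have h2 := congrFun h n
    rw [hF] at h2
    simp only [hn, Option.map_some] at h2
    cases hg : u g n with
    | none => rw [hg] at h2; simp at h2
    | some j =>
      rw [hg] at h2
      simp only [Option.map_some, Option.some.injEq, Prod.mk.injEq] at h2
      obtain ⟨h3, h4⟩ := h2
      rw [h4, h3]
  have hinj : Function.Injective F := by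
    intro f g h
    apply Subtype.ext
    funext i
    by_cases h1 : f.1 i = r0
    · by_cases h2 : g.1 i = r0
      · rw [h1, h2]
      · exact (key g f h.symm i h2).symm
    · exact key f g h i h1
  refine (Cardinal.mk_le_of_injective hinj).trans (seq_le ?_)
  rw [Cardinal.mk_option]
  calc #(I × R) + 1 ≤ 𝔠 + 𝔠 := add_le_add (prod_le hI hR)
        ((Cardinal.one_le_aleph0).trans Cardinal.aleph0_le_continuum)
    _ = 𝔠 := Cardinal.continuum_add_self

/-- Countable powers. -/
theorem mk_seq_le {R : Type} (hR : #R ≤ 𝔠) : #(ℕ → R) ≤ 𝔠 := seq_le hR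

theorem mk_prod_le {R S : Type} (hR : #R ≤ 𝔠) (hS : #S ≤ 𝔠) : #(R × S) ≤ 𝔠 := prod_le hR hS

/-- A map from a set with more than `𝔠` elements to one with at most `𝔠` elements has a fibre with
more than `𝔠` elements (otherwise `#K ≤ #J * 𝔠 ≤ 𝔠`, e.g. by `Cardinal.mk_le_of_surjective`,
`Cardinal.mk_sigma`, `Cardinal.sum_le_sum`, using `Equiv.sigmaFiberEquiv`). -/
theorem exists_big_fiber {K J : Type} (hK : ¬ #K ≤ 𝔠) (hJ : #J ≤ 𝔠) (f : K → J) :
    ∃ j, ¬ #{k | f k = j} ≤ 𝔠 := by
  by_contra hcon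
  push Not at hcon
  apply hK
  have h1 : #K = Cardinal.sum fun y : J => #{x // f x = y} := by
    rw [← Cardinal.mk_sigma]
    exact Cardinal.mk_congr (Equiv.sigmaFiberEquiv f).symm
  rw [h1]
  calc Cardinal.sum (fun y : J => #{x // f x = y}) ≤ Cardinal.sum (fun _ : J => 𝔠) :=
        Cardinal.sum_le_sum _ _ fun y => hcon y
    _ = #J * 𝔠 := Cardinal.sum_const' J 𝔠
    _ ≤ 𝔠 * 𝔠 := mul_le_mul' hJ le_rfl
    _ = 𝔠 := Cardinal.continuum_mul_self

end Pool.Agent.RFN.GX.KUR
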