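import Mathlib

set_option autoImplicit false

/-! # Sets closed under operations with countably many arguments

PROOF. Let `α = Option (L × ℕ)` and `β none = Empty`, `β (some _) = ℕ`, and `T = WType β`. Define
`ev : T → K` by recursion (`WType.elim` or `WType.rec`): `ev (mk none _) = k`, and
`ev (mk (some (l, m)) ch) = s (fun n => ev (ch n)) l m`, where `s c l : ℕ → K` has range
`insert k (F c l)` (`Set.Countable.exists_eq_range` for the countable nonempty set `insert k (F c l)`,
chosen by `choose`). `M = Set.range ev`. It contains `k` and is closed: for `c n = ev (t n)` and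
`x ∈ F c l` there is `m` with `x = s c l m = ev (mk (some (l, m)) t)`. Cardinality:
`Cardinal.mk_range_le` and `WType.cardinalMk_le_of_le'` (or `WType.cardinalMk_le_of_le`) with
`κ = 𝔠`: `sum (fun a : α => 𝔠 ^ #(β a)) = 1 + #(L × ℕ) * 𝔠 ^ ℵ₀ ≤ 𝔠`
(`Cardinal.continuum_power_aleph0`; bound the sum by `#α * 𝔠`, `#α ≤ 𝔠`). -/

namespace Pool.Agent.RFN.GX.KUR

open Cardinal

private def clB {L : Type} : Option (L × ℕ) → Type
  | none => Empty
  | some _ => ℕ

private def clStep {K L : Type} (k : K) (s : (ℕ → K) → L → ℕ → K) :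
    (Σ a : Option (L × ℕ), (clB a → K)) → K
  | ⟨none, _⟩ => k
  | ⟨some (l, m), f⟩ => s f l m

theorem exists_closed {K L : Type} (hL : #L ≤ 𝔠) (F : (ℕ → K) → L → Set K)
    (hF : ∀ c l, (F c l).Countable) (k : K) :
    ∃ M : Set K, #M ≤ 𝔠 ∧ k ∈ M ∧ ∀ c : ℕ → K, (∀ n, c n ∈ M) → ∀ l, F c l ⊆ M := by
  have h : ∀ c l, ∃ f : ℕ → K, insert k (F c l) = Set.range f := fun c l =>
    ((hF c l).insert k).exists_eq_range (Set.insert_nonempty _ _)
  choose s hs using h
  refine ⟨Set.range (WType.elim K (clStep k s)), ?_, ?_, ?_⟩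
  · refine mk_range_le.trans (WType.cardinalMk_le_of_le ?_)
    have h1 : (Cardinal.sum fun a : Option (L × ℕ) => 𝔠 ^ #(clB a)) ≤
        Cardinal.sum fun _ : Option (L × ℕ) => 𝔠 := by
      refine Cardinal.sum_le_sum _ _ fun a => ?_
      cases a with
      | none =>
        have e : #(clB (none : Option (L × ℕ))) = 0 := by
          unfold clB
          exact mk_eq_zero _
        rw [e, power_zero]
        exact (nat_lt_continuum 1).le.trans' (by norm_num)
      | some p =>
        have e : #(clB (some p)) = ℵ₀ := by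
          unfold clB
          exact mk_nat
        rw [e, continuum_power_aleph0]
    refine h1.trans ?_
    rw [Cardinal.sum_const']
    have h2 : #(Option (L × ℕ)) ≤ 𝔠 := by
      rw [mk_option, mk_prod, lift_id, lift_id, mk_nat]
      have h3 : #L * ℵ₀ ≤ 𝔠 * 𝔠 := mul_le_mul' hL aleph0_le_continuum
      rw [continuum_mul_self] at h3
      calc #L * ℵ₀ + 1 ≤ 𝔠 + 𝔠 := add_le_add h3 (one_le_aleph0.trans aleph0_le_continuum)
        _ = 𝔠 := continuum_add_self
    calc #(Option (L × ℕ)) * 𝔠 ≤ 𝔠 * 𝔠 := mul_le_mul' h2 le_rfl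
      _ = 𝔠 := continuum_mul_self
  · exact ⟨WType.mk none (fun e : clB (none : Option (L × ℕ)) => nomatch (e : Empty)), rfl⟩
  · intro c hc l x hx
    choose t ht using hc
    have hx' : x ∈ insert k (F c l) := Set.mem_insert_of_mem _ hx
    rw [hs] at hx'
    obtain ⟨m, hm⟩ := hx'
    refine ⟨WType.mk (some (l, m)) t, ?_⟩
    rw [← hm]
    show s (fun n => WType.elim K (clStep k s) (t n)) l m = s c l m
    have e : (fun n => WType.elim K (clStep k s) (t n)) = c := funext ht
    rw [e]

end Pool.Agent.RFN.GX.KUR
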