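import Pool.Agent.KUR.Defs

set_option autoImplicit false

/-! # Coding a tree with a continuous surjection, inside a model

`Coded w`: there are `A1` (the order of the coded nodes `(α, n)`) and `A2` (`((α, n), (γ, i)) ∈ A2` if
the node `(α, n)` decides that the value at `γ` is `i`) such that every function `x : w → 2` has a
coded branch `b`.

PROOF of `coded_of_surj`. Let `B, S, C, S', F` be as in `HasSurj`. By the axiom of choice there is
`J : T → omega` which is injective on every level: for `α ∈ w` let `Lv α = sep T (fun t => ap h t = α)`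
and `I α = sep (pow (prod (Lv α) omega)) (fun j => Inj j (Lv α) omega)`, nonempty by `hT.ctb`; the sets
`Lv α` are nonempty (`hT.lev`) and disjoint, so `I α ≠ I β` for `α ≠ β`. `hc` for the set
`{I α : α ∈ w}` (image: `sep (pow (pow (prod T omega))) (fun y => ∃ α, α ∈ w ∧ y = I α)`) gives a choice
function `c`; `J = mkf T omega (fun t => ap (ap c (I (ap h t))) t)`. Let `cd t = opair (ap h t) (ap J t)`;
it is injective on `T`. `A1 = {opair (cd s) (cd t) : opair s t ∈ R}` (separation from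
`prod (prod w omega) (prod w omega)`), `A2 = {opair (cd t) (opair γ i) : t ∈ T, γ ∈ w, i ∈ two, and
opair γ i ∈ ap F b for all b ∈ B with t ∈ b}`.
`c1`: if `(β, m), (β, m')` are codes of predecessors `s, s'` of the same node `t` (`cd` is injective), then
`s, s'` are comparable and of the same height `β`; if `s < s'` then `β ∈ β` by `IsHt`; so `s = s'`.
For a function `x : w → 2` there is a branch `b0 ∈ B` with `ap F b0 = x`; `b = {cd t : t ∈ b0}`.
`b1`: `b0` meets every level. `b3`: `t, s ∈ b0` are comparable; `h s = β ∈ α = h t` excludes `s = t` and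
`t < s`. `b4`: let `γ ∈ w`, `i = ap x γ`. There is `δ ∈ w` with `γ ∈ δ` (otherwise, by `hw.lin`,
`w ⊆ succ γ`, and then `w` is countable since `γ` is: `hw.unc`, `hw.ctb`; an injection of `succ γ` is
obtained from one of `γ` by shifting by one, or: `w = succ γ` (`hw.tr`)). So
`V = sep C (fun f => ap f γ = i)` is open in `IsConeTop2` (take `α = δ`), and by `IsCont` there is an open
`U` with `b0 ∈ U` and `ap F b' ∈ V` for `b' ∈ U`; by `IsConeTop` there is `t ∈ b0` such that `b' ∈ U` for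
all `b' ∈ B` with `t ∈ b'`: so `opair (cd t) (opair γ i) ∈ A2`. `b5`: by the definition of `A2` with
`b0`. -/

universe u

namespace Pool.Agent.RFN.GX.KUR

open Pool.Agent.H78.ZF

variable {N : Type u} [ZFM N]

/-- `b` codes a branch which is mapped to `x`. -/
structure CBranch (w A1 A2 x b : N) : Prop where
  b1 : ∀ α, α ∈ w → ∃ n, n ∈ (omega : N) ∧ opair α n ∈ b
  b3 : ∀ β m α n, β ∈ w → α ∈ w → β ∈ α → m ∈ (omega : N) → n ∈ (omega : N) → opair β m ∈ b →
    opair α n ∈ b → opair (opair β m) (opair α n) ∈ A1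
  b4 : ∀ γ, γ ∈ w → ∃ α n i, α ∈ w ∧ n ∈ (omega : N) ∧ i ∈ (two : N) ∧ opair α n ∈ b ∧
    opair (opair α n) (opair γ i) ∈ A2 ∧ opair γ i ∈ x
  b5 : ∀ α n γ i, opair α n ∈ b → opair (opair α n) (opair γ i) ∈ A2 → opair γ i ∈ x

/-- Every function from `w` to `2` has a coded branch. -/
def Coded (w : N) : Prop :=
  ∃ A1 A2 : N, (∀ β m m' α n, opair (opair β m) (opair α n) ∈ A1 →
      opair (opair β m') (opair α n) ∈ A1 → m = m') ∧
    ∀ x, Fun x w two → ∃ b, CBranch w A1 A2 x b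

private theorem cn_asymm {x y : N} (h : x ∈ y) : y ∉ x := by
  intro h'
  obtain ⟨z, hz, hz'⟩ := foundation (upair x y) (ne_emp_iff.2 ⟨x, by simp⟩)
  rw [mem_upair] at hz
  rcases hz with rfl | rfl
  · exact hz' y h' (by simp)
  · exact hz' x h (by simp)

/-- the level `α` -/
private noncomputable def cnL (T h α : N) : N := sep T (fun t => ap h t = α)

private instance cnLDF {ι : Type} (T h α : (ι → N) → N) [DF T] [DF h] [DF α] :
    DF (fun v => cnL (T v) (h v) (α v)) := by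
  unfold cnL
  infer_instance

/-- the injections of the level `α` -/
private noncomputable def cnI (T h α : N) : N :=
  sep (pow (prod (cnL T h α) omega)) (fun j => Inj j (cnL T h α) omega)

private instance cnIDF {ι : Type} (T h α : (ι → N) → N) [DF T] [DF h] [DF α] :
    DF (fun v => cnI (T v) (h v) (α v)) := by
  unfold cnI
  infer_instance

private theorem mem_cnL {T h α t : N} : t ∈ cnL T h α ↔ t ∈ T ∧ ap h t = α := by
  unfold cnL
  rw [mem_sep]

private theorem mem_cnI {T h α j : N} : j ∈ cnI T h α ↔ Inj j (cnL T h α) omega := by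
  unfold cnI
  rw [mem_sep, mem_pow]
  exact ⟨fun h => h.2, fun h => ⟨h.fun.sub_prod, h⟩⟩

/-- numbers of the nodes of a level -/
private theorem cn_J (hc : Choice N) {w T h : N} (hh : Fun h T w)
    (hl : ∀ α L : N, α ∈ w → (∀ t, t ∈ L ↔ t ∈ T ∧ ap h t = α) → Ctbl L) :
    ∃ J : N, Fun J T omega ∧
      ∀ s t, s ∈ T → t ∈ T → ap h s = ap h t → ap J s = ap J t → s = t := by
  have hX : ∀ α, α ∈ w → cnI T h α ∈ sep (pow (pow (prod T omega)))
      (fun y => ∃ α, α ∈ w ∧ y = cnI T h α) := by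
    intro α hα
    rw [mem_sep, mem_pow]
    refine ⟨fun j hj => ?_, α, hα, rfl⟩
    rw [mem_cnI] at hj
    rw [mem_pow]
    intro p hp
    obtain ⟨x, hx, y, hy, rfl⟩ := hj.fun.1 p hp
    rw [opair_mem_prod]
    exact ⟨(mem_cnL.1 hx).1, hy⟩
  obtain ⟨c, -, hcc⟩ := hc (sep (pow (pow (prod T omega))) (fun y => ∃ α, α ∈ w ∧ y = cnI T h α))
    (by
      intro y hy
      rw [mem_sep] at hy
      obtain ⟨-, α, hα, rfl⟩ := hy
      obtain ⟨f, hf⟩ := hl α (cnL T h α) hα (fun t => mem_cnL)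
      exact ⟨f, mem_cnI.2 hf⟩)
  have hj : ∀ α, α ∈ w → Inj (ap c (cnI T h α)) (cnL T h α) omega := fun α hα =>
    mem_cnI.1 (hcc _ (hX α hα))
  have hm : ∀ t, t ∈ T → ap (ap c (cnI T h (ap h t))) t ∈ (omega : N) := by
    intro t ht
    exact (hj _ (hh.ap_mem ht)).fun.ap_mem (mem_cnL.2 ⟨ht, rfl⟩)
  refine ⟨mkf T omega (fun t => ap (ap c (cnI T h (ap h t))) t), mkf_fun hm, ?_⟩
  intro s t hs ht e e'
  rw [ap_mkf hm hs, ap_mkf hm ht, e] at e'
  exact (hj _ (hh.ap_mem ht)).ap_inj (mem_cnL.2 ⟨hs, e⟩) (mem_cnL.2 ⟨ht, rfl⟩) e'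

/-- the first uncountable ordinal has no greatest element -/
private theorem cn_lim {w γ : N} (hw : IsW1 w) (hγ : γ ∈ w) : ∃ δ, δ ∈ w ∧ γ ∈ δ := by
  by_contra hcon
  apply hw.unc
  have h1 : ∀ x, x ∈ w → x = γ ∨ x ∈ γ := by
    intro x hx
    rcases hw.lin x γ hx hγ with h | h | h
    · exact Or.inr h
    · exact Or.inl h
    · exact absurd ⟨x, hx, h⟩ hcon
  obtain ⟨j, hj⟩ := hw.ctb γ hγ
  refine ⟨sep (prod w omega) (fun p => ∃ x, ∃ n, p = opair x n ∧
    ((x = γ ∧ n = emp) ∨ (x ∈ γ ∧ n = succ (ap j x)))), ?_⟩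
  have hmem : ∀ x n, opair x n ∈ sep (prod w omega) (fun p => ∃ x, ∃ n, p = opair x n ∧
      ((x = γ ∧ n = emp) ∨ (x ∈ γ ∧ n = succ (ap j x)))) ↔
      (x = γ ∧ n = emp) ∨ (x ∈ γ ∧ n = succ (ap j x)) := by
    intro x n
    rw [mem_sep]
    constructor
    · rintro ⟨-, x', n', e, h⟩
      obtain ⟨rfl, rfl⟩ := opair_inj e
      exact h
    · intro h
      refine ⟨?_, x, n, rfl, h⟩
      rw [opair_mem_prod]
      rcases h with ⟨rfl, rfl⟩ | ⟨hx, rfl⟩
      · exact ⟨hγ, inductive_omega.1⟩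
      · exact ⟨hw.tr γ hγ x hx, succ_mem_omega (hj.fun.ap_mem hx)⟩
  refine ⟨⟨?_, ?_⟩, ?_⟩
  · intro p hp
    rw [mem_sep, mem_prod] at hp
    exact hp.1
  · intro x hx
    rcases h1 x hx with rfl | hx'
    · refine ⟨emp, (hmem _ _).2 (Or.inl ⟨rfl, rfl⟩), fun y hy => ?_⟩
      rcases (hmem _ _).1 hy with ⟨-, h⟩ | ⟨h, -⟩
      · exact h
      · exact absurd h (not_mem_self _)
    · refine ⟨succ (ap j x), (hmem _ _).2 (Or.inr ⟨hx', rfl⟩), fun y hy => ?_⟩
      rcases (hmem _ _).1 hy with ⟨rfl, -⟩ | ⟨-, h⟩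
      · exact absurd hx' (not_mem_self _)
      · exact h
  · intro x x' y h h'
    rcases (hmem _ _).1 h with ⟨rfl, rfl⟩ | ⟨hx, rfl⟩
    · rcases (hmem _ _).1 h' with ⟨rfl, -⟩ | ⟨-, e⟩
      · rfl
      · exact absurd e.symm (succ_ne_emp _)
    · rcases (hmem _ _).1 h' with ⟨-, e⟩ | ⟨hx', e⟩
      · exact absurd e (succ_ne_emp _)
      · exact hj.ap_inj hx hx' (succ_inj (hj.fun.ap_mem hx) (hj.fun.ap_mem hx') e)

theorem coded_of_surj (hc : Choice N) {w T R h : N} (hw : IsW1 w) (hT : IsO1Tree w T R h)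
    (hs : HasSurj w T R h) : Coded w := by
  obtain ⟨B, S, C, S', F, hB, hS, hC, hS', hF, hsur⟩ := hs
  have hh : Fun h T w := hT.ht.1
  obtain ⟨J, hJ, hinj⟩ := cn_J hc hh hT.ctb
  have hRT : ∀ s t, opair s t ∈ R → s ∈ T ∧ t ∈ T := by
    intro s t hst
    have := hT.tree.sub _ hst
    rwa [opair_mem_prod] at this
  have hlt : ∀ s t, opair s t ∈ R → ap h s ∈ ap h t := fun s t hst =>
    (hT.ht.2 t _ (hRT s t hst).2).2 ⟨s, hst, rfl⟩
  have cdm : ∀ t, t ∈ T → opair (ap h t) (ap J t) ∈ prod w (omega : N) := by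
    intro t ht
    rw [opair_mem_prod]
    exact ⟨hh.ap_mem ht, hJ.ap_mem ht⟩
  obtain ⟨A1, hA1⟩ : ∃ A1 : N, ∀ p, p ∈ A1 ↔ ∃ s t, opair s t ∈ R ∧
      p = opair (opair (ap h s) (ap J s)) (opair (ap h t) (ap J t)) := by
    refine ⟨sep (prod (prod w omega) (prod w omega)) (fun p => ∃ s, ∃ t, opair s t ∈ R ∧
      p = opair (opair (ap h s) (ap J s)) (opair (ap h t) (ap J t))), fun p => ?_⟩
    rw [mem_sep]
    constructor
    · exact fun h => h.2
    · rintro ⟨s, t, hst, rfl⟩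
      refine ⟨?_, s, t, hst, rfl⟩
      rw [opair_mem_prod]
      exact ⟨cdm s (hRT s t hst).1, cdm t (hRT s t hst).2⟩
  obtain ⟨A2, hA2⟩ : ∃ A2 : N, ∀ p, p ∈ A2 ↔ ∃ t γ i, t ∈ T ∧ γ ∈ w ∧ i ∈ (two : N) ∧
      p = opair (opair (ap h t) (ap J t)) (opair γ i) ∧
        ∀ b, b ∈ B → t ∈ b → opair γ i ∈ ap F b := by
    refine ⟨sep (prod (prod w omega) (prod w two)) (fun p => ∃ t, ∃ γ, ∃ i, t ∈ T ∧ γ ∈ w ∧
      i ∈ (two : N) ∧ p = opair (opair (ap h t) (ap J t)) (opair γ i) ∧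
        ∀ b, b ∈ B → t ∈ b → opair γ i ∈ ap F b), fun p => ?_⟩
    rw [mem_sep]
    constructor
    · exact fun h => h.2
    · rintro ⟨t, γ, i, ht, hγ, hi, rfl, hb⟩
      refine ⟨?_, t, γ, i, ht, hγ, hi, rfl, hb⟩
      rw [opair_mem_prod, opair_mem_prod (a := w) (b := two)]
      exact ⟨cdm t ht, hγ, hi⟩
  have cdi : ∀ s t, s ∈ T → t ∈ T →
      opair (ap h s) (ap J s) = opair (ap h t) (ap J t) → s = t := by
    intro s t hs ht e
    obtain ⟨e1, e2⟩ := opair_inj e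
    exact hinj s t hs ht e1 e2
  refine ⟨A1, A2, ?_, ?_⟩
  · intro β m m' α n h1 h2
    rw [hA1] at h1 h2
    obtain ⟨s, t, hst, e⟩ := h1
    obtain ⟨s', t', hst', e'⟩ := h2
    obtain ⟨e1, e2⟩ := opair_inj e
    obtain ⟨e1', e2'⟩ := opair_inj e'
    have ht : t = t' := cdi t t' (hRT s t hst).2 (hRT s' t' hst').2 (by rw [← e2, ← e2'])
    subst ht
    obtain ⟨f1, f2⟩ := opair_inj e1
    obtain ⟨f1', f2'⟩ := opair_inj e1'
    rcases hT.tree.lin s s' t hst hst' with h3 | h3 | h3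
    · have := hlt s s' h3
      rw [← f1, ← f1'] at this
      exact absurd this (not_mem_self _)
    · rw [f2, f2', h3]
    · have := hlt s' s h3
      rw [← f1, ← f1'] at this
      exact absurd this (not_mem_self _)
  · intro x hx
    obtain ⟨b0, hb0, hFx⟩ := hsur x ((hC x).2 hx)
    have hbr := (hB b0).1 hb0
    have hbT : ∀ t, t ∈ b0 → t ∈ T := fun t ht => hbr.sub t ht
    obtain ⟨b, hb⟩ : ∃ b : N, ∀ α n, opair α n ∈ b ↔ ∃ t, t ∈ b0 ∧ α = ap h t ∧ n = ap J t := by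
      refine ⟨sep (prod w omega) (fun p => ∃ t, t ∈ b0 ∧ p = opair (ap h t) (ap J t)),
        fun α n => ?_⟩
      rw [mem_sep]
      constructor
      · rintro ⟨-, t, ht, e⟩
        obtain ⟨e1, e2⟩ := opair_inj e
        exact ⟨t, ht, e1, e2⟩
      · rintro ⟨t, ht, rfl, rfl⟩
        exact ⟨cdm t (hbT t ht), t, ht, rfl⟩
    refine ⟨b, ⟨?_, ?_, ?_, ?_⟩⟩
    · intro α hα
      obtain ⟨t, ht, e⟩ := hbr.cof α hα
      exact ⟨ap J t, hJ.ap_mem (hbT t ht), (hb _ _).2 ⟨t, ht, e.symm, rfl⟩⟩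
    · intro β m α n hβ hα hβα hm hn h1 h2
      obtain ⟨s, hs, rfl, rfl⟩ := (hb _ _).1 h1
      obtain ⟨t, ht, rfl, rfl⟩ := (hb _ _).1 h2
      rw [hA1]
      rcases hbr.lin s t hs ht with h3 | h3 | h3
      · exact ⟨s, t, h3, rfl⟩
      · rw [h3] at hβα
        exact absurd hβα (not_mem_self _)
      · exact absurd (hlt t s h3) (cn_asymm hβα)
    · intro γ hγ
      obtain ⟨δ, hδ, hγδ⟩ := cn_lim hw hγ
      have hV : sep C (fun f => ap f γ = ap x γ) ∈ S' := by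
        rw [hS']
        refine ⟨fun f hf => ((mem_sep _ _ _).1 hf).1, fun f hf => ⟨δ, hδ, fun f' hf' he => ?_⟩⟩
        rw [mem_sep] at hf ⊢
        exact ⟨hf', by rw [he γ hγδ]; exact hf.2⟩
      obtain ⟨U, hU, hbU, hUV⟩ := hF.2 b0 _ hb0 hV (by
        rw [mem_sep, hFx]
        exact ⟨(hC x).2 hx, rfl⟩)
      obtain ⟨t, ht, htU⟩ := ((hS U).1 hU).2 b0 hbU
      refine ⟨ap h t, ap J t, ap x γ, hh.ap_mem (hbT t ht), hJ.ap_mem (hbT t ht), hx.ap_mem hγ,
        (hb _ _).2 ⟨t, ht, rfl, rfl⟩, ?_, hx.opair_ap hγ⟩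
      rw [hA2]
      refine ⟨t, γ, ap x γ, hbT t ht, hγ, hx.ap_mem hγ, rfl, fun b' hb' htb => ?_⟩
      have h1 := hUV b' (htU b' hb' htb)
      rw [mem_sep] at h1
      have h2 : Fun (ap F b') w two := (hC _).1 h1.1
      have h3 := h2.opair_ap hγ
      rwa [h1.2] at h3
    · intro α n γ i h1 h2
      obtain ⟨t, ht, rfl, rfl⟩ := (hb _ _).1 h1
      rw [hA2] at h2
      obtain ⟨t', γ', i', ht', -, -, e, hall⟩ := h2
      obtain ⟨e1, e2⟩ := opair_inj e
      obtain ⟨rfl, rfl⟩ := opair_inj e2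
      have e3 := cdi t t' (hbT t ht) ht' e1
      subst e3
      have := hall b0 hb0 ht
      rwa [hFx] at this

end Pool.Agent.RFN.GX.KUR
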