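import Pool.Agent.KUR.CombDefs

set_option autoImplicit false

/-! # Every condition can be split

PROOF of `split`. Suppose `¬ H.Split q c`. By `F8` there are `γ`, `c0, c1 ≤ c` with `x γ false c0`,
`x γ true c1`. By `F5` for `q`, `c0`, `γ` there are `q1 ≤ q`, `c0' ≤ c0`, `α`, `n`, `i` with
`Ba α n q1 c0'`, `V α n γ i q1`, `x γ i c0'`. By `F6` and `x_mono`, `i = false`. By `F1` for `q1`, `c1`, `α`
there are `q2 ≤ q1`, `c1' ≤ c1`, `n'` with `Ba α n' q2 c1'`. As `(q, c)` is not split and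
`Ba α n q2 c0'` (`Ba_mono`), `n' = n`. By `F6` for `q2`, `c1'` (`V_mono`, `x_mono`) `false = true`. -/

namespace Pool.Agent.RFN.GX.KUR

variable {Q C : Type} [Preorder Q] [Preorder C]

theorem CombH.split (H : CombH Q C) (q : Q) (c : C) : H.Split q c := by
  by_contra hns
  obtain ⟨γ, c0, hc0, c1, hc1, hx0, hx1⟩ := H.F8 c
  obtain ⟨q1, hq1, c0', hc0', α, n, i, hBa, hV, hx⟩ := H.F5 q c0 γ
  have hi : i = false := H.F6 hBa hV (H.x_mono hc0' hx0)
  obtain ⟨q2, hq2, c1', hc1', n', hBa'⟩ := H.F1 q1 c1 α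
  have hn : n = n' := by
    by_contra hne
    exact hns ⟨q2, hq2.trans hq1, c0', hc0'.trans hc0, c1', hc1'.trans hc1, α, n, n', hne,
      H.Ba_mono hq2 le_rfl hBa, hBa'⟩
  subst hn
  have h1 : i = true := H.F6 hBa' (H.V_mono hq2 hV) (H.x_mono hc1' hx1)
  rw [hi] at h1
  exact absurd h1 (by decide)

end Pool.Agent.RFN.GX.KUR
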