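import Pool.Agent.KUR.CombDefs

set_option autoImplicit false

/-! # The binary tree of conditions

PROOFS. `split_fin`: induction over the finite set of the indices `i` already treated (`Finset.induction`
over `Finset.univ`, or `Fintype` induction): the statement for a finite set `s` of indices gives
`q'`, `c0`, `c1`, `α`, `n0`, `n1` with the properties for `i ∈ s`; for a new index `i` apply `hs` to `q'` and
`c i`; the old properties persist by `Ba_mono`, the functions are changed at `i`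
(`Function.update`).

`exists_tree`: by recursion on `k` one gets `q k : Q` and `t k : (Fin k → Bool) → C` together with
`α k : (Fin k → Bool) → W1`, `m k : (Fin k → Bool) → Bool → ℕ`: apply `split_fin` with the index type
`Fin k → Bool` to `q k`, `t k`, and let `q (k + 1) = q'`,
`t (k + 1) s = (if s (Fin.last k) then c1 else c0) (fun i => s i.castSucc)`. (Use `choose` on the
statement of `split_fin` and a recursion with values in `Q × ((Fin k → Bool) → C)`.) For
`x : ℕ → Bool` let `c x k = t k (fun i => x i)`. -/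

namespace Pool.Agent.RFN.GX.KUR

variable {Q C : Type} [Preorder Q] [Preorder C]

theorem CombH.split_fin (H : CombH Q C) (hs : ∀ q c, H.Split q c) {ι : Type} [Finite ι]
    (q : Q) (c : ι → C) : ∃ q' ≤ q, ∃ (c0 c1 : ι → C) (α : ι → H68.KT.W1) (n0 n1 : ι → ℕ),
      ∀ i, c0 i ≤ c i ∧ c1 i ≤ c i ∧ n0 i ≠ n1 i ∧ H.Ba (α i) (n0 i) q' (c0 i) ∧
        H.Ba (α i) (n1 i) q' (c1 i) := by
  classical
  cases nonempty_fintype ι
  -- it suffices to find `q'` such that each `i` has data
  suffices h : ∀ s : Finset ι, ∃ q' ≤ q, ∀ i ∈ s, ∃ c0 c1 : C, ∃ (α : H68.KT.W1) (n0 n1 : ℕ),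
      c0 ≤ c i ∧ c1 ≤ c i ∧ n0 ≠ n1 ∧ H.Ba α n0 q' c0 ∧ H.Ba α n1 q' c1 by
    obtain ⟨q', hq', h'⟩ := h Finset.univ
    have h'' := fun i => h' i (Finset.mem_univ i)
    choose c0 c1 α n0 n1 hh using h''
    exact ⟨q', hq', c0, c1, α, n0, n1, hh⟩
  intro s
  induction s using Finset.induction_on with
  | empty => exact ⟨q, le_rfl, fun i hi => absurd hi (Finset.notMem_empty i)⟩
  | insert i s _ ih =>
    obtain ⟨q1, hq1, h1⟩ := ih
    obtain ⟨q2, hq2, c0, hc0, c1, hc1, α, n0, n1, hne, hB0, hB1⟩ := hs q1 (c i)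
    refine ⟨q2, hq2.trans hq1, fun j hj => ?_⟩
    rw [Finset.mem_insert] at hj
    rcases hj with rfl | hj
    · exact ⟨c0, c1, α, n0, n1, hc0, hc1, hne, hB0, hB1⟩
    · obtain ⟨c0, c1, α, n0, n1, hc0, hc1, hne, hB0, hB1⟩ := h1 j hj
      exact ⟨c0, c1, α, n0, n1, hc0, hc1, hne, H.Ba_mono hq2 le_rfl hB0, H.Ba_mono hq2 le_rfl hB1⟩

/-- The binary tree: `A k s` is the level and `m k s i` the node on this level decided by the
condition with index `s ⌢ i`. -/
theorem CombH.exists_tree (H : CombH Q C) (hs : ∀ q c, H.Split q c) (q0 : Q) (c0 : C) :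
    ∃ (q : ℕ → Q) (c : (ℕ → Bool) → ℕ → C) (A : ∀ k : ℕ, (Fin k → Bool) → H68.KT.W1)
      (m : ∀ k : ℕ, (Fin k → Bool) → Bool → ℕ),
      (∀ k, q (k + 1) ≤ q k) ∧ (∀ x k, c x (k + 1) ≤ c x k) ∧
      (∀ k s, m k s false ≠ m k s true) ∧
      ∀ x k, H.Ba (A k fun i => x i) (m k (fun i => x i) (x k)) (q (k + 1)) (c x (k + 1)) := by
  classical
  have hf : ∀ (k : ℕ) (p : Q × ((Fin k → Bool) → C)), ∃ (q' : Q) (c0 c1 : (Fin k → Bool) → C)
      (α : (Fin k → Bool) → H68.KT.W1) (n0 n1 : (Fin k → Bool) → ℕ), q' ≤ p.1 ∧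
      ∀ i, c0 i ≤ p.2 i ∧ c1 i ≤ p.2 i ∧ n0 i ≠ n1 i ∧ H.Ba (α i) (n0 i) q' (c0 i) ∧
        H.Ba (α i) (n1 i) q' (c1 i) := by
    intro k p
    obtain ⟨q', hq', c0, c1, α, n0, n1, h⟩ := H.split_fin hs p.1 p.2
    exact ⟨q', c0, c1, α, n0, n1, hq', h⟩
  choose Q' C0 C1 AA N0 N1 hQ' hh using hf
  let st : ∀ k : ℕ, Q × ((Fin k → Bool) → C) := fun k => Nat.rec (q0, fun _ => c0)
    (fun k p => (Q' k p, fun s => if s (Fin.last k) then C1 k p (fun i => s i.castSucc)
      else C0 k p (fun i => s i.castSucc))) k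
  have hst : ∀ k, st (k + 1) = (Q' k (st k), fun s => if s (Fin.last k) then
      C1 k (st k) (fun i => s i.castSucc) else C0 k (st k) (fun i => s i.castSucc)) := fun k => rfl
  refine ⟨fun k => (st k).1, fun x k => (st k).2 (fun i => x i), fun k s => AA k (st k) s,
    fun k s b => if b then N1 k (st k) s else N0 k (st k) s, fun k => ?_, fun x k => ?_,
    fun k s => ?_, fun x k => ?_⟩
  · change (st (k + 1)).1 ≤ (st k).1
    rw [hst]; exact hQ' k (st k)
  · change ((st (k + 1)).2 fun i => x i) ≤ (st k).2 fun i => x i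
    rw [hst]
    have h := hh k (st k) (fun i => x i)
    simp only [Fin.val_last, Fin.val_castSucc]
    by_cases hx : x k = true
    · rw [if_pos hx]; exact h.2.1
    · rw [if_neg hx]; exact h.1
  · have h := hh k (st k) s
    simpa using h.2.2.1
  · change H.Ba (AA k (st k) fun i => x i)
      (if x k then N1 k (st k) (fun i => x i) else N0 k (st k) (fun i => x i)) (st (k + 1)).1
      ((st (k + 1)).2 fun i => x i)
    rw [hst]
    have h := hh k (st k) (fun i => x i)
    simp only [Fin.val_last, Fin.val_castSucc]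
    by_cases hx : x k = true
    · rw [if_pos hx, if_pos hx]; exact h.2.2.2.2
    · rw [if_neg hx, if_neg hx]; exact h.2.2.2.1

end Pool.Agent.RFN.GX.KUR
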