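import Pool.Agent.KUR.Comb1
import Pool.Agent.KUR.Comb2

set_option autoImplicit false

/-! # The contradiction

PROOF of `comb`. `hs := H.split`. Take the tree of `exists_tree`. By `hQ` there is `qω ≤ q k` for all `k`, by
`hC` for each `x` there is `cω x ≤ c x k` for all `k`. Let `α` be greater than all the `A k s`
(countably many: `H68.KT.exists_bound`). Enumerate the countable type of the tuples
`j = (k, s, l, n)` (`k`, `n`, `l : ℕ`, `s : Fin k → Bool`) by `ℕ` (`exists_surjective_nat`, nonempty) and build a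
decreasing sequence `r 0 = qω`, `r (n + 1) ≤ r n` such that `O (A k s) l α n (r (i + 1))` or there is no
`q' ≤ r (i + 1)` with `O (A k s) l α n q'` for the `i`-th tuple `(k, s, l, n)` (if there is `q' ≤ r i` with
`O .. q'` take it, otherwise `r (i + 1) = r i`). Let `qs ≤ r i` for all `i` (`hQ`). For every `x` there
are by `F1` `q x ≤ qs`, `c' x ≤ cω x`, `n x` with `Ba α (n x) (q x) (c' x)`. The map `x ↦ n x` is not
injective on `ℕ → Bool` (uncountable: e.g. `Function.cantor_injective` or `Countable` contradiction with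
`Cardinal.mk`), so there are `x ≠ y` with `n x = n y = n`. Let `k` be least with `x k ≠ y k` and `s` the
common restriction to `Fin k`. By `Ba_mono`, `Ba (A k s) (m k s (x k)) (q x) (c' x)`, and by `F3` there is
`q' ≤ q x` with `O (A k s) (m k s (x k)) α n q'`, so (as `q' ≤ qs ≤ r (i + 1)` and by the choice of
`r (i + 1)`) `O (A k s) (m k s (x k)) α n qs`. In the same way `O (A k s) (m k s (y k)) α n qs`. By `F4`
`m k s (x k) = m k s (y k)`; since `x k ≠ y k` this contradicts `m k s false ≠ m k s true`. -/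

namespace Pool.Agent.RFN.GX.KUR

variable {Q C : Type} [Preorder Q] [Preorder C]

theorem comb (hQ : SCl Q) (hC : SCl C) (q0 : Q) (c0 : C) (H : CombH Q C) : False := by
  classical
  obtain ⟨q, c, A, m, hq, hc, hm, hBa⟩ := H.exists_tree H.split q0 c0
  obtain ⟨qω, hqω⟩ := hQ q hq
  have h1 : ∀ x, ∃ cω, ∀ k, cω ≤ c x k := fun x => hC (c x) (hc x)
  choose cω hcω using h1
  obtain ⟨α, hα⟩ : ∃ α : H68.KT.W1, ∀ k s, A k s < α := by
    obtain ⟨b, hb⟩ := H68.KT.exists_bound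
      (s := Set.range (fun p : Σ k : ℕ, (Fin k → Bool) => A p.1 p.2)) (Set.countable_range _)
    exact ⟨b, fun k s => hb _ ⟨⟨k, s⟩, rfl⟩⟩
  obtain ⟨e, he⟩ : ∃ e : ℕ → (Σ k : ℕ, (Fin k → Bool)) × ℕ × ℕ, Function.Surjective e := by
    have : Nonempty ((Σ k : ℕ, (Fin k → Bool)) × ℕ × ℕ) := ⟨(⟨0, fun _ => false⟩, 0, 0)⟩
    exact exists_surjective_nat _
  have hstep : ∀ (j : (Σ k : ℕ, (Fin k → Bool)) × ℕ × ℕ) (r : Q), ∃ r' ≤ r,
      H.O (A j.1.1 j.1.2) j.2.1 α j.2.2 r' ∨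
        ¬ ∃ q' ≤ r', H.O (A j.1.1 j.1.2) j.2.1 α j.2.2 q' := by
    intro j r
    by_cases h : ∃ q' ≤ r, H.O (A j.1.1 j.1.2) j.2.1 α j.2.2 q'
    · obtain ⟨q', hq', hO⟩ := h
      exact ⟨q', hq', Or.inl hO⟩
    · exact ⟨r, le_rfl, Or.inr h⟩
  choose f hf1 hf2 using hstep
  obtain ⟨r, hr0, hr⟩ : ∃ r : ℕ → Q, r 0 = qω ∧ ∀ i, r (i + 1) = f (e i) (r i) :=
    ⟨fun i => Nat.rec qω (fun i r => f (e i) r) i, rfl, fun _ => rfl⟩
  obtain ⟨qs, hqs⟩ := hQ r (fun i => by rw [hr]; exact hf1 (e i) (r i))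
  have hqsω : qs ≤ qω := by rw [← hr0]; exact hqs 0
  have h2 : ∀ x : ℕ → Bool, ∃ q' ≤ qs, ∃ c' ≤ cω x, ∃ n, H.Ba α n q' c' :=
    fun x => H.F1 qs (cω x) α
  choose qx hqx cx hcx n hn using h2
  have hinj : ¬ Function.Injective n := by
    intro h
    apply Function.cantor_injective (fun s : Set ℕ => n (fun i => decide (i ∈ s)))
    intro s t hst
    have h3 := h hst
    ext i
    have h4 := congrFun h3 i
    simpa using h4
  obtain ⟨x, y, hnxy, hxy⟩ : ∃ x y, n x = n y ∧ x ≠ y := by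
    unfold Function.Injective at hinj
    push Not at hinj
    obtain ⟨x, y, h3, h4⟩ := hinj
    exact ⟨x, y, h3, h4⟩
  have hex : ∃ k, x k ≠ y k := Function.ne_iff.1 hxy
  obtain ⟨k, hk, hlt⟩ : ∃ k, x k ≠ y k ∧ ∀ i < k, x i = y i :=
    ⟨Nat.find hex, Nat.find_spec hex, fun i hi => not_not.1 (Nat.find_min hex hi)⟩
  have hs : (fun i : Fin k => x i) = fun i : Fin k => y i := funext fun i => hlt i i.2
  have key : ∀ z : ℕ → Bool,
      H.O (A k fun i => z i) (m k (fun i => z i) (z k)) α (n z) qs := by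
    intro z
    have h3 : H.Ba (A k fun i => z i) (m k (fun i => z i) (z k)) (qx z) (cx z) :=
      H.Ba_mono ((hqx z).trans (hqsω.trans (hqω (k + 1)))) ((hcx z).trans (hcω z (k + 1)))
        (hBa z k)
    obtain ⟨q', hq', hO⟩ := H.F3 (hα k _) h3 (hn z)
    obtain ⟨i, hi⟩ := he (⟨k, fun i => z i⟩, m k (fun i => z i) (z k), n z)
    have h4 := hf2 (e i) (r i)
    rw [← hr i, hi] at h4
    rcases h4 with h4 | h4
    · exact H.O_mono (hqs (i + 1)) h4
    · exact absurd ⟨q', hq'.trans ((hqx z).trans (hqs (i + 1))), hO⟩ h4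
  have hx := key x
  have hy := key y
  rw [hs, hnxy] at hx
  have h5 := H.F4 hx hy
  rcases Bool.eq_false_or_eq_true (x k) with h6 | h6 <;>
    rcases Bool.eq_false_or_eq_true (y k) with h7 | h7
  · exact hk (by rw [h6, h7])
  · rw [h6, h7] at h5
    exact hm k _ h5.symm
  · rw [h6, h7] at h5
    exact hm k _ h5
  · exact hk (by rw [h6, h7])

end Pool.Agent.RFN.GX.KUR
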