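import Pool.Agent.H68.KT.Defs

set_option autoImplicit false

/-! # The combinatorial situation

`Q` is the part of the forcing notion which decides the tree, `C` the part which adds a new
function `x`. `Ba α n q c`: `(q, c)` forces that the branch goes through the node `(α, n)`.
`O β m α n q`: `q` forces `(β, m) < (α, n)` in the tree. `V α n γ i q`: `q` forces that the node
`(α, n)` decides the value `i` at `γ`. -/

namespace Pool.Agent.RFN.GX.KUR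

/-- Countably closed. -/
def SCl (P : Type) [Preorder P] : Prop :=
  ∀ p : ℕ → P, (∀ n, p (n + 1) ≤ p n) → ∃ q, ∀ n, q ≤ p n

/-- The data. -/
structure CombH (Q C : Type) [Preorder Q] [Preorder C] where
  Ba : H68.KT.W1 → ℕ → Q → C → Prop
  O : H68.KT.W1 → ℕ → H68.KT.W1 → ℕ → Q → Prop
  V : H68.KT.W1 → ℕ → H68.KT.W1 → Bool → Q → Prop
  x : H68.KT.W1 → Bool → C → Prop
  Ba_mono : ∀ {α n q c q' c'}, q' ≤ q → c' ≤ c → Ba α n q c → Ba α n q' c'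
  O_mono : ∀ {β m α n q q'}, q' ≤ q → O β m α n q → O β m α n q'
  V_mono : ∀ {α n γ i q q'}, q' ≤ q → V α n γ i q → V α n γ i q'
  x_mono : ∀ {γ i c c'}, c' ≤ c → x γ i c → x γ i c'
  F1 : ∀ q c α, ∃ q' ≤ q, ∃ c' ≤ c, ∃ n, Ba α n q' c'
  F3 : ∀ {β m α n q c}, β < α → Ba β m q c → Ba α n q c → ∃ q' ≤ q, O β m α n q'
  F4 : ∀ {β m m' α n q}, O β m α n q → O β m' α n q → m = m'
  F5 : ∀ q c γ, ∃ q' ≤ q, ∃ c' ≤ c, ∃ α n i, Ba α n q' c' ∧ V α n γ i q' ∧ x γ i c'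
  F6 : ∀ {α n γ i i' q c}, Ba α n q c → V α n γ i q → x γ i' c → i = i'
  F8 : ∀ c, ∃ γ, ∃ c0 ≤ c, ∃ c1 ≤ c, x γ false c0 ∧ x γ true c1

variable {Q C : Type} [Preorder Q] [Preorder C]

/-- `q` and two extensions of `c` decide the branch differently. -/
def CombH.Split (H : CombH Q C) (q : Q) (c : C) : Prop :=
  ∃ q' ≤ q, ∃ c0 ≤ c, ∃ c1 ≤ c, ∃ α n0 n1, n0 ≠ n1 ∧ H.Ba α n0 q' c0 ∧ H.Ba α n1 q' c1

end Pool.Agent.RFN.GX.KUR
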