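import Pool.Agent.H68.KT.Defs

set_option autoImplicit false

/-! # The forcing notion

A condition `p` has a countable ordinal `p.d`, a tree order on the nodes `(α, n)`, `α < p.d`, `n ∈ ℕ`
(`p.pi β α n` is the predecessor of `(α, n)` on the level `β < α`), a countable set `p.A` of indices
of branches, the branches `p.b ξ`, `ξ ∈ p.A`, below `p.d`, and a countable partial function `p.e`
from `Kx × Om` to the reals. -/

namespace Pool.Agent.RFN.GX.KUR

/-- The countable ordinals. -/
abbrev Om : Type := H68.KT.W1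

/-- The reals. -/
abbrev Rl : Type := ℕ → Bool

/-- The index set: a set of cardinality `(2 ^ ℵ₀)⁺`. -/
abbrev Kx : Type := (Order.succ Cardinal.continuum.{0}).out

theorem mk_Kx : Cardinal.mk Kx = Order.succ Cardinal.continuum := Cardinal.mk_out _

instance : Nonempty Kx := by
  rw [← Cardinal.mk_ne_zero_iff, mk_Kx]
  exact (Order.bot_lt_succ _).ne'

/-- A fixed index. -/
noncomputable def k0 : Kx := Classical.arbitrary Kx

/-- The conditions. -/
structure Cn where
  d : Om
  pi : Om → Om → ℕ → ℕ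
  A : Set Kx
  b : Kx → Om → ℕ
  e : Kx → Om → Option Rl
  hA : A.Countable
  he : {z : Kx × Om | e z.1 z.2 ≠ none}.Countable
  h0 : k0 ∈ A
  coh : ∀ γ β α, γ < β → β < α → α < d → ∀ n, pi γ β (pi β α n) = pi γ α n
  br : ∀ ξ ∈ A, ∀ β α, β < α → α < d → pi β α (b ξ α) = b ξ β

/-- The order: `q` is stronger than `p`. -/
structure Cn.Le (q p : Cn) : Prop where
  d : p.d ≤ q.d
  pi : ∀ β α n, β < α → α < p.d → q.pi β α n = p.pi β α n
  A : p.A ⊆ q.A
  b : ∀ ξ ∈ p.A, ∀ α < p.d, q.b ξ α = p.b ξ α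
  e : ∀ ξ α ρ, p.e ξ α = some ρ → q.e ξ α = some ρ

instance : Preorder Cn where
  le q p := Cn.Le q p
  le_refl p := ⟨le_rfl, fun _ _ _ _ _ => rfl, subset_rfl, fun _ _ _ _ => rfl, fun _ _ _ h => h⟩
  le_trans r q p h1 h2 :=
    ⟨h2.d.trans h1.d,
      fun β α n hβ hα => (h1.pi β α n hβ (hα.trans_le h2.d)).trans (h2.pi β α n hβ hα),
      h2.A.trans h1.A,
      fun ξ hξ α hα => (h1.b ξ (h2.A hξ) α (hα.trans_le h2.d)).trans (h2.b ξ hξ α hα),
      fun ξ α ρ h => h1.e ξ α ρ (h2.e ξ α ρ h)⟩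

theorem le_def {q p : Cn} : q ≤ p ↔ Cn.Le q p := Iff.rfl

theorem exists_bot : ∃ z : Om, ∀ a : Om, z ≤ a := by
  have hne : (Set.univ : Set Om).Nonempty := by
    by_contra h
    rw [Set.not_nonempty_iff_eq_empty] at h
    exact H68.KT.not_countable_univ (h ▸ Set.countable_empty)
  exact ⟨WellFounded.min (wellFounded_lt (α := Om)) _ hne,
    fun a => WellFounded.min_le (wellFounded_lt (α := Om)) (Set.mem_univ a)⟩

/-- The least element of `Om`. -/
noncomputable def oz : Om := exists_bot.choose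

theorem oz_le (a : Om) : oz ≤ a := exists_bot.choose_spec a

theorem not_lt_oz (a : Om) : ¬ a < oz := not_lt.2 (oz_le a)

/-- The greatest condition. -/
noncomputable def Cn.top : Cn where
  d := oz
  pi _ _ _ := 0
  A := {k0}
  b _ _ := 0
  e _ _ := none
  hA := Set.countable_singleton _
  he := by simp
  h0 := rfl
  coh _ _ _ _ _ h := absurd h (not_lt_oz _)
  br _ _ _ _ _ h := absurd h (not_lt_oz _)

noncomputable instance : OrderTop Cn where
  top := Cn.top
  le_top p :=
    ⟨oz_le _, fun _ _ _ _ h => absurd h (not_lt_oz _), by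
      rintro ξ (rfl : ξ = k0); exact p.h0, fun _ _ _ h => absurd h (not_lt_oz _),
      fun _ _ _ h => by cases h⟩

/-- Two conditions are compatible. -/
def Cmp {P : Type} [Preorder P] (p q : P) : Prop := ∃ r, r ≤ p ∧ r ≤ q

end Pool.Agent.RFN.GX.KUR
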