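import Pool.Agent.RFN.TDefs

set_option autoImplicit false

/-! # Kurepa trees and strong Kurepa trees in a model of set theory

`N` is a model of ZF (`ZFM N`: a type with a binary relation, written `∈`, satisfying the axioms of
ZF). All notions below are the usual set theoretic notions, interpreted in `N`: `opair x y` is the
Kuratowski ordered pair of `N`, `Fun f A B` says that `f` is a function from `A` to `B`, `ap f x` is
its value, `Inj f A B` an injection, `omega` is the set of natural numbers of `N`, `pow A` the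
power set. `Ctbl A`: there is an injection of `A` into `omega`. `IsCont f B S C S'`: `f : B → C` is
continuous for the topologies `S`, `S'` (the sets of the open sets). -/

universe u

namespace Pool.Agent.RFN.GX.KUR

open Pool.Agent.H78.ZF

variable {N : Type u} [ZFM N]

/-- `w` is the first uncountable ordinal: a transitive set which is linearly ordered by `∈` (an
ordinal), uncountable, with countable elements. -/
structure IsW1 (w : N) : Prop where
  tr : ∀ x, x ∈ w → x ⊆ w
  lin : ∀ x y, x ∈ w → y ∈ w → x ∈ y ∨ x = y ∨ y ∈ x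
  ctb : ∀ x, x ∈ w → Ctbl x
  unc : ¬ Ctbl w

/-- The continuum hypothesis (`w` is the first uncountable ordinal): there is a map of `w` onto
the power set of `omega`. -/
def CH (w : N) : Prop :=
  ∃ f, Fun f w (pow omega) ∧ ∀ y, y ∈ (pow omega : N) → ∃ x, x ∈ w ∧ ap f x = y

/-- `(T, R)` is a tree; `s < t` is `opair s t ∈ R`. A partial order in which the predecessors of
every node are well-ordered. -/
structure IsTree (T R : N) : Prop where
  sub : R ⊆ prod T T
  irr : ∀ t, opair t t ∉ R
  trans : ∀ s t u, opair s t ∈ R → opair t u ∈ R → opair s u ∈ R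
  lin : ∀ s s' t, opair s t ∈ R → opair s' t ∈ R → opair s s' ∈ R ∨ s = s' ∨ opair s' s ∈ R
  wf : ∀ t S : N, (∀ s, s ∈ S → opair s t ∈ R) → (∃ s, s ∈ S) →
    ∃ s, s ∈ S ∧ ∀ s', s' ∈ S → opair s' s ∉ R

/-- `h` is the height function of `(T, R)`, with values in `w`: the height of a node is the order
type of its set of predecessors, that is, the set of the heights of its predecessors. -/
def IsHt (w T R h : N) : Prop :=
  Fun h T w ∧ ∀ t α, t ∈ T → (α ∈ ap h t ↔ ∃ s, opair s t ∈ R ∧ ap h s = α)

/-- `(T, R)` is an `ω₁`-tree with height function `h`. -/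
structure IsO1Tree (w T R h : N) : Prop where
  tree : IsTree T R
  ht : IsHt w T R h
  lev : ∀ α, α ∈ w → ∃ t, t ∈ T ∧ ap h t = α
  ctb : ∀ α L : N, α ∈ w → (∀ t, t ∈ L ↔ t ∈ T ∧ ap h t = α) → Ctbl L

/-- `b` is a cofinal branch: a downward closed linearly ordered set of nodes meeting every
level. -/
structure IsBranch (w T R h b : N) : Prop where
  sub : b ⊆ T
  down : ∀ s t, t ∈ b → opair s t ∈ R → s ∈ b
  lin : ∀ s t, s ∈ b → t ∈ b → opair s t ∈ R ∨ s = t ∨ opair t s ∈ R
  cof : ∀ α, α ∈ w → ∃ t, t ∈ b ∧ ap h t = α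

/-- `B` is the set of the cofinal branches. -/
def IsBrSet (w T R h B : N) : Prop := ∀ b, b ∈ B ↔ IsBranch w T R h b

/-- A Kurepa tree: an `ω₁`-tree with more than `ℵ₁` cofinal branches. -/
def IsKurepa (w T R h : N) : Prop :=
  IsO1Tree w T R h ∧ ∀ B, IsBrSet w T R h B → ¬ ∃ f, Inj f B w

/-- `S` is the cone topology on the set `B` of branches. -/
def IsConeTop (B S : N) : Prop :=
  ∀ U, U ∈ S ↔ U ⊆ B ∧ ∀ b, b ∈ U → ∃ t, t ∈ b ∧ ∀ b', b' ∈ B → t ∈ b' → b' ∈ U

/-- The set `{0, 1}`. -/
noncomputable def two : N := succ (succ emp)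

/-- `C` is the set of all the functions from `w` to `2`. -/
def IsFunSet (w C : N) : Prop := ∀ f, f ∈ C ↔ Fun f w two

/-- `S` is the cone topology on the set `C` of all the functions from `w` to `2`: for every `f`
in an open set `U` there is `α ∈ w` such that all the functions which extend the restriction
of `f` to `α` are in `U`. -/
def IsConeTop2 (w C S : N) : Prop :=
  ∀ U, U ∈ S ↔ U ⊆ C ∧ ∀ f, f ∈ U → ∃ α, α ∈ w ∧
    ∀ f', f' ∈ C → (∀ β, β ∈ α → ap f' β = ap f β) → f' ∈ U

/-- There is a continuous map of the space of the cofinal branches of `(T, R)` onto the space of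
the functions from `w` to `2`. -/
def HasSurj (w T R h : N) : Prop :=
  ∃ B S C S' F, IsBrSet w T R h B ∧ IsConeTop B S ∧ IsFunSet w C ∧ IsConeTop2 w C S' ∧
    IsCont F B S C S' ∧ ∀ y, y ∈ C → ∃ x, x ∈ B ∧ ap F x = y

/-- A strong Kurepa tree. -/
def IsStrong (w T R h : N) : Prop := IsKurepa w T R h ∧ HasSurj w T R h

/-- The sentence of Q1: the continuum hypothesis holds, there is a Kurepa tree, and no Kurepa tree
is strong. -/
def Q1 (N : Type u) [ZFM N] : Prop :=
  ∃ w : N, IsW1 w ∧ CH w ∧ (∃ T R h, IsKurepa w T R h) ∧ ¬ ∃ T R h, IsStrong w T R h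

end Pool.Agent.RFN.GX.KUR
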