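import Pool.Agent.KUR.Low

set_option autoImplicit false

/-! # Changing one coordinate -/

namespace Pool.Agent.RFN.GX.KUR

/-- Countable partial functions from `Om` to the reals. -/
structure Pc where
  f : Om → Option Rl
  h : {α | f α ≠ none}.Countable

instance : Preorder Pc where
  le q p := ∀ α ρ, p.f α = some ρ → q.f α = some ρ
  le_refl _ _ _ h := h
  le_trans _ _ _ h1 h2 α ρ h := h1 α ρ (h2 α ρ h)

theorem Pc.le_def {q p : Pc} : q ≤ p ↔ ∀ α ρ, p.f α = some ρ → q.f α = some ρ := Iff.rfl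

/-- The empty partial function. -/
def Pc.nil : Pc := ⟨fun _ => none, by simp⟩

/-- The coordinate `ζ` of a condition. -/
def pcO (p : Cn) (ζ : Kx) : Pc :=
  ⟨p.e ζ, (p.he.preimage (f := fun α : Om => (ζ, α)) (fun _ _ h => (Prod.mk.inj h).2)).mono
    fun _ h => h⟩

open Classical in
/-- The condition `p` with the coordinate `ζ` replaced by `c`. -/
noncomputable def upd (p : Cn) (ζ : Kx) (c : Pc) : Cn :=
  { p with
    e := fun ξ => if ξ = ζ then c.f else p.e ξ
    he := by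
      refine (p.he.union ((c.h.image (fun α : Om => (ζ, α))))).mono ?_
      rintro ⟨ξ, α⟩ h
      simp only [Set.mem_setOf_eq] at h
      split_ifs at h with h1
      · right
        exact ⟨α, h, by rw [h1]⟩
      · left
        exact h }

theorem upd_e_self (p : Cn) (ζ : Kx) (c : Pc) : (upd p ζ c).e ζ = c.f := by
  simp [upd]

theorem upd_e_ne (p : Cn) {ζ ξ : Kx} (c : Pc) (h : ξ ≠ ζ) : (upd p ζ c).e ξ = p.e ξ := by
  simp [upd, h]

theorem upd_le {q p : Cn} {ζ : Kx} {c c' : Pc} (h : q ≤ p) (hc : c ≤ c') :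
    upd q ζ c ≤ upd p ζ c' := by
  refine ⟨h.d, h.pi, h.A, h.b, fun ξ α ρ hρ => ?_⟩
  by_cases h1 : ξ = ζ
  · subst h1
    rw [upd_e_self] at hρ ⊢
    exact hc α ρ hρ
  · rw [upd_e_ne _ _ h1] at hρ ⊢
    exact h.e ξ α ρ hρ

theorem upd_pcO (p : Cn) (ζ : Kx) : upd p ζ (pcO p ζ) = p := by
  classical
  have h : (fun ξ => if ξ = ζ then (pcO p ζ).f else p.e ξ) = p.e := by
    funext ξ
    by_cases h1 : ξ = ζ
    · subst h1; simp [pcO]
    · simp [h1]
  unfold upd
  cases p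
  simp only [Cn.mk.injEq, true_and]
  exact h

theorem pcO_mono {q p : Cn} (h : q ≤ p) (ζ : Kx) : pcO q ζ ≤ pcO p ζ := fun α ρ => h.e ζ α ρ

theorem pcO_upd (p : Cn) (ζ : Kx) (c : Pc) : pcO (upd p ζ c) ζ = c := by
  unfold pcO
  cases c
  simp [upd_e_self]

theorem upd_upd (p : Cn) (ζ : Kx) (c c' : Pc) : upd (upd p ζ c) ζ c' = upd p ζ c' := by
  have h : (upd (upd p ζ c) ζ c').e = (upd p ζ c').e := by
    funext ξ
    by_cases h1 : ξ = ζ
    · subst h1; rw [upd_e_self, upd_e_self]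
    · rw [upd_e_ne _ _ h1, upd_e_ne _ _ h1, upd_e_ne _ _ h1]
  unfold upd at h ⊢
  simp only [Cn.mk.injEq, true_and]
  exact h

theorem noE_upd (p : Cn) (ζ : Kx) : NoE (upd p ζ Pc.nil) ζ := fun α => by
  rw [upd_e_self]; rfl

theorem noE_iff {p : Cn} {ζ : Kx} : NoE p ζ ↔ upd p ζ Pc.nil = p := by
  constructor
  · intro h
    have h1 : pcO p ζ = Pc.nil := by
      unfold pcO Pc.nil
      simp only [Pc.mk.injEq]
      funext α
      exact h α
    rw [← h1, upd_pcO]
  · intro h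
    rw [← h]
    exact noE_upd p ζ

/-- A condition which does not mention `ζ` is not affected by a change of the coordinate `ζ`. -/
theorem upd_le_of_noE {r a : Cn} {ζ : Kx} (h : r ≤ a) (ha : NoE a ζ) (c : Pc) :
    upd r ζ c ≤ a := by
  refine ⟨h.d, h.pi, h.A, h.b, fun ξ α ρ hρ => ?_⟩
  by_cases h1 : ξ = ζ
  · subst h1
    rw [ha α] at hρ
    cases hρ
  · rw [upd_e_ne _ _ h1]
    exact h.e ξ α ρ hρ

theorem le_upd_nil (p : Cn) (ζ : Kx) : p ≤ upd p ζ Pc.nil := by
  conv_lhs => rw [← upd_pcO p ζ]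
  exact upd_le le_rfl fun α ρ h => by cases h

theorem upd_le_self {p : Cn} {ζ : Kx} {c : Pc} (hc : c ≤ pcO p ζ) : upd p ζ c ≤ p := by
  conv_rhs => rw [← upd_pcO p ζ]
  exact upd_le le_rfl hc

theorem pc_lb (c : ℕ → Pc) (hc : ∀ n, c (n + 1) ≤ c n) : ∃ c', ∀ n, c' ≤ c n := by
  classical
  have hanti : Antitone c := antitone_nat_of_succ_le hc
  refine ⟨⟨fun α => if h : ∃ n, (c n).f α ≠ none then (c h.choose).f α else none, ?_⟩, ?_⟩
  · refine (Set.countable_iUnion fun n => (c n).h).mono ?_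
    intro α hα
    simp only [Set.mem_setOf_eq] at hα
    split_ifs at hα with h
    · exact Set.mem_iUnion.2 ⟨h.choose, hα⟩
    · exact absurd rfl hα
  · intro n α ρ hρ
    have h : ∃ n, (c n).f α ≠ none := ⟨n, by rw [hρ]; simp⟩
    simp only [dif_pos h]
    obtain ⟨σ, hσ⟩ := Option.ne_none_iff_exists'.1 h.choose_spec
    rcases le_total n h.choose with h1 | h1
    · exact hanti h1 α ρ hρ
    · rw [hσ]
      have := hanti h1 α σ hσ
      rw [hρ] at this
      exact this.symm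

theorem pc_split (c : Pc) : ∃ γ, ∃ c0 ≤ c, ∃ c1 ≤ c, (∃ ρ, c0.f γ = some ρ ∧ ρ 0 = false) ∧
    ∃ ρ, c1.f γ = some ρ ∧ ρ 0 = true := by
  classical
  obtain ⟨γ, hγ⟩ : ∃ γ, c.f γ = none := by
    by_contra hcon
    push Not at hcon
    exact H68.KT.not_countable_univ (c.h.mono fun α _ => hcon α)
  have key : ∀ ρ : Rl, ∃ c' ≤ c, c'.f γ = some ρ := by
    intro ρ
    refine ⟨⟨Function.update c.f γ (some ρ), ?_⟩, ?_, by simp⟩
    · refine (c.h.insert γ).mono ?_
      intro α hα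
      by_cases h1 : α = γ
      · exact Or.inl h1
      · right
        simpa [Function.update_of_ne h1] using hα
    · intro α σ hσ
      by_cases h1 : α = γ
      · subst h1
        rw [hγ] at hσ
        cases hσ
      · simpa [Function.update_of_ne h1] using hσ
  obtain ⟨c0, h0, e0⟩ := key fun _ => false
  obtain ⟨c1, h1, e1⟩ := key fun _ => true
  exact ⟨γ, c0, h0, c1, h1, ⟨_, e0, rfl⟩, ⟨_, e1, rfl⟩⟩

end Pool.Agent.RFN.GX.KUR
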