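import Pool.Agent.KUR.Clos
import Pool.Agent.KUR.CSupp
import Pool.Agent.KUR.Amalg
import Pool.Agent.KUR.Upd

set_option autoImplicit false

/-! # The chain condition

PROOF of `delta`. Let `supp p = p.A ∪ {ξ | ∃ α, p.e ξ α ≠ none}` (countable, contains `k0`). Let
`L = Om × {f : Om × Om × ℕ → ℕ // countable support} ×
  (ℕ → Prop × {f : Om → ℕ // countable support} × {f : Om → Option Rl // countable support})`
(support: the set where the value is not `0`, `0`, `none`); `#L ≤ 𝔠` by `mk_csupp_le`, `mk_prod_le`,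
`mk_seq_le` (`#Om = ℵ₁ ≤ 𝔠`: `H68.KT.mk_W1`, `Cardinal.aleph_one_le_continuum` or
`Order.succ_le_of_lt` from `aleph0_lt_continuum`; `#Rl = 𝔠`). For a condition `p` and `c : ℕ → Kx` let
`inf p c : L` be `(p.d, the function (β, α, n) ↦ p.pi β α n if β < α < p.d and 0 otherwise,
n ↦ (c n ∈ p.A, α ↦ p.b (c n) α if α < p.d and 0 otherwise, p.e (c n)))`. For `c` and `l : L` let
`F c l = ∅` if there is no `ζ ∈ Z` with `inf (a ζ) c = l`, and `insert ζ (supp (a ζ))` for a chosen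
such `ζ` otherwise. Let `M` be given by `exists_closed` with `k = k0`. As `#Z > 𝔠 ≥ #M` there is
`η ∈ Z` with `η ∉ M`. Let `c : ℕ → Kx` enumerate the countable nonempty set `supp (a η) ∩ M` (it
contains `k0`). `F c (inf (a η) c) ⊆ M` and it is `insert ζ (supp (a ζ))` for some `ζ ∈ Z` with
`inf (a ζ) c = inf (a η) c`. So `ζ ∈ M` (hence `ζ ≠ η`), `supp (a ζ) ⊆ M` (hence `η ∉ supp (a ζ)`, i.e.
`NoE (a ζ) η`). `Cmp (a ζ) (a η)` by `cmp_of_agree`: `ξ ∈ supp (a ζ) ∩ supp (a η)` implies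
`ξ ∈ supp (a η) ∩ M`, so `ξ = c n` for some `n` and the data of `a ζ` and `a η` at `ξ` are equal. -/

namespace Pool.Agent.RFN.GX.KUR

open Cardinal

/-- The indices mentioned by a condition. -/
def deltaSupp (p : Cn) : Set Kx := p.A ∪ {ξ | ∃ α, p.e ξ α ≠ none}

theorem deltaSupp_countable (p : Cn) : (deltaSupp p).Countable := by
  refine p.hA.union ((p.he.image Prod.fst).mono ?_)
  rintro ξ ⟨α, hα⟩
  exact ⟨(ξ, α), hα, rfl⟩

/-- The isomorphism types. -/
abbrev DeltaL : Type :=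
  Om × {f : Om × Om × ℕ → ℕ // {i | f i ≠ 0}.Countable} ×
    (ℕ → Prop × {f : Om → ℕ // {i | f i ≠ 0}.Countable} ×
      {f : Om → Option Rl // {i | f i ≠ none}.Countable})

theorem delta_mk_Om : #Om ≤ 𝔠 := by
  rw [H68.KT.mk_W1]
  exact aleph_one_le_continuum

theorem delta_mk_nat : #ℕ ≤ 𝔠 := by
  rw [mk_nat]
  exact aleph0_le_continuum

theorem delta_mk_Rl : #Rl ≤ 𝔠 :=
  mk_seq_le ((Cardinal.mk_le_aleph0 (α := Bool)).trans aleph0_le_continuum)

theorem delta_mk_oRl : #(Option Rl) ≤ 𝔠 := by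
  rw [mk_option]
  calc #Rl + 1 ≤ 𝔠 + 𝔠 := add_le_add delta_mk_Rl (one_le_aleph0.trans aleph0_le_continuum)
    _ = 𝔠 := continuum_add_self

theorem delta_mk_L : #DeltaL ≤ 𝔠 := by
  refine mk_prod_le delta_mk_Om (mk_prod_le ?_ (mk_seq_le (mk_prod_le ?_ (mk_prod_le ?_ ?_))))
  · exact mk_csupp_le (mk_prod_le delta_mk_Om (mk_prod_le delta_mk_Om delta_mk_nat))
      delta_mk_nat 0
  · exact (Cardinal.mk_le_aleph0 (α := Prop)).trans aleph0_le_continuum
  · exact mk_csupp_le delta_mk_Om delta_mk_nat 0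
  · exact mk_csupp_le delta_mk_Om delta_mk_oRl none

open Classical in
/-- The isomorphism type of a condition over a sequence of indices. -/
noncomputable def deltaInf (p : Cn) (c : ℕ → Kx) : DeltaL :=
  ⟨p.d,
    ⟨fun x => if x.1 < x.2.1 ∧ x.2.1 < p.d then p.pi x.1 x.2.1 x.2.2 else 0, by
      refine ((H68.KT.countable_Iio p.d).prod ((H68.KT.countable_Iio p.d).prod
        (Set.countable_univ (α := ℕ)))).mono ?_
      rintro ⟨β, α, n⟩ h
      rw [Set.mem_ofPred_eq] at h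
      by_cases h1 : β < α ∧ α < p.d
      · exact ⟨h1.1.trans h1.2, h1.2, Set.mem_univ _⟩
      · exact absurd (if_neg h1) h⟩,
    fun n => ⟨c n ∈ p.A,
      ⟨fun α => if α < p.d then p.b (c n) α else 0, by
        refine (H68.KT.countable_Iio p.d).mono ?_
        intro α h
        rw [Set.mem_ofPred_eq] at h
        by_cases h1 : α < p.d
        · exact h1
        · exact absurd (if_neg h1) h⟩,
      ⟨p.e (c n), by
        refine (p.he.image Prod.snd).mono ?_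
        intro α h
        exact ⟨(c n, α), h, rfl⟩⟩⟩⟩

theorem deltaInf_eq {p q : Cn} {c : ℕ → Kx} (h : deltaInf p c = deltaInf q c) :
    p.d = q.d ∧ (∀ β α n, β < α → α < p.d → p.pi β α n = q.pi β α n) ∧
      (∀ n, ∀ α < p.d, p.b (c n) α = q.b (c n) α) ∧ ∀ n, p.e (c n) = q.e (c n) := by
  have hd : p.d = q.d := congrArg (fun x : DeltaL => x.1) h
  have h1 := congrArg (fun x : DeltaL => x.2.1.1) h
  have h2 := congrArg (fun x : DeltaL => x.2.2) h
  refine ⟨hd, ?_, ?_, ?_⟩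
  · intro β α n hβ hα
    have h3 := congrFun h1 (β, α, n)
    simp only [deltaInf] at h3
    rwa [if_pos ⟨hβ, hα⟩, if_pos ⟨hβ, hd ▸ hα⟩] at h3
  · intro n α hα
    have h3 := congrArg (fun x => x.2.1.1 α) (congrFun h2 n)
    simp only [deltaInf] at h3
    rwa [if_pos hα, if_pos (hd ▸ hα)] at h3
  · intro n
    have h3 := congrArg (fun x => x.2.2.1) (congrFun h2 n)
    exact h3

theorem delta {Z : Set Kx} (hZ : ¬ #Z ≤ 𝔠) (a : Kx → Cn) :
    ∃ ζ ∈ Z, ∃ η ∈ Z, ζ ≠ η ∧ Cmp (a ζ) (a η) ∧ NoE (a ζ) η := by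
  classical
  obtain ⟨F, hF⟩ : ∃ F : (ℕ → Kx) → DeltaL → Set Kx, F = fun c l =>
      if h : ∃ ζ ∈ Z, deltaInf (a ζ) c = l then insert h.choose (deltaSupp (a h.choose))
      else ∅ := ⟨_, rfl⟩
  have hFc : ∀ c l, (F c l).Countable := by
    intro c l
    rw [hF]
    by_cases h : ∃ ζ ∈ Z, deltaInf (a ζ) c = l
    · simp only [dif_pos h]
      exact (deltaSupp_countable _).insert _
    · simp only [dif_neg h]
      exact Set.countable_empty
  obtain ⟨M, hM, hk, hcl⟩ := exists_closed delta_mk_L F hFc k0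
  obtain ⟨η, hη, hηM⟩ : ∃ η ∈ Z, η ∉ M := by
    by_contra hcon
    push Not at hcon
    exact hZ ((mk_le_mk_of_subset hcon).trans hM)
  have hne : (deltaSupp (a η) ∩ M).Nonempty := ⟨k0, Or.inl (a η).h0, hk⟩
  obtain ⟨c, hc⟩ := ((deltaSupp_countable (a η)).mono
    (Set.inter_subset_left (t := M))).exists_eq_range hne
  have hcM : ∀ n, c n ∈ M := fun n => by
    have : c n ∈ deltaSupp (a η) ∩ M := by
      rw [hc]
      exact ⟨n, rfl⟩
    exact this.2
  have hex : ∃ ζ ∈ Z, deltaInf (a ζ) c = deltaInf (a η) c := ⟨η, hη, rfl⟩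
  have hsub := hcl c hcM (deltaInf (a η) c)
  rw [hF] at hsub
  simp only [dif_pos hex] at hsub
  obtain ⟨hζ, hinf⟩ := hex.choose_spec
  have hζM : hex.choose ∈ M := hsub (Set.mem_insert _ _)
  have hsM : deltaSupp (a hex.choose) ⊆ M := fun x hx => hsub (Set.mem_insert_of_mem _ hx)
  obtain ⟨hd, hpi, hb, he⟩ := deltaInf_eq hinf
  have key : ∀ ξ, ξ ∈ deltaSupp (a hex.choose) → ξ ∈ deltaSupp (a η) → ∃ n, c n = ξ := by
    intro ξ h1 h2
    have h3 : ξ ∈ deltaSupp (a η) ∩ M := ⟨h2, hsM h1⟩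
    rw [hc] at h3
    exact h3
  refine ⟨hex.choose, hζ, η, hη, ?_, ?_, ?_⟩
  · intro h
    exact hηM (h ▸ hζM)
  · refine cmp_of_agree hd hpi ?_ ?_
    · intro ξ h1 h2 α hα
      obtain ⟨n, rfl⟩ := key ξ (Or.inl h1) (Or.inl h2)
      exact hb n α hα
    · intro ξ α ρ ρ' h1 h2
      obtain ⟨n, rfl⟩ := key ξ (Or.inr ⟨α, by rw [h1]; simp⟩) (Or.inr ⟨α, by rw [h2]; simp⟩)
      rw [he n, h2] at h1
      exact (Option.some.inj h1).symm
  · intro α
    by_contra h
    exact hηM (hsM (Or.inr ⟨α, h⟩))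

end Pool.Agent.RFN.GX.KUR
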