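import Pool.Agent.KUR.SReq

set_option autoImplicit false

/-! # Dictionary

PROOFS (model: `Pool/Agent/RFN/SDict.lean`). Injectivity: `check_inj`, `nO_inj` etc. (`ck_inj` for
`eK`). `mem_W`, `mem_K`, `mem_R`, ...: `mem_rel`, `opair_eq` (components of a pair of names),
`opair_el` and injectivity; the condition `⊤` is in `g` (`top_g`). `mem_eO`: `mem_val_ord` (for
`β < α.ord` there is `i : Om` with `i.ord = β`: `H68.KT.exists_ord`, `H68.KT.ord_lt`;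
`H68.KT.ord_lt_ord`). `mem_eR`: the value of `nR ρ = checkN (rZ ρ)` is `rZ ρ` when all `natZ n` are in
(`mem_val`, `mem_ch_checkN`: the elements are the values of the `checkN (natZ n)`, `natZ n ∈ rZ ρ`).
`mem_two`: `two = succ (succ emp)`, `emp = eN 0` (`emp_eN`), `mem_succ`. `mem_node` etc.: `opair_el`
and `mem_el`. -/

namespace Pool.Agent.RFN.GX.KUR

open Pool.Agent.ChoicelessEmb LName

open Pool.Agent.H78.ZF (ZFM opair omega succ)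

variable {X : Set Nm} {g : Set Cn} [hs : SB X g]

private theorem eOx {α β : Om} (hα : nO α ∈ X) (hβ : nO β ∈ X)
    (h : el X g (nO α) hα = el X g (nO β) hβ) : α = β :=
  nO_inj (congrArg checkN (check_inj hα hβ h))

private theorem eKx' {ξ η : Kx} (hξ : nK ξ ∈ X) (hη : nK η ∈ X)
    (h : el X g (nK ξ) hξ = el X g (nK η) hη) : ξ = η :=
  ck_inj hξ hη h

private theorem eNx {m n : ℕ} (hm : (nN m : Nm) ∈ X) (hn : (nN n : Nm) ∈ X)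
    (h : el X g (nN m) hm = el X g (nN n) hn) : m = n :=
  natZ_injective (check_inj hm hn h)

private theorem eRx {ρ σ : Rl} (hρ : nR ρ ∈ X) (hσ : nR σ ∈ X)
    (h : el X g (nR ρ) hρ = el X g (nR σ) hσ) : ρ = σ :=
  nR_inj (congrArg checkN (check_inj hρ hσ h))

theorem eO_inj : Function.Injective (eO X g) :=
  fun x y h => Subtype.ext (eOx x.2 y.2 h)

theorem eK_inj : Function.Injective (eK X g) :=
  fun x y h => Subtype.ext (eKx' x.2 y.2 h)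

theorem eI_inj : Function.Injective (eI X g) := by
  intro i j h
  have h1 : (if i then 1 else 0) = (if j then 1 else 0) := eN_inj h
  cases i <;> cases j <;> simp at h1 ⊢

theorem mem_eO {α : {α : Om // nO α ∈ X}} {a : Mod X g} :
    a ∈ eO X g α ↔ ∃ β : {α : Om // nO α ∈ X}, β.1 < α.1 ∧ a = eO X g β := by
  have h1 : a ∈ eO X g α ↔ a.1 ∈ val X g (checkN (α.1.ord).toZFSet) := Iff.rfl
  rw [h1, mem_val_ord (top_g (X := X))]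
  constructor
  · rintro ⟨β, hβ, hX, e⟩
    obtain ⟨i, rfl⟩ := H68.KT.exists_ord (hβ.trans (H68.KT.ord_lt α.1))
    exact ⟨⟨i, hX⟩, H68.KT.ord_lt_ord.1 hβ, Subtype.ext e⟩
  · rintro ⟨β, hβ, rfl⟩
    exact ⟨β.1.ord, H68.KT.ord_lt_ord.2 hβ, β.2, rfl⟩

theorem eO_mem {α β : {α : Om // nO α ∈ X}} : eO X g β ∈ eO X g α ↔ β.1 < α.1 := by
  rw [mem_eO]
  constructor
  · rintro ⟨γ, hγ, e⟩
    rw [eO_inj e]
    exact hγ
  · intro h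
    exact ⟨β, h, rfl⟩

theorem mem_two {a : Mod X g} : a ∈ (two : Mod X g) ↔ ∃ i, a = eI X g i := by
  unfold two
  rw [emp_eN, succ_eN, Pool.Agent.H78.ZF.mem_succ]
  have h1 : ∀ b : Mod X g, b ∈ eN X g (0 + 1) ↔ b = eN X g 0 := by
    intro b
    rw [← succ_eN, Pool.Agent.H78.ZF.mem_succ, ← emp_eN]
    constructor
    · rintro (h | h)
      · exact absurd h (Pool.Agent.H78.ZF.not_mem_emp b)
      · exact h
    · exact Or.inr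
  rw [h1]
  constructor
  · rintro (h | h)
    · exact ⟨false, h⟩
    · exact ⟨true, h⟩
  · rintro ⟨i, rfl⟩
    cases i
    · exact Or.inl rfl
    · exact Or.inr rfl

theorem mem_eR {ρ : {ρ : Rl // nR ρ ∈ X}} {a : Mod X g} :
    a ∈ eR X g ρ ↔ ∃ n, ρ.1 n = true ∧ a = eN X g n := by
  have h1 : a ∈ eR X g ρ ↔ a.1 ∈ val X g (checkN (rZ ρ.1)) := Iff.rfl
  rw [h1, mem_val]
  constructor
  · rintro ⟨u, c, hu, hX, hc, e⟩
    obtain ⟨y, hy, rfl, rfl⟩ := mem_ch_checkN.1 hu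
    unfold rZ at hy
    rw [ZFSet.mem_sep] at hy
    obtain ⟨-, n, rfl, hn⟩ := hy
    exact ⟨n, hn, Subtype.ext e⟩
  · rintro ⟨n, hn, rfl⟩
    exact ⟨nN n, ⊤, mem_ch_checkN.2 ⟨natZ n, mem_rZ.2 hn, rfl, rfl⟩, hs.st.nat n,
      top_g (X := X), rfl⟩

private theorem node_el (α : {α : Om // nO α ∈ X}) (n : ℕ) :
    opair (eO X g α) (eN X g n) =
      el X g (nT (α.1, n)) (hs.st.opair _ α.2 _ (hs.st.nat n)) :=
  opair_el α.2 (hs.st.nat n)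

private theorem val_el (γ : {α : Om // nO α ∈ X}) (i : Bool) :
    opair (eO X g γ) (eI X g i) =
      el X g (nV (γ.1, i)) (hs.st.opair _ γ.2 _ (hs.st.nat _)) :=
  opair_el γ.2 (hs.st.nat _)

private theorem nm2_el {T T' : Type} {a : T → Nm} {b : T' → Nm} {t : T × T'}
    (ht : nm2 a b t ∈ X) : el X g (nm2 a b t) ht =
      opair (el X g (a t.1) (hs.st.proj (a t.1) (b t.2) ht).1)
        (el X g (b t.2) (hs.st.proj (a t.1) (b t.2) ht).2) :=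
  (opair_el (hs.st.proj (a t.1) (b t.2) ht).1 (hs.st.proj (a t.1) (b t.2) ht).2).symm

private theorem opair_eq' {T T' : Type} {a : T → Nm} {b : T' → Nm} {t : T × T'}
    (ht : nm2 a b t ∈ X) {u v : Mod X g} (e : opair u v = el X g (nm2 a b t) ht) :
    u = el X g (a t.1) (hs.st.proj (a t.1) (b t.2) ht).1 ∧
      v = el X g (b t.2) (hs.st.proj (a t.1) (b t.2) ht).2 :=
  Pool.Agent.H78.ZF.opair_inj (e.trans (nm2_el ht))

variable {g0 : Set Cn} (h : StK X g0)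

theorem mem_W {a : Mod X g} : a ∈ sW (g := g) h ↔ ∃ α, a = eO X g α := by
  refine (mem_rel h.nmW).trans ⟨?_, ?_⟩
  · rintro ⟨t, ht, _, e⟩
    exact ⟨⟨t, ht⟩, e⟩
  · rintro ⟨x, e⟩
    exact ⟨x.1, x.2, ⟨⊤, top_g (X := X), trivial⟩, e⟩

theorem mem_K {a : Mod X g} : a ∈ sK (g := g) h ↔ ∃ ξ, a = eK X g ξ := by
  refine (mem_rel h.nmK).trans ⟨?_, ?_⟩
  · rintro ⟨t, ht, _, e⟩
    exact ⟨⟨t, ht⟩, e⟩
  · rintro ⟨x, e⟩
    exact ⟨x.1, x.2, ⟨⊤, top_g (X := X), trivial⟩, e⟩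

theorem mem_R {β α : {α : Om // nO α ∈ X}} {m n : ℕ} :
    opair (opair (eO X g β) (eN X g m)) (opair (eO X g α) (eN X g n)) ∈ sR (g := g) h ↔
      β.1 < α.1 ∧ ∃ p ∈ g, α.1 < p.d ∧ p.pi β.1 α.1 n = m := by
  refine (mem_rel h.nmR).trans ⟨?_, ?_⟩
  · rintro ⟨t, ht, ⟨p, hp, h1, h2, h3⟩, e⟩
    obtain ⟨e1, e2⟩ := opair_eq' ht e
    obtain ⟨e3, e4⟩ := opair_eq' _ e1
    obtain ⟨e5, e6⟩ := opair_eq' _ e2
    have h4 := eOx _ _ e3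
    have h5 := eNx _ _ e4
    have h6 := eOx _ _ e5
    have h7 := eNx _ _ e6
    rw [h4, h5, h6, h7]
    exact ⟨h1, p, hp, h2, h3⟩
  · rintro ⟨h1, p, hp, h2, h3⟩
    refine ⟨((β.1, m), (α.1, n)), hs.st.opair _ (hs.st.opair _ β.2 _ (hs.st.nat m)) _
      (hs.st.opair _ α.2 _ (hs.st.nat n)), ⟨p, hp, h1, h2, h3⟩, ?_⟩
    rw [node_el, node_el]
    exact opair_el _ _

theorem mem_R' {z : Mod X g} (hz : z ∈ sR (g := g) h) : ∃ β α m n,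
    z = opair (opair (eO X g β) (eN X g m)) (opair (eO X g α) (eN X g n)) := by
  obtain ⟨t, ht, _, rfl⟩ := (mem_rel h.nmR).1 hz
  have ht1 : nm2 nO nN t.1 ∈ X := (hs.st.proj (nT t.1) (nT t.2) ht).1
  have ht2 : nm2 nO nN t.2 ∈ X := (hs.st.proj (nT t.1) (nT t.2) ht).2
  refine ⟨⟨t.1.1, (hs.st.proj _ _ ht1).1⟩, ⟨t.2.1, (hs.st.proj _ _ ht2).1⟩, t.1.2, t.2.2, ?_⟩
  refine (nm2_el ht).trans ?_
  exact congrArg₂ opair (nm2_el ht1) (nm2_el ht2)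

theorem mem_B {ξ : {ξ : Kx // nK ξ ∈ X}} {α : {α : Om // nO α ∈ X}} {n : ℕ} :
    opair (eK X g ξ) (opair (eO X g α) (eN X g n)) ∈ sB (g := g) h ↔
      ∃ p ∈ g, ξ.1 ∈ p.A ∧ α.1 < p.d ∧ p.b ξ.1 α.1 = n := by
  refine (mem_rel h.nmB).trans ⟨?_, ?_⟩
  · rintro ⟨t, ht, ⟨p, hp, h1, h2, h3⟩, e⟩
    obtain ⟨e1, e2⟩ := opair_eq' ht e
    obtain ⟨e3, e4⟩ := opair_eq' _ e2
    have h4 := eKx' _ _ e1
    have h5 := eOx _ _ e3
    have h6 := eNx _ _ e4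
    rw [h4, h5, h6]
    exact ⟨p, hp, h1, h2, h3⟩
  · rintro ⟨p, hp, h1, h2, h3⟩
    refine ⟨(ξ.1, (α.1, n)), hs.st.opair _ ξ.2 _ (hs.st.opair _ α.2 _ (hs.st.nat n)),
      ⟨p, hp, h1, h2, h3⟩, ?_⟩
    rw [node_el]
    exact opair_el _ _

theorem mem_B' {z : Mod X g} (hz : z ∈ sB (g := g) h) : ∃ ξ α n,
    z = opair (eK X g ξ) (opair (eO X g α) (eN X g n)) := by
  obtain ⟨t, ht, _, rfl⟩ := (mem_rel h.nmB).1 hz
  have ht2 : nm2 nO nN t.2 ∈ X := (hs.st.proj (nK t.1) (nT t.2) ht).2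
  refine ⟨⟨t.1, (hs.st.proj (nK t.1) (nT t.2) ht).1⟩, ⟨t.2.1, (hs.st.proj _ _ ht2).1⟩, t.2.2, ?_⟩
  refine (nm2_el ht).trans ?_
  exact congrArg₂ opair rfl (nm2_el ht2)

theorem mem_E {α : {α : Om // nO α ∈ X}} {ρ : {ρ : Rl // nR ρ ∈ X}} :
    opair (eO X g α) (eR X g ρ) ∈ sE (g := g) h ↔ ∃ p ∈ g, p.e k0 α.1 = some ρ.1 := by
  refine (mem_rel h.nmE).trans ⟨?_, ?_⟩
  · rintro ⟨t, ht, ⟨p, hp, h1⟩, e⟩
    obtain ⟨e1, e2⟩ := opair_eq' ht e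
    rw [eOx _ _ e1, eRx _ _ e2]
    exact ⟨p, hp, h1⟩
  · rintro ⟨p, hp, h1⟩
    exact ⟨(α.1, ρ.1), hs.st.opair _ α.2 _ ρ.2, ⟨p, hp, h1⟩, opair_el _ _⟩

theorem mem_E' {z : Mod X g} (hz : z ∈ sE (g := g) h) : ∃ α ρ,
    z = opair (eO X g α) (eR X g ρ) := by
  obtain ⟨t, ht, _, rfl⟩ := (mem_rel h.nmE).1 hz
  exact ⟨⟨t.1, (hs.st.proj (nO t.1) (nR t.2) ht).1⟩, ⟨t.2, (hs.st.proj (nO t.1) (nR t.2) ht).2⟩,
    nm2_el ht⟩

theorem mem_X {ζ : Kx} (hζ : nK ζ ∈ X) {γ : {α : Om // nO α ∈ X}} {i : Bool} :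
    opair (eO X g γ) (eI X g i) ∈ sX (g := g) h ζ hζ ↔ ∃ p ∈ g, XV ζ γ.1 i p := by
  refine (mem_rel (h.nmX ζ hζ)).trans ⟨?_, ?_⟩
  · rintro ⟨t, ht, ⟨p, hp, h1⟩, e⟩
    obtain ⟨e1, e2⟩ := opair_eq' ht e
    have h2 : i = t.2 := by
      have h3 := eNx (hs.st.nat _) (hs.st.nat _) e2
      generalize t.2 = j at h3
      cases i <;> cases j <;> simp at h3 ⊢
    rw [eOx _ _ e1, h2]
    exact ⟨p, hp, h1⟩
  · rintro ⟨p, hp, h1⟩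
    exact ⟨(γ.1, i), hs.st.opair _ γ.2 _ (hs.st.nat _), ⟨p, hp, h1⟩, val_el γ i⟩

theorem mem_X' {ζ : Kx} (hζ : nK ζ ∈ X) {z : Mod X g} (hz : z ∈ sX (g := g) h ζ hζ) :
    ∃ γ i, z = opair (eO X g γ) (eI X g i) := by
  obtain ⟨t, ht, _, rfl⟩ := (mem_rel (h.nmX ζ hζ)).1 hz
  exact ⟨⟨t.1, (hs.st.proj (nO t.1) (nI t.2) ht).1⟩, t.2, nm2_el ht⟩

theorem mem_C {α β : {α : Om // nO α ∈ X}} {n : ℕ} :
    opair (eO X g β) (eN X g n) ∈ el X g (nmC α.1) (h.nmC α.1 α.2) ↔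
      β.1 < α.1 ∧ cin α.1 β.1 = n := by
  refine (mem_rel (h.nmC α.1 α.2)).trans ⟨?_, ?_⟩
  · rintro ⟨t, ht, ⟨p, hp, h1, h2⟩, e⟩
    obtain ⟨e1, e2⟩ := opair_eq' ht e
    rw [eOx _ _ e1, eNx _ _ e2]
    exact ⟨h1, h2⟩
  · rintro ⟨h1, h2⟩
    exact ⟨(β.1, n), hs.st.opair _ β.2 _ (hs.st.nat _), ⟨⊤, top_g (X := X), h1, h2⟩,
      opair_el _ _⟩

theorem mem_C' {α : {α : Om // nO α ∈ X}} {z : Mod X g}
    (hz : z ∈ el X g (nmC α.1) (h.nmC α.1 α.2)) :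
    ∃ β : {α : Om // nO α ∈ X}, ∃ n, β.1 < α.1 ∧ z = opair (eO X g β) (eN X g n) := by
  obtain ⟨t, ht, ⟨_, _, h1, _⟩, rfl⟩ := (mem_rel (h.nmC α.1 α.2)).1 hz
  exact ⟨⟨t.1, (hs.st.proj (nO t.1) (nN t.2) ht).1⟩, t.2, h1, nm2_el ht⟩

omit h in
theorem mem_nat {a : Nm} (ha : a ∈ X) {n : ℕ} :
    eN X g n ∈ el X g a ha ↔ ∃ p ∈ g, fmem (nN n) a p :=
  mem_el (hs.st.nat n) ha

theorem mem_node {a : Nm} (ha : a ∈ X) {α : {α : Om // nO α ∈ X}} {n : ℕ} :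
    opair (eO X g α) (eN X g n) ∈ el X g a ha ↔ ∃ p ∈ g, fmem (nT (α.1, n)) a p := by
  rw [node_el]
  exact mem_el _ ha

theorem mem_KW {a : Nm} (ha : a ∈ X) {ξ : {ξ : Kx // nK ξ ∈ X}} {α : {α : Om // nO α ∈ X}} :
    opair (eK X g ξ) (eO X g α) ∈ el X g a ha ↔ ∃ p ∈ g, fmem (nm2 nK nO (ξ.1, α.1)) a p := by
  have h1 : opair (eK X g ξ) (eO X g α) =
      el X g (nm2 nK nO (ξ.1, α.1)) (hs.st.opair _ ξ.2 _ α.2) := opair_el ξ.2 α.2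
  rw [h1]
  exact mem_el _ ha

theorem mem_TT {a : Nm} (ha : a ∈ X) {β α : {α : Om // nO α ∈ X}} {m n : ℕ} :
    opair (opair (eO X g β) (eN X g m)) (opair (eO X g α) (eN X g n)) ∈ el X g a ha ↔
      ∃ p ∈ g, fmem (nm2 nT nT ((β.1, m), (α.1, n))) a p := by
  have h1 : nT (β.1, m) ∈ X := hs.st.opair _ β.2 _ (hs.st.nat m)
  have h2 : nT (α.1, n) ∈ X := hs.st.opair _ α.2 _ (hs.st.nat n)
  have h3 : opair (opair (eO X g β) (eN X g m)) (opair (eO X g α) (eN X g n)) =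
      el X g (nm2 nT nT ((β.1, m), (α.1, n))) (hs.st.opair _ h1 _ h2) := by
    rw [node_el, node_el]
    exact opair_el h1 h2
  rw [h3]
  exact mem_el _ ha

theorem mem_TV {a : Nm} (ha : a ∈ X) {α γ : {α : Om // nO α ∈ X}} {n : ℕ} {i : Bool} :
    opair (opair (eO X g α) (eN X g n)) (opair (eO X g γ) (eI X g i)) ∈ el X g a ha ↔
      ∃ p ∈ g, fmem (nm2 nT nV ((α.1, n), (γ.1, i))) a p := by
  have h1 : nT (α.1, n) ∈ X := hs.st.opair _ α.2 _ (hs.st.nat n)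
  have h2 : nV (γ.1, i) ∈ X := hs.st.opair _ γ.2 _ (hs.st.nat _)
  have h3 : opair (opair (eO X g α) (eN X g n)) (opair (eO X g γ) (eI X g i)) =
      el X g (nm2 nT nV ((α.1, n), (γ.1, i))) (hs.st.opair _ h1 _ h2) := by
    rw [node_el, val_el]
    exact opair_el h1 h2
  rw [h3]
  exact mem_el _ ha

end Pool.Agent.RFN.GX.KUR
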