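import Pool.Agent.KUR.Cond

set_option autoImplicit false

/-! # Density arguments

PROOFS.
* `ext_lev`: let `D = max p.d D'`. Choose `ν : ℕ → Kx` with range `p.A` (countable and nonempty: it
  contains `k0`) and for `ξ ∈ p.A` an index `i ξ` with `ν (i ξ) = ξ`. The condition `q`: `q.d = D`,
  `q.A = p.A`, `q.e = p.e`, `q.pi β α n = p.pi β α n` if `α < p.d`; for `p.d ≤ α`:
  `q.pi β α n = p.b (ν n) β` if `β < p.d` and `q.pi β α n = n` if `p.d ≤ β`; `q.b ξ α = p.b ξ α` if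
  `α < p.d` and `q.b ξ α = i ξ` if `p.d ≤ α`. Coherence for `γ < β < α < D`: if `α < p.d` by `p.coh`; if
  `β < p.d ≤ α`: `pi γ β (p.b (ν n) β) = p.b (ν n) γ` by `p.br`; if `p.d ≤ β` and `γ < p.d`:
  `q.pi γ β n = p.b (ν n) γ = q.pi γ α n`; if `p.d ≤ γ` all are `n`. `br` is similar.
* `ext_d`: `ext_lev` with `D' > α` (`H68.KT.exists_gt'`). `ext_ne`: `ext_lev` with `D' > p.d` and
  `α = p.d`.
* `ext_A`: if `ξ ∉ p.A` take `A = insert ξ p.A` and `b ξ = p.b k0`.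
* `ext_real`: choose `α` with `p.e ξ α = none` (the support is countable and `Om` is not,
  `H68.KT.not_countable_univ`) and put `e ξ α = some ρ`. `ext_e`: if `p.e ξ α = none`, put
  `e ξ α = some (fun _ => false)`. -/

namespace Pool.Agent.RFN.GX.KUR

open Classical in
/-- A condition can be extended to any higher level such that the branches are separated on all
the new levels. -/
theorem ext_lev (p : Cn) (D' : Om) : ∃ q ≤ p, D' ≤ q.d ∧ q.A = p.A ∧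
    ∀ α, p.d ≤ α → α < q.d → ∀ ξ ∈ p.A, ∀ η ∈ p.A, q.b ξ α = q.b η α → ξ = η := by
  obtain ⟨ν, hν⟩ := p.hA.exists_eq_range ⟨k0, p.h0⟩
  have hν1 : ∀ n, ν n ∈ p.A := fun n => by rw [hν]; exact ⟨n, rfl⟩
  have hν2 : ∀ ξ : Kx, ∃ n : ℕ, ξ ∈ p.A → ν n = ξ := by
    intro ξ
    by_cases h : ξ ∈ p.A
    · rw [hν] at h
      obtain ⟨n, hn⟩ := h
      exact ⟨n, fun _ => hn⟩
    · exact ⟨0, fun h' => absurd h' h⟩
  choose i hi using hν2
  let qpi : Om → Om → ℕ → ℕ := fun β α n =>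
    if α < p.d then p.pi β α n else if β < p.d then p.b (ν n) β else n
  let qb : Kx → Om → ℕ := fun ξ α => if α < p.d then p.b ξ α else i ξ
  have pi1 : ∀ β α n, α < p.d → qpi β α n = p.pi β α n := fun β α n h => if_pos h
  have pi2 : ∀ β α n, ¬ α < p.d → β < p.d → qpi β α n = p.b (ν n) β := fun β α n h h' => by
    show (if α < p.d then p.pi β α n else if β < p.d then p.b (ν n) β else n) = _
    rw [if_neg h, if_pos h']
  have pi3 : ∀ β α n, ¬ α < p.d → ¬ β < p.d → qpi β α n = n := fun β α n h h' => by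
    show (if α < p.d then p.pi β α n else if β < p.d then p.b (ν n) β else n) = _
    rw [if_neg h, if_neg h']
  have b1 : ∀ ξ α, α < p.d → qb ξ α = p.b ξ α := fun ξ α h => if_pos h
  have b2 : ∀ ξ α, ¬ α < p.d → qb ξ α = i ξ := fun ξ α h => if_neg h
  refine ⟨⟨max p.d D', qpi, p.A, qb, p.e, p.hA, p.he, p.h0, ?_, ?_⟩, ?_, le_max_right _ _, rfl, ?_⟩
  · intro γ β α hγ hβ hα n
    by_cases ha : α < p.d
    · rw [pi1 β α n ha, pi1 γ α n ha, pi1 γ β _ (hβ.trans ha)]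
      exact p.coh γ β α hγ hβ ha n
    · by_cases hb : β < p.d
      · rw [pi2 β α n ha hb, pi1 γ β _ hb, pi2 γ α n ha (hγ.trans hb)]
        exact p.br (ν n) (hν1 n) γ β hγ hb
      · rw [pi3 β α n ha hb]
        by_cases hc : γ < p.d
        · rw [pi2 γ β n hb hc, pi2 γ α n ha hc]
        · rw [pi3 γ β n hb hc, pi3 γ α n ha hc]
  · intro ξ hξ β α hβ hα
    by_cases ha : α < p.d
    · rw [b1 ξ α ha, b1 ξ β (hβ.trans ha), pi1 β α _ ha]
      exact p.br ξ hξ β α hβ ha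
    · rw [b2 ξ α ha]
      by_cases hb : β < p.d
      · rw [pi2 β α _ ha hb, b1 ξ β hb, hi ξ hξ]
      · rw [pi3 β α _ ha hb, b2 ξ β hb]
  · exact ⟨le_max_left _ _, fun β α n _ h => pi1 β α n h, subset_rfl, fun ξ _ α h => b1 ξ α h,
      fun _ _ _ h => h⟩
  · intro α hα _ ξ hξ η hη h
    have h' : qb ξ α = qb η α := h
    rw [b2 ξ α (not_lt.2 hα), b2 η α (not_lt.2 hα)] at h'
    rw [← hi ξ hξ, ← hi η hη, h']

theorem ext_d (p : Cn) (α : Om) : ∃ q ≤ p, α < q.d := by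
  obtain ⟨D', hD⟩ := H68.KT.exists_gt' α
  obtain ⟨q, hq, h1, -, -⟩ := ext_lev p D'
  exact ⟨q, hq, hD.trans_le h1⟩

open Classical in
theorem ext_A (p : Cn) (ξ : Kx) : ∃ q ≤ p, ξ ∈ q.A := by
  by_cases h : ξ ∈ p.A
  · exact ⟨p, le_refl p, h⟩
  · let qb : Kx → Om → ℕ := fun η α => if η = ξ then p.b k0 α else p.b η α
    have b1 : ∀ α, qb ξ α = p.b k0 α := fun α => if_pos rfl
    have b2 : ∀ η α, η ≠ ξ → qb η α = p.b η α := fun η α h => if_neg h
    refine ⟨⟨p.d, p.pi, insert ξ p.A, qb, p.e, p.hA.insert ξ, p.he, Set.mem_insert_of_mem _ p.h0,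
      p.coh, ?_⟩, ?_, Set.mem_insert ξ p.A⟩
    · intro η hη β α hβ hα
      by_cases he : η = ξ
      · subst he
        rw [b1, b1]
        exact p.br k0 p.h0 β α hβ hα
      · rw [b2 η α he, b2 η β he]
        exact p.br η (Set.mem_of_mem_insert_of_ne hη he) β α hβ hα
    · refine ⟨le_rfl, fun _ _ _ _ _ => rfl, Set.subset_insert _ _, fun η hη α _ => b2 η α ?_,
        fun _ _ _ h => h⟩
      rintro rfl
      exact h hη

theorem ext_ne (p : Cn) {ξ η : Kx} (hne : ξ ≠ η) :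
    ∃ q ≤ p, ξ ∈ q.A ∧ η ∈ q.A ∧ ∃ α < q.d, q.b ξ α ≠ q.b η α := by
  obtain ⟨p1, h1, hξ⟩ := ext_A p ξ
  obtain ⟨p2, h2, hη⟩ := ext_A p1 η
  have hξ2 : ξ ∈ p2.A := (le_def.1 h2).A hξ
  obtain ⟨D', hD⟩ := H68.KT.exists_gt' p2.d
  obtain ⟨q, hq, h3, hA, hs⟩ := ext_lev p2 D'
  refine ⟨q, hq.trans (h2.trans h1), hA ▸ hξ2, hA ▸ hη, p2.d, hD.trans_le h3, fun h => hne ?_⟩
  exact hs p2.d le_rfl (hD.trans_le h3) ξ hξ2 η hη h

open Classical in
theorem ext_set (p : Cn) (ξ : Kx) (α : Om) (ρ : Rl) (h : p.e ξ α = none) :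
    ∃ q ≤ p, q.e ξ α = some ρ := by
  let qe : Kx → Om → Option Rl := fun η β => if η = ξ ∧ β = α then some ρ else p.e η β
  have e1 : qe ξ α = some ρ := if_pos ⟨rfl, rfl⟩
  have e2 : ∀ η β, ¬ (η = ξ ∧ β = α) → qe η β = p.e η β := fun η β h => if_neg h
  refine ⟨⟨p.d, p.pi, p.A, p.b, qe, p.hA, ?_, p.h0, p.coh, p.br⟩, ?_, e1⟩
  · refine (p.he.insert (ξ, α)).mono ?_
    rintro ⟨η, β⟩ hz
    by_cases hc : η = ξ ∧ β = α
    · left
      rw [hc.1, hc.2]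
    · right
      have hz' : qe η β ≠ none := hz
      rw [e2 η β hc] at hz'
      exact hz'
  · refine ⟨le_rfl, fun _ _ _ _ _ => rfl, subset_rfl, fun _ _ _ _ => rfl, fun η β σ hσ => ?_⟩
    show qe η β = some σ
    rw [e2 η β]
    · exact hσ
    · rintro ⟨rfl, rfl⟩
      rw [h] at hσ
      cases hσ

theorem ext_real (p : Cn) (ξ : Kx) (ρ : Rl) : ∃ q ≤ p, ∃ α, q.e ξ α = some ρ := by
  have hex : ∃ α, p.e ξ α = none := by
    by_contra hc
    push Not at hc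
    apply H68.KT.not_countable_univ
    have h1 : (Set.univ : Set Om) =
        (fun α : Om => ((ξ, α) : Kx × Om)) ⁻¹' {z : Kx × Om | p.e z.1 z.2 ≠ none} := by
      ext α
      simp only [Set.mem_univ, true_iff]
      exact hc α
    rw [h1]
    exact p.he.preimage (fun a b hab => (Prod.mk.inj hab).2)
  obtain ⟨α, hα⟩ := hex
  obtain ⟨q, hq, h⟩ := ext_set p ξ α ρ hα
  exact ⟨q, hq, α, h⟩

theorem ext_e (p : Cn) (ξ : Kx) (α : Om) : ∃ q ≤ p, ∃ ρ, q.e ξ α = some ρ := by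
  rcases h : p.e ξ α with _ | ρ
  · obtain ⟨q, hq, h'⟩ := ext_set p ξ α (fun _ => false) h
    exact ⟨q, hq, _, h'⟩
  · exact ⟨p, le_refl p, ρ, h⟩

end Pool.Agent.RFN.GX.KUR
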