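import Pool.Agent.KUR.Defs

set_option autoImplicit false

/-! # A Kurepa tree from its data, inside a model

PROOF of `kurepa_of`. `T = prod w omega`, `h = mkf T w (fun z => iota (fun α => ∃ n, z = opair α n))` (or
`sep (prod T w) (fun z => ∃ α n, z = opair (opair α n) α)`); `ap h (opair α n) = α`. For nodes write
`(β, m) < (α, n)`.
* `lin` (predecessors of `(α, n)` are comparable): let `(β, m), (γ, k) < (α, n)`; `β ∈ γ`, `β = γ` or
  `γ ∈ β` (`hw.lin`). If `β ∈ γ` there is `m'` with `(β, m') < (γ, k)` (`R_ex`), so `(β, m') < (α, n)` by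
  `R_tr` and `m' = m` by `R_un`. If `β = γ`, `m = k` by `R_un`.
* `irr`: `(α, n) < (α, n)` gives `α ∈ α` (`not_mem_self`).
* `wf`: for a nonempty set `S` of predecessors let `x` be the set of the heights of its elements
  (`sep w ...`); `foundation x` gives a node of `S` of minimal height; `(s', s) ∈ R` implies
  `h s' ∈ h s`.
* height: `α ∈ h (γ, n) = γ` iff there is a predecessor of `(γ, n)` with height `α`: `R_ex`, `R_sub`.
* levels: the level `α` contains `(α, emp)`, and `(α, n) ↦ n` is an injection into `omega`.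
* branches: let `B` be the set of all cofinal branches and suppose `Inj f B w`. For `ξ ∈ K` let
  `b ξ = sep T (fun z => opair ξ z ∈ Bf)`; it is a cofinal branch: `down`: if `(α, n)` is in `b ξ` and
  `(β, m) < (α, n)`, then `β ∈ α`, there is `m'` with `(β, m') ∈ b ξ`, `(β, m') < (α, n)` by `B_R`, and
  `m' = m`; `lin`: `B_un`, `B_R` and `hw.lin`; `cof`: `B_ex`. `b ξ ≠ b η` for `ξ ≠ η` by `B_ne`. Then
  `{(ξ, ap f (b ξ)) : ξ ∈ K}` is an injection of `K` into `w` (`mkf K w (fun ξ => ap f (b ξ))` and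
  `inj_iff`), contradicting `no_inj`. The instances `F1`, `D1` are found by instance search. -/

universe u

namespace Pool.Agent.RFN.GX.KUR

open Pool.Agent.H78.ZF

variable {N : Type u} [ZFM N]

/-- The data of a Kurepa tree on `w × omega` with branches indexed by `K`. -/
structure KData (w K R Bf : N) : Prop where
  R_sub : ∀ z, z ∈ R → ∃ β m α n, β ∈ α ∧ α ∈ w ∧ m ∈ (omega : N) ∧ n ∈ (omega : N) ∧
    z = opair (opair β m) (opair α n)
  R_ex : ∀ α n β, α ∈ w → n ∈ (omega : N) → β ∈ α →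
    ∃ m, m ∈ (omega : N) ∧ opair (opair β m) (opair α n) ∈ R
  R_un : ∀ α n β m m', opair (opair β m) (opair α n) ∈ R →
    opair (opair β m') (opair α n) ∈ R → m = m'
  R_tr : ∀ γ k β m α n, opair (opair γ k) (opair β m) ∈ R →
    opair (opair β m) (opair α n) ∈ R → opair (opair γ k) (opair α n) ∈ R
  B_ex : ∀ ξ α, ξ ∈ K → α ∈ w → ∃ n, n ∈ (omega : N) ∧ opair ξ (opair α n) ∈ Bf
  B_un : ∀ ξ α n n', opair ξ (opair α n) ∈ Bf → opair ξ (opair α n') ∈ Bf → n = n'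
  B_R : ∀ ξ β m α n, ξ ∈ K → β ∈ α → α ∈ w → opair ξ (opair β m) ∈ Bf →
    opair ξ (opair α n) ∈ Bf → opair (opair β m) (opair α n) ∈ R
  B_ne : ∀ ξ η, ξ ∈ K → η ∈ K → ξ ≠ η →
    ∃ α n, α ∈ w ∧ n ∈ (omega : N) ∧ opair ξ (opair α n) ∈ Bf ∧ opair η (opair α n) ∉ Bf
  no_inj : ¬ ∃ f, Inj f K w

private noncomputable def fs (z : N) : N := iota (fun α => ∃ n, z = opair α n)

private noncomputable def sn (z : N) : N := iota (fun n => ∃ α, z = opair α n)

private theorem fs_eq (α n : N) : fs (opair α n) = α :=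
  iota_eq (P := fun x => ∃ m, opair α n = opair x m) ⟨n, rfl⟩
    (fun _ ⟨_, h⟩ => ((opair_inj h).1).symm)

private theorem sn_eq (α n : N) : sn (opair α n) = n :=
  iota_eq (P := fun x => ∃ m, opair α n = opair m x) ⟨α, rfl⟩
    (fun _ ⟨_, h⟩ => ((opair_inj h).2).symm)

private theorem fs_f1 : F1 (fun z : N => fs z) := by
  unfold fs
  infer_instance

private theorem sn_f1 : F1 (fun z : N => sn z) := by
  unfold sn
  infer_instance

theorem kurepa_of {w K R Bf : N} (hw : IsW1 w) (hd : KData w K R Bf) :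
    ∃ T R h, IsKurepa w T R h := by
  have := fs_f1 (N := N)
  have := sn_f1 (N := N)
  have hT : ∀ α n : N, opair α n ∈ prod w (omega : N) ↔ α ∈ w ∧ n ∈ (omega : N) :=
    fun α n => opair_mem_prod _ _ _ _
  have hfm : ∀ z : N, z ∈ prod w (omega : N) → fs z ∈ w := by
    intro z hz
    obtain ⟨α, hα, n, hn, rfl⟩ := (mem_prod _ _ _).1 hz
    rw [fs_eq]; exact hα
  have hah : ∀ α n : N, α ∈ w → n ∈ (omega : N) →
      ap (mkf (prod w omega) w (fun z => fs z)) (opair α n) = α := by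
    intro α n hα hn
    rw [ap_mkf hfm ((hT _ _).2 ⟨hα, hn⟩), fs_eq]
  refine ⟨prod w omega, R, mkf (prod w omega) w (fun z => fs z), ⟨⟨?_, ?_, ?_, ?_⟩, ?_⟩⟩
  · -- tree
    refine ⟨?_, ?_, ?_, ?_, ?_⟩
    · intro z hz
      obtain ⟨β, m, α, n, hβ, hα, hm, hn, rfl⟩ := hd.R_sub z hz
      rw [opair_mem_prod, hT, hT]
      exact ⟨⟨hw.tr α hα β hβ, hm⟩, hα, hn⟩
    · intro t ht
      obtain ⟨β, m, α, n, hβ, hα, hm, hn, h⟩ := hd.R_sub _ ht
      have h1 := opair_inj h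
      have h2 := opair_inj (h1.1.symm.trans h1.2)
      rw [h2.1] at hβ
      exact not_mem_self _ hβ
    · intro s t u hst htu
      obtain ⟨β, m, α, n, hβ, hα, hm, hn, h⟩ := hd.R_sub _ hst
      obtain ⟨rfl, rfl⟩ := opair_inj h
      obtain ⟨β', m', α', n', hβ', hα', hm', hn', h'⟩ := hd.R_sub _ htu
      obtain ⟨h1, rfl⟩ := opair_inj h'
      exact hd.R_tr _ _ _ _ _ _ hst htu
    · intro s s' t hst hst'
      obtain ⟨β, m, α, n, hβ, hα, hm, hn, h⟩ := hd.R_sub _ hst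
      obtain ⟨rfl, rfl⟩ := opair_inj h
      obtain ⟨γ, k, α', n', hγ, hα', hk, hn', h'⟩ := hd.R_sub _ hst'
      obtain ⟨rfl, h2⟩ := opair_inj h'
      obtain ⟨rfl, rfl⟩ := opair_inj h2
      have hβw := hw.tr _ hα _ hβ
      have hγw := hw.tr _ hα _ hγ
      rcases hw.lin β γ hβw hγw with h3 | h3 | h3
      · left
        obtain ⟨m', hm', h4⟩ := hd.R_ex γ k β hγw hk h3
        have h5 := hd.R_tr _ _ _ _ _ _ h4 hst'
        have h6 := hd.R_un _ _ _ _ _ hst h5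
        rw [h6]; exact h4
      · right; left
        subst h3
        rw [hd.R_un _ _ _ _ _ hst hst']
      · right; right
        obtain ⟨m', hm', h4⟩ := hd.R_ex β m γ hβw hm h3
        have h5 := hd.R_tr _ _ _ _ _ _ h4 hst
        have h6 := hd.R_un _ _ _ _ _ hst' h5
        rw [h6]; exact h4
    · intro t S hS hne
      obtain ⟨s0, hs0⟩ := hne
      have hx : sep w (fun β => ∃ m, opair β m ∈ S) ≠ emp := by
        rw [ne_emp_iff]
        obtain ⟨β, m, α, n, hβ, hα, hm, hn, h⟩ := hd.R_sub _ (hS _ hs0)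
        obtain ⟨rfl, rfl⟩ := opair_inj h
        refine ⟨β, ?_⟩
        rw [mem_sep]
        exact ⟨hw.tr _ hα _ hβ, m, hs0⟩
      obtain ⟨β, hβ, hmin⟩ := foundation _ hx
      rw [mem_sep] at hβ
      obtain ⟨hβw, m, hm⟩ := hβ
      refine ⟨opair β m, hm, ?_⟩
      intro s' hs' hR
      obtain ⟨β', m', α', n', hβ', hα', hm', hn', h⟩ := hd.R_sub _ hR
      obtain ⟨rfl, h2⟩ := opair_inj h
      obtain ⟨rfl, rfl⟩ := opair_inj h2
      apply hmin β' hβ'
      rw [mem_sep]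
      exact ⟨hw.tr _ hα' _ hβ', m', hs'⟩
  · -- height
    refine ⟨mkf_fun hfm, ?_⟩
    intro t α ht
    obtain ⟨γ, hγ, n, hn, rfl⟩ := (mem_prod _ _ _).1 ht
    rw [hah γ n hγ hn]
    constructor
    · intro hα
      obtain ⟨m, hm, h1⟩ := hd.R_ex γ n α hγ hn hα
      exact ⟨opair α m, h1, hah α m (hw.tr _ hγ _ hα) hm⟩
    · rintro ⟨s, hs, rfl⟩
      obtain ⟨β, m, α', n', hβ, hα', hm, hn', h⟩ := hd.R_sub _ hs
      obtain ⟨rfl, h2⟩ := opair_inj h
      obtain ⟨rfl, rfl⟩ := opair_inj h2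
      rw [hah β m (hw.tr _ hα' _ hβ) hm]
      exact hβ
  · -- levels
    intro α hα
    exact ⟨opair α emp, (hT _ _).2 ⟨hα, emp_mem_omega⟩, hah α emp hα emp_mem_omega⟩
  · intro α L hα hL
    have hsm : ∀ z : N, z ∈ L → sn z ∈ (omega : N) := by
      intro z hz
      obtain ⟨γ, hγ, n, hn, rfl⟩ := (mem_prod _ _ _).1 ((hL z).1 hz).1
      rw [sn_eq]; exact hn
    refine ⟨mkf L omega (fun z => sn z), inj_iff.2 ⟨mkf_fun hsm, ?_⟩⟩
    intro x x' hx hx' he
    rw [ap_mkf hsm hx, ap_mkf hsm hx'] at he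
    obtain ⟨h1, h2⟩ := (hL x).1 hx
    obtain ⟨h1', h2'⟩ := (hL x').1 hx'
    obtain ⟨γ, hγ, n, hn, rfl⟩ := (mem_prod _ _ _).1 h1
    obtain ⟨γ', hγ', n', hn', rfl⟩ := (mem_prod _ _ _).1 h1'
    rw [hah γ n hγ hn] at h2
    rw [hah γ' n' hγ' hn'] at h2'
    rw [sn_eq, sn_eq] at he
    rw [h2, h2', he]
  · -- branches
    intro B hB hinj
    obtain ⟨f, hf⟩ := hinj
    have hb : ∀ ξ, ξ ∈ K → sep (prod w (omega : N)) (fun z => opair ξ z ∈ Bf) ∈ B := by
      intro ξ hξ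
      rw [hB]
      refine ⟨?_, ?_, ?_, ?_⟩
      · intro z hz
        rw [mem_sep] at hz
        exact hz.1
      · intro s t ht hst
        rw [mem_sep] at ht ⊢
        obtain ⟨β, m, α, n, hβ, hα, hm, hn, h⟩ := hd.R_sub _ hst
        obtain ⟨rfl, rfl⟩ := opair_inj h
        have hβw := hw.tr _ hα _ hβ
        refine ⟨(hT _ _).2 ⟨hβw, hm⟩, ?_⟩
        obtain ⟨m', hm', h1⟩ := hd.B_ex ξ β hξ hβw
        have h2 := hd.B_R ξ β m' α n hξ hβ hα h1 ht.2
        rw [hd.R_un _ _ _ _ _ hst h2]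
        exact h1
      · intro s t hs ht
        rw [mem_sep] at hs ht
        obtain ⟨hs1, hs2⟩ := hs
        obtain ⟨ht1, ht2⟩ := ht
        obtain ⟨β, hβ, m, hm, rfl⟩ := (mem_prod _ _ _).1 hs1
        obtain ⟨α, hα, n, hn, rfl⟩ := (mem_prod _ _ _).1 ht1
        rcases hw.lin β α hβ hα with h3 | h3 | h3
        · left; exact hd.B_R ξ β m α n hξ h3 hα hs2 ht2
        · right; left
          subst h3
          rw [hd.B_un _ _ _ _ hs2 ht2]
        · right; right; exact hd.B_R ξ α n β m hξ h3 hβ ht2 hs2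
      · intro α hα
        obtain ⟨n, hn, h1⟩ := hd.B_ex ξ α hξ hα
        refine ⟨opair α n, ?_, hah α n hα hn⟩
        rw [mem_sep]
        exact ⟨(hT _ _).2 ⟨hα, hn⟩, h1⟩
    apply hd.no_inj
    have hFm : ∀ ξ, ξ ∈ K →
        (fun ξ => ap f (sep (prod w (omega : N)) (fun z => opair ξ z ∈ Bf))) ξ ∈ w :=
      fun ξ hξ => hf.fun.ap_mem (hb ξ hξ)
    refine ⟨mkf K w (fun ξ => ap f (sep (prod w (omega : N)) (fun z => opair ξ z ∈ Bf))),
      inj_iff.2 ⟨mkf_fun hFm, ?_⟩⟩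
    intro ξ η hξ hη he
    rw [ap_mkf hFm hξ, ap_mkf hFm hη] at he
    have h1 := hf.ap_inj (hb ξ hξ) (hb η hη) he
    by_contra hne
    obtain ⟨α, n, hα, hn, h2, h3⟩ := hd.B_ne ξ η hξ hη hne
    have h4 : opair α n ∈ sep (prod w (omega : N)) (fun z => opair ξ z ∈ Bf) := by
      rw [mem_sep]; exact ⟨(hT _ _).2 ⟨hα, hn⟩, h2⟩
    rw [h1, mem_sep] at h4
    exact h3 h4.2

end Pool.Agent.RFN.GX.KUR
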