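import Pool.Agent.KUR.Dict
import Pool.Agent.KUR.TreeN

set_option autoImplicit false

/-! # The data of the Kurepa tree in the model

PROOF of `kdata_ok`. Two conditions of `g` have a common extension in `g`
(`hs.st.op.atom.fil.dir`), `g0 ⊆ g` is `hs.st.op.atom.sub`. `R_sub`: `mem_R'`, `mem_R`, `eO_mem`,
`mem_W`, `mem_omega_iff`. `R_ex`: for `α = eO α'` (`mem_W`), `n = eN n'`, `β = eO β'` with `β' < α'`
(`mem_eO`): by `h.low` there is `p ∈ g0` with `α' < p.d`; `m = eN (p.pi β' α' n')`. `R_un`: from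
membership in `sR` get by `mem_R'` (`opair_inj`, `eO_inj`, `eN_inj`) the elements of `Om`, `ℕ`, and by
`mem_R` two conditions; common extension and `Cn.Le.pi`. `R_tr`: the same and `Cn.coh`. `B_ex`: `h.mem`,
`h.low` and a common extension. `B_un`: common extension and `Cn.Le.b`. `B_R`: the same and `Cn.br`.
`B_ne`: `h.ne`: `n = eN (p.b ξ α)`; if `(η, (α, n)) ∈ sB` then a common extension gives
`p.b η α = p.b ξ α`. -/

namespace Pool.Agent.RFN.GX.KUR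

open Pool.Agent.ChoicelessEmb LName

open Pool.Agent.H78.ZF (ZFM opair omega Inj)

private theorem dec4 {X : Set Nm} {g : Set Cn} [hs : SB X g] {a b c d a' b' c' d' : Mod X g}
    (e : opair (opair a b) (opair c d) = opair (opair a' b') (opair c' d')) :
    a = a' ∧ b = b' ∧ c = c' ∧ d = d' := by
  obtain ⟨e1, e2⟩ := Pool.Agent.H78.ZF.opair_inj e
  obtain ⟨e3, e4⟩ := Pool.Agent.H78.ZF.opair_inj e1
  obtain ⟨e5, e6⟩ := Pool.Agent.H78.ZF.opair_inj e2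
  exact ⟨e3, e4, e5, e6⟩

private theorem dec3 {X : Set Nm} {g : Set Cn} [hs : SB X g] {a c d a' c' d' : Mod X g}
    (e : opair a (opair c d) = opair a' (opair c' d')) :
    a = a' ∧ c = c' ∧ d = d' := by
  obtain ⟨e1, e2⟩ := Pool.Agent.H78.ZF.opair_inj e
  obtain ⟨e5, e6⟩ := Pool.Agent.H78.ZF.opair_inj e2
  exact ⟨e1, e5, e6⟩

theorem kdata_ok {X : Set Nm} {g : Set Cn} [hs : SB X g] (h : StK X hs.g0)
    (hI : ¬ ∃ f, Inj f (sK (g := g) h) (sW (g := g) h)) :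
    KData (sW (g := g) h) (sK (g := g) h) (sR (g := g) h) (sB (g := g) h) := by
  have dir : ∀ {p q : Cn}, p ∈ g → q ∈ g → ∃ r ∈ g, r ≤ p ∧ r ≤ q := fun hp hq =>
    hs.st.op.atom.fil.dir _ _ hp hq
  have sub : ∀ {p : Cn}, p ∈ hs.g0 → p ∈ g := fun hp => hs.st.op.atom.sub hp
  refine ⟨?_, ?_, ?_, ?_, ?_, ?_, ?_, ?_, hI⟩
  · -- R_sub
    intro z hz
    obtain ⟨β, α, m, n, rfl⟩ := mem_R' h hz
    obtain ⟨hβ, _⟩ := (mem_R h).1 hz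
    exact ⟨_, _, _, _, eO_mem.2 hβ, (mem_W h).2 ⟨_, rfl⟩, mem_omega_iff.2 ⟨_, rfl⟩,
      mem_omega_iff.2 ⟨_, rfl⟩, rfl⟩
  · -- R_ex
    intro a n b ha hn hb
    obtain ⟨α, rfl⟩ := (mem_W h).1 ha
    obtain ⟨n, rfl⟩ := mem_omega_iff.1 hn
    obtain ⟨β, hβ, rfl⟩ := mem_eO.1 hb
    obtain ⟨p, hp, hd⟩ := h.low α.1 α.2
    exact ⟨eN X g (p.pi β.1 α.1 n), mem_omega_iff.2 ⟨_, rfl⟩,
      (mem_R h).2 ⟨hβ, p, sub hp, hd, rfl⟩⟩
  · -- R_un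
    intro a n b m m' h1 h2
    obtain ⟨β, α, k, l, e⟩ := mem_R' h h1
    obtain ⟨rfl, rfl, rfl, rfl⟩ := dec4 e
    obtain ⟨β', α', k', l', e'⟩ := mem_R' h h2
    obtain ⟨e1, rfl, e3, e4⟩ := dec4 e'
    obtain rfl := eO_inj e1
    obtain rfl := eO_inj e3
    obtain rfl := eN_inj e4
    obtain ⟨hlt, p, hp, hpd, hpk⟩ := (mem_R h).1 h1
    obtain ⟨_, p', hp', hpd', hpk'⟩ := (mem_R h).1 h2
    obtain ⟨r, hr, hr1, hr2⟩ := dir hp hp'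
    have f1 := (le_def.1 hr1).pi β.1 α.1 l hlt hpd
    have f2 := (le_def.1 hr2).pi β.1 α.1 l hlt hpd'
    rw [← hpk, ← hpk', ← f1, ← f2]
  · -- R_tr
    intro c k b m a n h1 h2
    obtain ⟨γ, β, k, m, e⟩ := mem_R' h h1
    obtain ⟨rfl, rfl, rfl, rfl⟩ := dec4 e
    obtain ⟨β', α, m', n, e'⟩ := mem_R' h h2
    obtain ⟨e1, e2, rfl, rfl⟩ := dec4 e'
    obtain rfl := eO_inj e1
    obtain rfl := eN_inj e2
    obtain ⟨hlt, p, hp, hpd, hpk⟩ := (mem_R h).1 h1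
    obtain ⟨hlt', p', hp', hpd', hpk'⟩ := (mem_R h).1 h2
    obtain ⟨r, hr, hr1, hr2⟩ := dir hp hp'
    have f1 := (le_def.1 hr1).pi γ.1 β.1 m hlt hpd
    have f2 := (le_def.1 hr2).pi β.1 α.1 n hlt' hpd'
    have hd : α.1 < r.d := hpd'.trans_le (le_def.1 hr2).d
    refine (mem_R h).2 ⟨hlt.trans hlt', r, hr, hd, ?_⟩
    rw [← r.coh γ.1 β.1 α.1 hlt hlt' hd n, f2, hpk', f1, hpk]
  · -- B_ex
    intro x a hx ha
    obtain ⟨ξ, rfl⟩ := (mem_K h).1 hx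
    obtain ⟨α, rfl⟩ := (mem_W h).1 ha
    obtain ⟨p, hp, hpA⟩ := h.mem ξ.1 ξ.2
    obtain ⟨p', hp', hpd⟩ := h.low α.1 α.2
    obtain ⟨r, hr, hr1, hr2⟩ := dir (sub hp) (sub hp')
    exact ⟨eN X g (r.b ξ.1 α.1), mem_omega_iff.2 ⟨_, rfl⟩,
      (mem_B h).2 ⟨r, hr, (le_def.1 hr1).A hpA, hpd.trans_le (le_def.1 hr2).d, rfl⟩⟩
  · -- B_un
    intro x a n n' h1 h2
    obtain ⟨ξ, α, k, e⟩ := mem_B' h h1
    obtain ⟨rfl, rfl, rfl⟩ := dec3 e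
    obtain ⟨ξ', α', k', e'⟩ := mem_B' h h2
    obtain ⟨e1, e2, rfl⟩ := dec3 e'
    obtain rfl := eK_inj e1
    obtain rfl := eO_inj e2
    obtain ⟨p, hp, hpA, hpd, hpk⟩ := (mem_B h).1 h1
    obtain ⟨p', hp', hpA', hpd', hpk'⟩ := (mem_B h).1 h2
    obtain ⟨r, hr, hr1, hr2⟩ := dir hp hp'
    have f1 := (le_def.1 hr1).b ξ.1 hpA α.1 hpd
    have f2 := (le_def.1 hr2).b ξ.1 hpA' α.1 hpd'
    rw [← hpk, ← hpk', ← f1, ← f2]
  · -- B_R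
    intro x b m a n _ hba _ h1 h2
    obtain ⟨ξ, β, k, e⟩ := mem_B' h h1
    obtain ⟨rfl, rfl, rfl⟩ := dec3 e
    obtain ⟨ξ', α, k', e'⟩ := mem_B' h h2
    obtain ⟨e1, rfl, rfl⟩ := dec3 e'
    obtain rfl := eK_inj e1
    obtain ⟨p, hp, hpA, hpd, hpk⟩ := (mem_B h).1 h1
    obtain ⟨p', hp', hpA', hpd', hpk'⟩ := (mem_B h).1 h2
    obtain ⟨r, hr, hr1, hr2⟩ := dir hp hp'
    have f1 := (le_def.1 hr1).b ξ.1 hpA β.1 hpd
    have f2 := (le_def.1 hr2).b ξ.1 hpA' α.1 hpd'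
    have hlt := eO_mem.1 hba
    have hd : α.1 < r.d := hpd'.trans_le (le_def.1 hr2).d
    refine (mem_R h).2 ⟨hlt, r, hr, hd, ?_⟩
    rw [← hpk, ← hpk', ← f1, ← f2]
    exact r.br ξ.1 ((le_def.1 hr1).A hpA) β.1 α.1 hlt hd
  · -- B_ne
    intro x y hx hy hxy
    obtain ⟨ξ, rfl⟩ := (mem_K h).1 hx
    obtain ⟨η, rfl⟩ := (mem_K h).1 hy
    have hne : ξ.1 ≠ η.1 := by
      intro hcon
      exact hxy (congrArg _ (Subtype.ext hcon))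
    obtain ⟨α, hα, p, hp, hξ, hη, hd, hb⟩ := h.ne ξ.1 η.1 ξ.2 η.2 hne
    refine ⟨eO X g ⟨α, hα⟩, eN X g (p.b ξ.1 α), (mem_W h).2 ⟨_, rfl⟩, mem_omega_iff.2 ⟨_, rfl⟩,
      (mem_B h).2 ⟨p, sub hp, hξ, hd, rfl⟩, ?_⟩
    intro hcon
    obtain ⟨p', hp', hpA', hpd', hpk'⟩ := (mem_B h).1 hcon
    obtain ⟨r, hr, hr1, hr2⟩ := dir (sub hp) hp'
    have f1 := (le_def.1 hr1).b η.1 hη α hd
    have f2 := (le_def.1 hr2).b η.1 hpA' α hpd'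
    apply hb
    rw [← f1, f2, hpk']

end Pool.Agent.RFN.GX.KUR
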