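import Pool.Agent.KUR.Dict

set_option autoImplicit false

/-! # The set of indices has no injection into the first uncountable ordinal

PROOFS.
* `no_inj_Kx`: for every `ξ : Kx` there are by `h1` `a ξ ≤ p` and `α ξ` with `F ξ (α ξ) (a ξ)`. By
  `exists_big_fiber` (`#Kx > 𝔠`: `mk_Kx`; `#Om = ℵ₁ ≤ 𝔠`: `H68.KT.mk_W1`) there is `α` such that
  `Z = {ξ | α ξ = α}` has more than `𝔠` elements. By `delta` there are `ζ ≠ η` in `Z` and a common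
  extension `r` of `a ζ`, `a η`: `F ζ α r`, `F η α r` and `h2` give `ζ = η`.
* `req_stI`: as `req_stW` (file `W1`), with `req_alt` for `Kx ⊕ (Kx × Kx × Om)`, names `nK ξ` and
  `opairN (opairN (nK ξ) (nK η)) (nO α)`.
* `no_inj_ok`: as `unc` in `W1`, with `mem_KW`, `mem_K`, `mem_W`, `eK_inj`. -/

namespace Pool.Agent.RFN.GX.KUR

open Pool.Agent.ChoicelessEmb LName

open Pool.Agent.H78.ZF (ZFM opair omega Inj)

theorem no_inj_Kx {F : Kx → Om → Cn → Prop} (mono : ∀ ξ α p q, q ≤ p → F ξ α p → F ξ α q) (p : Cn)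
    (h1 : ∀ r ≤ p, ∀ ξ, ∃ q ≤ r, ∃ α, F ξ α q)
    (h2 : ∀ r ≤ p, ∀ ξ η α, F ξ α r → F η α r → ξ = η) : False := by
  choose a ha α hα using h1 p le_rfl
  have hK : ¬ Cardinal.mk Kx ≤ Cardinal.continuum := by
    rw [mk_Kx]
    exact not_le.2 (Order.lt_succ _)
  have hJ : Cardinal.mk Om ≤ Cardinal.continuum := by
    have h : Cardinal.mk Om = Cardinal.aleph 1 := H68.KT.mk_W1
    rw [h]
    exact Cardinal.aleph_one_le_continuum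
  obtain ⟨j, hj⟩ := exists_big_fiber hK hJ α
  obtain ⟨ζ, hζ, η, hη, hne, ⟨r, hr1, hr2⟩, _⟩ := delta hj a
  have e1 : α ζ = j := hζ
  have e2 : α η = j := hη
  have f1 := mono ζ (α ζ) _ r hr1 (hα ζ)
  have f2 := mono η (α η) _ r hr2 (hα η)
  rw [e1] at f1
  rw [e2] at f2
  exact hne (h2 r (hr1.trans (ha ζ)) ζ η j f1 f2)

/-- The requirement for names of injections of the set of indices into `ω₁`. -/
def StI (X : Set Nm) (g0 : Set Cn) : Prop :=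
  ∀ f ∈ X, (∃ p ∈ g0, ∃ ξ, nK ξ ∈ X ∧ ∀ r ≤ p, ∀ α, ¬ fmem (nm2 nK nO (ξ, α)) f r) ∨
    (∃ p ∈ g0, ∃ ξ η α, nK ξ ∈ X ∧ nK η ∈ X ∧ nO α ∈ X ∧ ξ ≠ η ∧
      fmem (nm2 nK nO (ξ, α)) f p ∧ fmem (nm2 nK nO (η, α)) f p) ∨
    ∃ p : Cn, (∀ r ≤ p, ∀ ξ, ∃ q ≤ r, ∃ α, fmem (nm2 nK nO (ξ, α)) f q) ∧
      ∀ r ≤ p, ∀ ξ η α, fmem (nm2 nK nO (ξ, α)) f r → fmem (nm2 nK nO (η, α)) f r → ξ = η

/-- the names of the indices of the bad sets -/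
private noncomputable def nmI : Kx ⊕ (Kx × Kx × Om) → Nm
  | Sum.inl ξ => nK ξ
  | Sum.inr t => opairN (opairN (nK t.1) (nK t.2.1)) (nO t.2.2)

/-- the bad sets -/
private def badI (v : Fin 1 → Nm) : Kx ⊕ (Kx × Kx × Om) → Set Cn
  | Sum.inl ξ => {p | ∀ r ≤ p, ∀ α, ¬ fmem (nm2 nK nO (ξ, α)) (v 0) r}
  | Sum.inr t => {p | t.1 ≠ t.2.1 ∧ fmem (nm2 nK nO (t.1, t.2.2)) (v 0) p ∧
      fmem (nm2 nK nO (t.2.1, t.2.2)) (v 0) p}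

theorem req_stI : Req fun X g0 _ => StI X g0 := by
  refine ((req_alt nmI 1 badI).and (Pool.Agent.RFN.req_proj (P := Cn))).mono ?_
  rintro X g0 g _ ⟨h1, _, h3⟩ f hf
  rcases h1 (fun _ => f) (fun _ => hf) with ⟨p, hp, i, hi, hb⟩ | ⟨p, hp, hb⟩
  · rcases i with ξ | ⟨ξ, η, α⟩
    · exact Or.inl ⟨p, hp, ξ, hi, hb⟩
    · obtain ⟨h4, h5⟩ := h3 _ _ hi
      obtain ⟨h6, h7⟩ := h3 _ _ h4
      exact Or.inr (Or.inl ⟨p, hp, ξ, η, α, h6, h7, h5, hb.1, hb.2.1, hb.2.2⟩)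
  · refine Or.inr (Or.inr ⟨p, ?_, ?_⟩)
    · intro r hr ξ
      by_contra hcon
      push Not at hcon
      exact hb r hr (Sum.inl ξ) hcon
    · intro r hr ξ η α h4 h5
      by_contra hne
      exact hb r hr (Sum.inr (ξ, η, α)) ⟨hne, h4, h5⟩

theorem no_inj_ok {X : Set Nm} {g : Set Cn} [hs : SB X g] (h : StK X hs.g0) (hI : StI X hs.g0) :
    ¬ ∃ f, Inj f (sK (g := g) h) (sW (g := g) h) := by
  rintro ⟨f, hf⟩
  obtain ⟨f', hf', rfl⟩ := exists_el f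
  have hat := hs.st.op.atom
  rcases hI f' hf' with ⟨p, hp, ξ, hξ, hb⟩ | ⟨p, hp, ξ, η, α, hξ, hη, hα, hne, hb, hb'⟩ |
    ⟨p, h1, h2⟩
  · have hK : eK X g ⟨ξ, hξ⟩ ∈ sK (g := g) h := (mem_K h).2 ⟨_, rfl⟩
    obtain ⟨y, hy, _⟩ := hf.1.2 _ hK
    have hyW : y ∈ sW (g := g) h := (hf.1.mem_of_opair hy).2
    obtain ⟨α, rfl⟩ := (mem_W h).1 hyW
    obtain ⟨q, hq, hqm⟩ := (mem_KW hf').1 hy
    obtain ⟨r, _, hrp, hrq⟩ := hat.fil.dir p q (hat.sub hp) hq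
    exact hb r hrp α.1 (fmem_mono hqm hrq)
  · have e1 : opair (eK X g ⟨ξ, hξ⟩) (eO X g ⟨α, hα⟩) ∈ el X g f' hf' :=
      (mem_KW hf').2 ⟨p, hat.sub hp, hb⟩
    have e2 : opair (eK X g ⟨η, hη⟩) (eO X g ⟨α, hα⟩) ∈ el X g f' hf' :=
      (mem_KW hf').2 ⟨p, hat.sub hp, hb'⟩
    exact hne (congrArg Subtype.val (eK_inj (hf.2 _ _ _ e1 e2)))
  · exact no_inj_Kx (F := fun ξ α q => fmem (nm2 nK nO (ξ, α)) f' q)
      (fun _ _ _ _ hq hm => fmem_mono hm hq) p h1 h2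

end Pool.Agent.RFN.GX.KUR
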