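import Pool.Agent.KUR.NotGood
import Pool.Agent.KUR.CodeN

set_option autoImplicit false

/-! # The model does not satisfy `Coded`

PROOF of `not_coded`. Let `A1 = el a1`, `A2 = el a2` be as in `Coded`, `ζ = zt a1 a2`, `x = sX h ζ _`. `x` is a
function from `sW h` to `two`: totality from `h.val ζ γ` (`mem_X`; the value is `eI (ρ 0)`), uniqueness
from a common extension in `g` of two conditions (`hs.st.op.atom.fil.dir`, `Cn.Le.e`), `mem_X'`,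
`mem_two`, `mem_W`. Let `b = el b'` be a coded branch for `x`. By `hM.alt` and `not_good` there are
`p ∈ g0 ⊆ g` and an index `i` with `nmBI i ∈ X` and `p ∈ Bad a1 a2 b' i`. Contradiction in each case
(the ordinals involved have names in `X` by `hs.st.proj`; `mem_omega_iff`):
* `i1 α`: by `b1` there is `n` with `opair (eO α) (eN n) ∈ b`: some `q ∈ g` has `fmem (nT (α, n)) b' q`
  (`mem_node`), and a common extension of `p` and `q` contradicts `Bad` (`fmem_mono`).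
* `i3`: `b3` and `mem_TT`. * `i4`: the first clause of `Coded`, `mem_TT`, `eN_inj`.
* `i5 γ`: `b4`: the three memberships are forced by `q1, q2, q3 ∈ g` (`mem_node`, `mem_TV`, `mem_X`);
  take a common extension of these and `p` (`XV` is monotone: `Cn.Le.e`).
* `i6`: `b5` gives `opair (eO γ) (eI i) ∈ x`, and `XV ζ γ i' p` gives `opair (eO γ) (eI i') ∈ x` (`mem_X`); as
  `x` is a function, `eI i = eI i'`, `eI_inj`. -/

namespace Pool.Agent.RFN.GX.KUR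

open Pool.Agent.ChoicelessEmb LName

open Pool.Agent.H78.ZF (ZFM opair omega)

variable {X : Set Nm} {g : Set Cn} [hs : SB X g]

include hs in
/-- a common extension in `g` -/
private theorem ext2 {p q : Cn} (hp : p ∈ g) (hq : q ∈ g) : ∃ r ∈ g, r ≤ p ∧ r ≤ q :=
  hs.st.op.atom.fil.dir p q hp hq

private theorem XV_mono {ζ : Kx} {γ : Om} {i : Bool} {p q : Cn} (h : XV ζ γ i p) (hq : q ≤ p) :
    XV ζ γ i q := by
  obtain ⟨ρ, h1, h2⟩ := h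
  exact ⟨ρ, (le_def.1 hq).e _ _ _ h1, h2⟩

private theorem fun_x (h : StK X hs.g0) (ζ : Kx) (hζ : nK ζ ∈ X) :
    Pool.Agent.H78.ZF.Fun (sX (g := g) h ζ hζ) (sW (g := g) h) (two : Mod X g) := by
  constructor
  · intro z hz
    obtain ⟨γ, i, rfl⟩ := mem_X' h hζ hz
    exact ⟨_, (mem_W h).2 ⟨γ, rfl⟩, _, mem_two.2 ⟨i, rfl⟩, rfl⟩
  · intro a ha
    obtain ⟨γ, rfl⟩ := (mem_W h).1 ha
    obtain ⟨ρ, hρ, p, hp, he⟩ := h.val ζ γ.1 hζ γ.2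
    have hpg : p ∈ g := hs.st.op.atom.sub hp
    refine ⟨eI X g (ρ 0), (mem_X h hζ).2 ⟨p, hpg, ρ, he, rfl⟩, ?_⟩
    intro y hy
    obtain ⟨γ', i, e⟩ := mem_X' h hζ hy
    obtain ⟨e1, rfl⟩ := Pool.Agent.H78.ZF.opair_inj e
    have e2 := eO_inj e1
    subst e2
    obtain ⟨q, hq, ρ', h1, h2⟩ := (mem_X h hζ).1 hy
    obtain ⟨r, hr, hrp, hrq⟩ := ext2 (X := X) hpg hq
    have h3 := (le_def.1 hrp).e _ _ _ he
    have h4 := (le_def.1 hrq).e _ _ _ h1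
    rw [h3] at h4
    have h5 : ρ = ρ' := Option.some.inj h4
    rw [← h2, h5]

theorem not_coded {X : Set Nm} {g : Set Cn} [hs : SB X g] (h : StK X hs.g0) (hM : StM X hs.g0) :
    ¬ Coded (sW (g := g) h) := by
  rintro ⟨A1, A2, c1, hall⟩
  obtain ⟨a1, ha1, rfl⟩ := exists_el A1
  obtain ⟨a2, ha2, rfl⟩ := exists_el A2
  have hζ := hM.zt a1 ha1 a2 ha2
  set ζ := zt a1 a2 with hζdef
  obtain ⟨b0, hb⟩ := hall _ (fun_x h ζ hζ)
  obtain ⟨b, hbX, rfl⟩ := exists_el b0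
  have hfun := fun_x h ζ hζ
  -- natural numbers
  have hom : ∀ n, eN X g n ∈ (omega : Mod X g) := fun n => mem_omega_iff.2 ⟨n, rfl⟩
  rcases hM.alt a1 ha1 a2 ha2 b hbX with ⟨p, hp, i, hi, hbad⟩ | ⟨p, hp⟩
  swap
  · exact not_good a1 a2 b p hp
  have hpg : p ∈ g := hs.st.op.atom.sub hp
  cases i with
  | i1 α =>
    have hα : nO α ∈ X := hi
    obtain ⟨n', hn', hmem⟩ := hb.b1 (eO X g ⟨α, hα⟩) ((mem_W h).2 ⟨_, rfl⟩)
    obtain ⟨n, rfl⟩ := mem_omega_iff.1 hn'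
    obtain ⟨q, hq, hqm⟩ := (mem_node hbX).1 hmem
    obtain ⟨r, hr, hrp, hrq⟩ := ext2 (X := X) hpg hq
    exact hbad r hrp n (fmem_mono hqm hrq)
  | i3 β m α n =>
    obtain ⟨hβ, hα⟩ := hs.st.proj _ _ (show opairN (nO β) (nO α) ∈ X from hi)
    obtain ⟨hlt, h1, h2, h3⟩ := hbad
    have k1 : opair (eO X g ⟨β, hβ⟩) (eN X g m) ∈ el X g b hbX := (mem_node hbX).2 ⟨p, hpg, h1⟩
    have k2 : opair (eO X g ⟨α, hα⟩) (eN X g n) ∈ el X g b hbX := (mem_node hbX).2 ⟨p, hpg, h2⟩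
    have k3 := hb.b3 (eO X g ⟨β, hβ⟩) (eN X g m) (eO X g ⟨α, hα⟩) (eN X g n)
      ((mem_W h).2 ⟨_, rfl⟩) ((mem_W h).2 ⟨_, rfl⟩) (eO_mem.2 hlt) (hom m) (hom n) k1 k2
    obtain ⟨q, hq, hqm⟩ := (mem_TT ha1).1 k3
    obtain ⟨r, hr, hrp, hrq⟩ := ext2 (X := X) hpg hq
    exact h3 r hrp (fmem_mono hqm hrq)
  | i4 β m m' α n =>
    obtain ⟨hβ, hα⟩ := hs.st.proj _ _ (show opairN (nO β) (nO α) ∈ X from hi)
    obtain ⟨hne, h1, h2⟩ := hbad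
    have k1 : opair (opair (eO X g ⟨β, hβ⟩) (eN X g m)) (opair (eO X g ⟨α, hα⟩) (eN X g n)) ∈
      el X g a1 ha1 := (mem_TT ha1).2 ⟨p, hpg, h1⟩
    have k2 : opair (opair (eO X g ⟨β, hβ⟩) (eN X g m')) (opair (eO X g ⟨α, hα⟩) (eN X g n)) ∈
      el X g a1 ha1 := (mem_TT ha1).2 ⟨p, hpg, h2⟩
    exact hne (eN_inj (c1 _ _ _ _ _ k1 k2))
  | i5 γ =>
    have hγ : nO γ ∈ X := hi
    obtain ⟨α', n', i', hα', hn', hi', m1, m2, m3⟩ := hb.b4 (eO X g ⟨γ, hγ⟩) ((mem_W h).2 ⟨_, rfl⟩)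
    obtain ⟨α, rfl⟩ := (mem_W h).1 hα'
    obtain ⟨n, rfl⟩ := mem_omega_iff.1 hn'
    obtain ⟨i, rfl⟩ := mem_two.1 hi'
    obtain ⟨q1, hq1, k1⟩ := (mem_node hbX).1 m1
    obtain ⟨q2, hq2, k2⟩ := (mem_TV ha2).1 m2
    obtain ⟨q3, hq3, k3⟩ := (mem_X h hζ).1 m3
    obtain ⟨r1, hr1, r1a, r1b⟩ := ext2 (X := X) hq1 hq2
    obtain ⟨r2, hr2, r2a, r2b⟩ := ext2 (X := X) hq3 hpg
    obtain ⟨r, hr, ra, rb⟩ := ext2 (X := X) hr1 hr2
    exact hbad r (rb.trans r2b) α.1 n i ⟨fmem_mono k1 (ra.trans r1a), fmem_mono k2 (ra.trans r1b),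
      XV_mono k3 (rb.trans r2a)⟩
  | i6 α n γ i i' =>
    obtain ⟨hα, hγ⟩ := hs.st.proj _ _ (show opairN (nO α) (nO γ) ∈ X from hi)
    obtain ⟨hne, h1, h2, h3⟩ := hbad
    have k1 : opair (eO X g ⟨α, hα⟩) (eN X g n) ∈ el X g b hbX := (mem_node hbX).2 ⟨p, hpg, h1⟩
    have k2 : opair (opair (eO X g ⟨α, hα⟩) (eN X g n)) (opair (eO X g ⟨γ, hγ⟩) (eI X g i)) ∈
      el X g a2 ha2 := (mem_TV ha2).2 ⟨p, hpg, h2⟩
    have k3 := hb.b5 _ _ _ _ k1 k2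
    have k4 : opair (eO X g ⟨γ, hγ⟩) (eI X g i') ∈ sX (g := g) h ζ hζ := (mem_X h hζ).2 ⟨p, hpg, h3⟩
    have e1 := hfun.ap_eq k3
    have e2 := hfun.ap_eq k4
    exact hne (eI_inj (e1.symm.trans e2))

end Pool.Agent.RFN.GX.KUR
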