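import Pool.Agent.KUR.Cond

set_option autoImplicit false

/-! # The forcing notion is countably closed

PROOF of `exists_lb`. First, by induction, `p m ≤ p n` for `n ≤ m` (`antitone_nat_of_succ_le`). Let `s` be
the least element of `Om` with `(p n).d ≤ s` for all `n` (exists: `H68.KT.exists_bound` for the
countable set of the `(p n).d` and well-foundedness); for every `α < s` there is `n` with
`α < (p n).d`. The lower bound `q`: `d = s`; `pi β α m = (p n).pi β α m`, where `n` is chosen with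
`α < (p n).d` (`if h : ∃ n, α < (p n).d then (p h.choose).pi β α m else 0`); `A = ⋃ n, (p n).A`;
`b ξ α = (p n).b ξ α`, where `n` is chosen with `ξ ∈ (p n).A` and `α < (p n).d` (0 if there is none);
`e ξ α = (p n).e ξ α` for a chosen `n` with `(p n).e ξ α ≠ none` (`none` if there is none). By
compatibility of any two members of the sequence (compare both with a common later one, for
`b`: `ξ ∈ (p n).A ⊆ (p k).A`) the values do not depend on the choice of `n`; this gives `coh`, `br` (take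
one `n` which works for all the finitely many ordinals and the index involved) and `q ≤ p n`. -/

namespace Pool.Agent.RFN.GX.KUR

/-- `p` does not mention the coordinate `ζ` of `e`. -/
def NoE (p : Cn) (ζ : Kx) : Prop := ∀ α, p.e ζ α = none

open Classical in
theorem exists_lb (p : ℕ → Cn) (hp : ∀ n, p (n + 1) ≤ p n) :
    ∃ q, (∀ n, q ≤ p n) ∧ ∀ ξ, (∀ n, NoE (p n) ξ) → NoE q ξ := by
  have le : ∀ n m, n ≤ m → p m ≤ p n := by
    intro n m h
    induction h with
    | refl => exact le_refl _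
    | @step m _ ih => exact (hp m).trans ih
  have leL : ∀ n m, n ≤ m → Cn.Le (p m) (p n) := fun n m h => le n m h
  -- the height
  obtain ⟨s, hs1, hs2⟩ : ∃ s : Om, (∀ n, (p n).d ≤ s) ∧ ∀ a, (∀ n, (p n).d ≤ a) → s ≤ a := by
    have hne : {s : Om | ∀ n, (p n).d ≤ s}.Nonempty := by
      obtain ⟨b, hb⟩ := H68.KT.exists_bound (Set.countable_range fun n => (p n).d)
      exact ⟨b, fun n => (hb _ ⟨n, rfl⟩).le⟩
    exact ⟨WellFounded.min (wellFounded_lt (α := Om)) _ hne,
      WellFounded.min_mem (wellFounded_lt (α := Om)) _ hne,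
      fun a ha => WellFounded.min_le (wellFounded_lt (α := Om))
        (show a ∈ {s : Om | ∀ n, (p n).d ≤ s} from ha)⟩
  have hs3 : ∀ α, α < s → ∃ n, α < (p n).d := by
    intro α hα
    by_contra h
    push Not at h
    exact absurd (hs2 α h) (not_le.2 hα)
  -- the projections
  obtain ⟨pi, hpi⟩ : ∃ pi : Om → Om → ℕ → ℕ, ∀ n β α m, β < α → α < (p n).d →
      pi β α m = (p n).pi β α m := by
    refine ⟨fun β α m => if h : ∃ n, α < (p n).d then (p h.choose).pi β α m else 0, ?_⟩
    intro n β α m hβ hα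
    have h : ∃ n, α < (p n).d := ⟨n, hα⟩
    show (if h : ∃ n, α < (p n).d then (p h.choose).pi β α m else 0) = _
    rw [dif_pos h]
    have h1 := (leL n (max n h.choose) (le_max_left _ _)).pi β α m hβ hα
    have h2 := (leL h.choose (max n h.choose) (le_max_right _ _)).pi β α m hβ h.choose_spec
    rw [← h1, ← h2]
  -- the branches
  obtain ⟨b, hb⟩ : ∃ b : Kx → Om → ℕ, ∀ n ξ α, ξ ∈ (p n).A → α < (p n).d →
      b ξ α = (p n).b ξ α := by
    refine ⟨fun ξ α => if h : ∃ n, ξ ∈ (p n).A ∧ α < (p n).d then (p h.choose).b ξ α else 0, ?_⟩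
    intro n ξ α hξ hα
    have h : ∃ n, ξ ∈ (p n).A ∧ α < (p n).d := ⟨n, hξ, hα⟩
    show (if h : ∃ n, ξ ∈ (p n).A ∧ α < (p n).d then (p h.choose).b ξ α else 0) = _
    rw [dif_pos h]
    have h1 := (leL n (max n h.choose) (le_max_left _ _)).b ξ hξ α hα
    have h2 := (leL h.choose (max n h.choose) (le_max_right _ _)).b ξ h.choose_spec.1 α
      h.choose_spec.2
    rw [← h1, ← h2]
  -- the partial function
  obtain ⟨e, he1, he2⟩ : ∃ e : Kx → Om → Option Rl, (∀ n ξ α ρ, (p n).e ξ α = some ρ →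
      e ξ α = some ρ) ∧ ∀ ξ α, e ξ α ≠ none → ∃ n, (p n).e ξ α ≠ none := by
    refine ⟨fun ξ α => if h : ∃ n, (p n).e ξ α ≠ none then (p h.choose).e ξ α else none, ?_, ?_⟩
    · intro n ξ α ρ hρ
      have h : ∃ n, (p n).e ξ α ≠ none := ⟨n, by rw [hρ]; simp⟩
      show (if h : ∃ n, (p n).e ξ α ≠ none then (p h.choose).e ξ α else none) = _
      rw [dif_pos h]
      obtain ⟨ρ', hρ'⟩ := Option.ne_none_iff_exists'.1 h.choose_spec
      have h1 := (leL n (max n h.choose) (le_max_left _ _)).e ξ α ρ hρ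
      have h2 := (leL h.choose (max n h.choose) (le_max_right _ _)).e ξ α ρ' hρ'
      rw [hρ', ← h1, ← h2]
    · intro ξ α h
      by_contra h'
      exact h (dif_neg h')
  have hpA : ∀ n m, n ≤ m → (p n).A ⊆ (p m).A := fun n m h => (leL n m h).A
  refine ⟨{ d := s, pi := pi, A := ⋃ n, (p n).A, b := b, e := e,
            hA := Set.countable_iUnion fun n => (p n).hA, he := ?_,
            h0 := Set.mem_iUnion.2 ⟨0, (p 0).h0⟩, coh := ?_, br := ?_ }, ?_, ?_⟩
  · refine (Set.countable_iUnion fun n => (p n).he).mono ?_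
    rintro ⟨ξ, α⟩ h
    obtain ⟨n, hn⟩ := he2 ξ α h
    exact Set.mem_iUnion.2 ⟨n, hn⟩
  · intro γ β α hγ hβ hα n
    obtain ⟨k, hk⟩ := hs3 α hα
    rw [hpi k β α n hβ hk, hpi k γ β _ hγ (hβ.trans hk), hpi k γ α n (hγ.trans hβ) hk]
    exact (p k).coh γ β α hγ hβ hk n
  · intro ξ hξ β α hβ hα
    obtain ⟨n, hn⟩ := Set.mem_iUnion.1 hξ
    obtain ⟨k, hk⟩ := hs3 α hα
    have h1 : ξ ∈ (p (max n k)).A := hpA n _ (le_max_left _ _) hn
    have h2 : α < (p (max n k)).d := hk.trans_le (leL k _ (le_max_right _ _)).d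
    rw [hb _ ξ α h1 h2, hpi _ β α _ hβ h2, hb _ ξ β h1 (hβ.trans h2)]
    exact (p _).br ξ h1 β α hβ h2
  · intro n
    exact ⟨hs1 n, fun β α m hβ hα => hpi n β α m hβ hα, Set.subset_iUnion (fun n => (p n).A) n,
      fun ξ hξ α hα => hb n ξ α hξ hα, fun ξ α ρ h => he1 n ξ α ρ h⟩
  · intro ξ h α
    by_contra h'
    obtain ⟨n, hn⟩ := he2 ξ α h'
    exact hn (h n α)

end Pool.Agent.RFN.GX.KUR
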