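import Pool.Agent.KUR.Dict
import Pool.Agent.KUR.Low

set_option autoImplicit false

/-! # The reals of the model and the continuum hypothesis

PROOFS.
* `exists_real`: build a decreasing sequence `p n` with `p 0 = p` such that `fmem (nN n) a (p (n + 1))`
  or no `r ≤ p (n + 1)` has `fmem (nN n) a r`; let `q ≤ p n` for all `n` (`exists_lb`) and `ρ n = true` in
  the first case.
* `req_stR`: `Req.dec1` for `{p | ∃ ρ, Dcd a ρ p}`, dense by `exists_real` (`dec0_dense`), and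
  `Req.refl1` (or `reqc_refl id _ nR`) for the witness `ρ`.
* `ch_ok`: `f = sE h`. It is a function from `sW h` to `pow omega`: for `α` there is `ρ` with
  `opair (eO α) (eR ρ) ∈ sE h` (`h.val k0 α h.k0`, `mem_E`); uniqueness: two conditions of `g` have a common
  extension in `g` (`hs.st.op.atom.fil.dir`) and `Cn.Le.e`; `g0 ⊆ g` is `hs.st.op.atom.sub`.
  `eR ρ ⊆ omega`: `mem_eR`, `mem_omega_iff`. Onto: let `y ⊆ omega`, `y = el X g a ha`, and `ρ`, `p` as in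
  `StR`; then `y = eR ρ`: `eN n ∈ y` iff some `q ∈ g` has `fmem (nN n) a q` (`mem_nat`) iff `ρ n = true`
  (common extension of `p` and `q`). By `h.real ρ` there is `α` with `opair (eO α) (eR ρ) ∈ sE h`. -/

namespace Pool.Agent.RFN.GX.KUR

open Pool.Agent.ChoicelessEmb LName

open Pool.Agent.H78.ZF (ZFM opair omega)

/-- `p` decides all the natural numbers in `a`, and `ρ` is the decided real. -/
def Dcd (a : Nm) (ρ : Rl) (p : Cn) : Prop :=
  ∀ n, (ρ n = true → fmem (nN n) a p) ∧ (ρ n = false → ∀ r ≤ p, ¬ fmem (nN n) a r)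

theorem exists_real (a : Nm) (p : Cn) : ∃ q ≤ p, ∃ ρ, Dcd a ρ q := by
  classical
  have step : ∀ (n : ℕ) (q : Cn), ∃ r ≤ q, fmem (nN n) a r ∨ ∀ s ≤ r, ¬ fmem (nN n) a s := by
    intro n q
    by_cases h : ∃ r ≤ q, fmem (nN n) a r
    · obtain ⟨r, hr, h1⟩ := h
      exact ⟨r, hr, Or.inl h1⟩
    · exact ⟨q, le_refl _, Or.inr fun s hs h1 => h ⟨s, hs, h1⟩⟩
  choose F hF1 hF2 using step
  let s : ℕ → Cn := fun n => Nat.rec p (fun n q => F n q) n
  have hs : ∀ n, s (n + 1) = F n (s n) := fun _ => rfl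
  obtain ⟨q, hq, -⟩ := exists_lb s fun n => by
    rw [hs]
    exact hF1 n (s n)
  refine ⟨q, hq 0, fun n => decide (fmem (nN n) a (s (n + 1))), fun n => ⟨fun h => ?_, fun h => ?_⟩⟩
  · exact fmem_mono (of_decide_eq_true h) (hq (n + 1))
  · have h1 : ¬ fmem (nN n) a (s (n + 1)) := of_decide_eq_false h
    rw [hs] at h1
    intro r hr
    refine ((hF2 n (s n)).resolve_left h1) r (hr.trans ?_)
    rw [← hs]
    exact hq (n + 1)

/-- The requirement for names of reals. -/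
def StR (X : Set Nm) (g0 : Set Cn) : Prop := ∀ a ∈ X, ∃ ρ, nR ρ ∈ X ∧ ∃ p ∈ g0, Dcd a ρ p

theorem req_stR : Req fun X g0 _ => StR X g0 := by
  refine ((Req.dec1 fun a : Nm => {p | ∃ ρ, Dcd a ρ p}).and
    (reqc_refl (id : Nm → Nm) Function.injective_id nR fun a p ρ => Dcd a ρ p)).mono ?_
  rintro X g0 g _ ⟨h1, h2⟩ a ha
  obtain ⟨p, hp, ρ, hρ⟩ := dec0_dense (h1 a ha) (exists_real a)
  obtain ⟨ρ', hX, h'⟩ := h2 a ha p hp ⟨ρ, hρ⟩
  exact ⟨ρ', hX, p, hp, h'⟩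

theorem ch_ok {X : Set Nm} {g : Set Cn} [hs : SB X g] (h : StK X hs.g0) (hR : StR X hs.g0) :
    CH (sW (g := g) h) := by
  have hdir : ∀ p q : Cn, p ∈ g → q ∈ g → ∃ r ∈ g, r ≤ p ∧ r ≤ q := hs.st.op.atom.fil.dir
  have hsub : hs.g0 ⊆ g := hs.st.op.atom.sub
  have hpow : ∀ ρ : {ρ : Rl // nR ρ ∈ X}, eR X g ρ ∈ (Pool.Agent.H78.ZF.pow omega : Mod X g) := by
    intro ρ
    rw [Pool.Agent.H78.ZF.mem_pow]
    intro z hz
    obtain ⟨n, -, rfl⟩ := mem_eR.1 hz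
    exact mem_omega_iff.2 ⟨n, rfl⟩
  have hfun : Pool.Agent.H78.ZF.Fun (sE (g := g) h) (sW (g := g) h)
      (Pool.Agent.H78.ZF.pow omega) := by
    constructor
    · intro z hz
      obtain ⟨α, ρ, rfl⟩ := mem_E' h hz
      exact ⟨_, (mem_W h).2 ⟨α, rfl⟩, _, hpow ρ, rfl⟩
    · intro x hx
      obtain ⟨α, rfl⟩ := (mem_W h).1 hx
      obtain ⟨ρ, hρ, p, hp, he⟩ := h.val k0 α.1 h.k0 α.2
      refine ⟨eR X g ⟨ρ, hρ⟩, (mem_E h).2 ⟨p, hsub hp, he⟩, ?_⟩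
      intro y hy
      obtain ⟨α', ρ', e⟩ := mem_E' h hy
      obtain ⟨e1, rfl⟩ := Pool.Agent.H78.ZF.opair_inj e
      obtain ⟨q, hq, he'⟩ := (mem_E h).1 hy
      obtain ⟨r, -, h1, h2⟩ := hdir p q (hsub hp) hq
      have h3 := (show Cn.Le r p from h1).e _ _ _ he
      have h4 := (show Cn.Le r q from h2).e _ _ _ he'
      rw [h3] at h4
      have h5 : ρ = ρ'.1 := Option.some.inj h4
      exact congrArg (eR X g) (Subtype.ext h5.symm)
  refine ⟨sE (g := g) h, hfun, fun y hy => ?_⟩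
  rw [Pool.Agent.H78.ZF.mem_pow] at hy
  obtain ⟨a, ha, rfl⟩ := exists_el y
  obtain ⟨ρ, hρ, p, hp, hD⟩ := hR a ha
  have e : el X g a ha = eR X g ⟨ρ, hρ⟩ := by
    apply Pool.Agent.H78.ZF.ext
    intro z
    constructor
    · intro hz
      obtain ⟨n, rfl⟩ := mem_omega_iff.1 (hy z hz)
      rw [mem_eR]
      refine ⟨n, ?_, rfl⟩
      obtain ⟨q, hq, h1⟩ := (mem_nat ha).1 hz
      obtain ⟨r, -, h2, h3⟩ := hdir p q (hsub hp) hq
      show ρ n = true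
      by_contra hcon
      exact (hD n).2 (Bool.eq_false_of_not_eq_true hcon) r h2 (fmem_mono h1 h3)
    · intro hz
      obtain ⟨n, hn, rfl⟩ := mem_eR.1 hz
      exact (mem_nat ha).2 ⟨p, hsub hp, (hD n).1 hn⟩
  obtain ⟨α, hα, q, hq, he⟩ := h.real ρ hρ
  refine ⟨eO X g ⟨α, hα⟩, (mem_W h).2 ⟨_, rfl⟩, ?_⟩
  rw [e]
  exact hfun.ap_eq ((mem_E h).2 ⟨q, hsub hq, he⟩)

end Pool.Agent.RFN.GX.KUR
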