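import Pool.Agent.KUR.W1
import Pool.Agent.KUR.Real
import Pool.Agent.KUR.NoInj
import Pool.Agent.KUR.KTree
import Pool.Agent.KUR.NotCoded

set_option autoImplicit false

/-! # The model -/

namespace Pool.Agent.RFN.GX.KUR

open Pool.Agent.ChoicelessEmb LName

open Pool.Agent.H78.ZF (ZFM IsZFModel)

/-- There is a countable transitive model of ZFC in which the continuum hypothesis holds, there is a
Kurepa tree and there is no strong Kurepa tree. -/
theorem exists_model : ∃ (M : Set ZFSet.{0}) (h : IsZFModel fun x y : M => x.1 ∈ y.1),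
    M.Countable ∧ (∀ x ∈ M, ∀ y ∈ x, y ∈ M) ∧
      letI : ZFM M := ⟨_, h⟩
      Choice M ∧ Q1 M := by
  obtain ⟨X, g0, g, hc, _, h1, h2, h3, h4, h5, h6⟩ :=
    ((req_stB (P := Cn)).and (req_stK.and (req_stW.and (req_stR.and
      (req_stI.and req_stM))))).exists
  let hs : SB X g := ⟨g0, h1⟩
  have hw : IsW1 (sW (g := g) h2) := isW1_ok h2 h3
  refine ⟨Mod X g, hs.st.isZF, hc.image _, Mod_trans, choice_mod, sW h2, hw, ch_ok h2 h4,
    kurepa_of hw (kdata_ok h2 (no_inj_ok h2 h5)), ?_⟩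
  rintro ⟨T, R, h, hK, hS⟩
  exact not_coded h2 h6 (coded_of_surj choice_mod hw hK.1 hS)

end Pool.Agent.RFN.GX.KUR
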