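import Pool.Agent.KUR.Delta

set_option autoImplicit false

/-! # A free coordinate

PROOF of `exists_free`. Otherwise for every `ζ : Kx` there are `j ζ : J` and `p ζ : Cn` such that there
is no `r ≤ p ζ` with `r.e ζ = (p ζ).e ζ` which is `≤ a` for some `a ∈ D (j ζ)` with `NoE a ζ`. By
`exists_big_fiber` (`#Kx` is the successor of `𝔠`: `mk_Kx`, `Order.lt_succ`) there is `j` such that
`Z = {ζ | j ζ = j}` has more than `𝔠` elements. Choose `a ζ ≤ p ζ` in `D (j ζ)` (`hD`). By `delta` there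
are `ζ ≠ η` in `Z`, `r0 ≤ a ζ`, `r0 ≤ a η`, and `NoE (a ζ) η`. Let `r = upd r0 η (pcO (p η) η)`.
`r ≤ p η`: `upd r0 η (pcO (p η) η) ≤ upd (p η) η (pcO (p η) η) = p η` (`upd_le`, `upd_pcO`).
`r.e η = (p η).e η` (`upd_e_self`). `r ≤ a ζ` by `upd_le_of_noE`. `a ζ ∈ D (j ζ) = D (j η)`:
contradiction. -/

namespace Pool.Agent.RFN.GX.KUR

open Cardinal

theorem exists_free {J : Type} (hJ : #J ≤ 𝔠) (D : J → Set Cn) (hD : ∀ j p, ∃ r ≤ p, r ∈ D j) :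
    ∃ ζ, ∀ j p, ∃ r ≤ p, r.e ζ = p.e ζ ∧ ∃ a, r ≤ a ∧ NoE a ζ ∧ a ∈ D j := by
  by_contra hcon
  push Not at hcon
  choose j p h using hcon
  have hK : ¬ #Kx ≤ 𝔠 := by
    rw [mk_Kx, not_le]
    exact Order.lt_succ _
  obtain ⟨j0, hZ⟩ := exists_big_fiber hK hJ j
  choose a ha haD using fun ζ => hD (j ζ) (p ζ)
  obtain ⟨ζ, hζ, η, hη, -, ⟨r0, h1, h2⟩, hno⟩ := delta hZ a
  rw [Set.mem_ofPred_eq] at hζ hη
  refine h η (upd r0 η (pcO (p η) η)) ?_ (upd_e_self _ _ _) (a ζ) (upd_le_of_noE h1 hno _) hno ?_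
  · have h3 : upd r0 η (pcO (p η) η) ≤ upd (p η) η (pcO (p η) η) :=
      upd_le (h2.trans (ha η)) le_rfl
    rw [upd_pcO] at h3
    exact h3
  · rw [hη, ← hζ]
    exact haD ζ

end Pool.Agent.RFN.GX.KUR
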