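import Pool.Agent.KUR.Dict

set_option autoImplicit false

/-! # The main argument: definitions and requirements

`a1`, `a2` are names for the sets `A1`, `A2` of `Coded` (file `CodeN`), `b` is a name for a coded
branch which is mapped to the new function with the index `zt a1 a2`.

PROOFS. `exists_zt`: `exists_free` for `Dj a1 a2` (`#JJ ≤ 𝔠`: `mk_prod_le`, `Cardinal.mk_sum`,
`H68.KT.mk_W1`); the sets `Dj a1 a2 j` are dense: excluded middle. `req_stM`: `req_alt` with `k = 3` for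
`nmBI` and `fun v => Bad (v 0) (v 1) (v 2)`; if no `r ≤ p` is bad for any index then `Good` (each field
of `Good` is the negation of one kind of bad condition); and `Req.op2 fun a1 a2 => nK (zt a1 a2)`. -/

namespace Pool.Agent.RFN.GX.KUR

open Pool.Agent.ChoicelessEmb LName

/-- The statements about the two names. -/
abbrev JJ : Type := ((Om × ℕ) × (Om × ℕ)) ⊕ ((Om × ℕ) × (Om × Bool))

/-- The conditions which decide a statement. -/
def Dj (a1 a2 : Nm) : JJ → Set Cn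
  | .inl z => {p | fmem (nm2 nT nT z) a1 p ∨ ∀ r ≤ p, ¬ fmem (nm2 nT nT z) a1 r}
  | .inr z => {p | fmem (nm2 nT nV z) a2 p ∨ ∀ r ≤ p, ¬ fmem (nm2 nT nV z) a2 r}

private theorem mk_JJ : Cardinal.mk JJ ≤ Cardinal.continuum := by
  have hO : Cardinal.mk Om ≤ Cardinal.continuum := by
    rw [H68.KT.mk_W1]
    exact Cardinal.aleph_one_le_continuum
  have hN : Cardinal.mk ℕ ≤ Cardinal.continuum := by
    rw [Cardinal.mk_nat]
    exact Cardinal.aleph0_le_continuum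
  have hB : Cardinal.mk Bool ≤ Cardinal.continuum := by
    rw [Cardinal.mk_bool]
    exact (Cardinal.nat_lt_continuum 2).le
  have hprod : ∀ A B : Type, Cardinal.mk A ≤ Cardinal.continuum → Cardinal.mk B ≤ Cardinal.continuum →
      Cardinal.mk (A × B) ≤ Cardinal.continuum := by
    intro A B hA hB
    rw [Cardinal.mk_prod, Cardinal.lift_id, Cardinal.lift_id, ← Cardinal.continuum_mul_self]
    exact mul_le_mul' hA hB
  rw [Cardinal.mk_sum, Cardinal.lift_id, Cardinal.lift_id, ← Cardinal.continuum_add_self]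
  exact add_le_add (hprod _ _ (hprod _ _ hO hN) (hprod _ _ hO hN))
    (hprod _ _ (hprod _ _ hO hN) (hprod _ _ hO hB))

theorem exists_zt (a1 a2 : Nm) : ∃ ζ, ∀ j p, ∃ r ≤ p, r.e ζ = p.e ζ ∧
    ∃ a, r ≤ a ∧ NoE a ζ ∧ a ∈ Dj a1 a2 j := by
  refine exists_free mk_JJ (Dj a1 a2) ?_
  intro j p
  cases j with
  | inl z =>
    by_cases h : ∃ r ≤ p, fmem (nm2 nT nT z) a1 r
    · obtain ⟨r, hr, h1⟩ := h
      exact ⟨r, hr, Or.inl h1⟩
    · exact ⟨p, le_rfl, Or.inr fun r hr h1 => h ⟨r, hr, h1⟩⟩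
  | inr z =>
    by_cases h : ∃ r ≤ p, fmem (nm2 nT nV z) a2 r
    · obtain ⟨r, hr, h1⟩ := h
      exact ⟨r, hr, Or.inl h1⟩
    · exact ⟨p, le_rfl, Or.inr fun r hr h1 => h ⟨r, hr, h1⟩⟩

/-- A coordinate which is not used by the names `a1` and `a2`. -/
noncomputable def zt (a1 a2 : Nm) : Kx := (exists_zt a1 a2).choose

theorem zt_spec (a1 a2 : Nm) : ∀ j p, ∃ r ≤ p, r.e (zt a1 a2) = p.e (zt a1 a2) ∧
    ∃ a, r ≤ a ∧ NoE a (zt a1 a2) ∧ a ∈ Dj a1 a2 j := (exists_zt a1 a2).choose_spec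

/-- `p` forces that `b` is a coded branch mapped to the new function with index `zt a1 a2`. -/
structure Good (a1 a2 b : Nm) (p : Cn) : Prop where
  g1 : ∀ r ≤ p, ∀ α, ∃ q ≤ r, ∃ n, fmem (nT (α, n)) b q
  g3 : ∀ r ≤ p, ∀ β m α n, β < α → fmem (nT (β, m)) b r → fmem (nT (α, n)) b r →
    ∃ q ≤ r, fmem (nm2 nT nT ((β, m), (α, n))) a1 q
  g4 : ∀ r ≤ p, ∀ β m m' α n, fmem (nm2 nT nT ((β, m), (α, n))) a1 r →
    fmem (nm2 nT nT ((β, m'), (α, n))) a1 r → m = m'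
  g5 : ∀ r ≤ p, ∀ γ, ∃ q ≤ r, ∃ α n i, fmem (nT (α, n)) b q ∧
    fmem (nm2 nT nV ((α, n), (γ, i))) a2 q ∧ XV (zt a1 a2) γ i q
  g6 : ∀ r ≤ p, ∀ α n γ i i', fmem (nT (α, n)) b r → fmem (nm2 nT nV ((α, n), (γ, i))) a2 r →
    XV (zt a1 a2) γ i' r → i = i'

/-- The indices of the bad conditions. -/
inductive BI : Type
  | i1 (α : Om)
  | i3 (β : Om) (m : ℕ) (α : Om) (n : ℕ)
  | i4 (β : Om) (m m' : ℕ) (α : Om) (n : ℕ)
  | i5 (γ : Om)
  | i6 (α : Om) (n : ℕ) (γ : Om) (i i' : Bool)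

/-- Their names. -/
noncomputable def nmBI : BI → Nm
  | .i1 α => nO α
  | .i3 β _ α _ => opairN (nO β) (nO α)
  | .i4 β _ _ α _ => opairN (nO β) (nO α)
  | .i5 γ => nO γ
  | .i6 α _ γ _ _ => opairN (nO α) (nO γ)

/-- The bad conditions. -/
def Bad (a1 a2 b : Nm) : BI → Set Cn
  | .i1 α => {p | ∀ r ≤ p, ∀ n, ¬ fmem (nT (α, n)) b r}
  | .i3 β m α n => {p | β < α ∧ fmem (nT (β, m)) b p ∧ fmem (nT (α, n)) b p ∧
      ∀ r ≤ p, ¬ fmem (nm2 nT nT ((β, m), (α, n))) a1 r}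
  | .i4 β m m' α n => {p | m ≠ m' ∧ fmem (nm2 nT nT ((β, m), (α, n))) a1 p ∧
      fmem (nm2 nT nT ((β, m'), (α, n))) a1 p}
  | .i5 γ => {p | ∀ r ≤ p, ∀ α n i, ¬ (fmem (nT (α, n)) b r ∧
      fmem (nm2 nT nV ((α, n), (γ, i))) a2 r ∧ XV (zt a1 a2) γ i r)}
  | .i6 α n γ i i' => {p | i ≠ i' ∧ fmem (nT (α, n)) b p ∧
      fmem (nm2 nT nV ((α, n), (γ, i))) a2 p ∧ XV (zt a1 a2) γ i' p}

/-- The requirements. -/
structure StM (X : Set Nm) (g0 : Set Cn) : Prop where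
  zt : ∀ a1 ∈ X, ∀ a2 ∈ X, nK (zt a1 a2) ∈ X
  alt : ∀ a1 ∈ X, ∀ a2 ∈ X, ∀ b ∈ X,
    (∃ p ∈ g0, ∃ i, nmBI i ∈ X ∧ p ∈ Bad a1 a2 b i) ∨ ∃ p, Good a1 a2 b p

theorem req_stM : Req fun X g0 _ => StM X g0 := by
  refine ((Req.op2 fun a1 a2 => nK (zt a1 a2)).and
    (req_alt nmBI 3 fun v => Bad (v 0) (v 1) (v 2))).mono ?_
  rintro X g0 g _ ⟨h1, h2⟩
  refine ⟨h1, ?_⟩
  intro a1 ha1 a2 ha2 b hb
  rcases h2 ![a1, a2, b] (by intro i; fin_cases i <;> assumption) with h | h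
  · exact Or.inl h
  · right
    obtain ⟨p, _, hp⟩ := h
    have hp' : ∀ r ≤ p, ∀ i, r ∉ Bad a1 a2 b i := hp
    refine ⟨p, ?_, ?_, ?_, ?_, ?_⟩
    · intro r hr α
      by_contra hcon
      push Not at hcon
      exact hp' r hr (.i1 α) hcon
    · intro r hr β m α n hβ h3 h4
      by_contra hcon
      push Not at hcon
      exact hp' r hr (.i3 β m α n) ⟨hβ, h3, h4, hcon⟩
    · intro r hr β m m' α n h3 h4
      by_contra hcon
      exact hp' r hr (.i4 β m m' α n) ⟨hcon, h3, h4⟩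
    · intro r hr γ
      by_contra hcon
      refine hp' r hr (.i5 γ) ?_
      intro q hq α n i h3
      exact hcon ⟨q, hq, α, n, i, h3⟩
    · intro r hr α n γ i i' h3 h4 h5
      by_contra hcon
      exact hp' r hr (.i6 α n γ i i') ⟨hcon, h3, h4, h5⟩

end Pool.Agent.RFN.GX.KUR
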