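import Pool.Agent.KUR.MDefs
import Pool.Agent.KUR.Comb3

set_option autoImplicit false

/-! # No condition forces the existence of a coded branch for the new function

PROOF of `not_good`. Let `ζ = zt a1 a2`, `p0` good. `Q = {q : Cn // NoE q ζ ∧ q ≤ upd p0 ζ Pc.nil}`,
`C = {c : Pc // c ≤ pcO p0 ζ}` with the induced preorders. For `q ∈ Q`, `c ∈ C` the condition
`upd q ζ c` is `≤ p0` (`upd_le` with `upd_upd`, `upd_pcO`: `upd q ζ c ≤ upd (upd p0 ζ nil) ζ (pcO p0 ζ) = p0`).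
Every `r ≤ upd q ζ c` is of the form `upd q' ζ c'` with `q' = upd r ζ Pc.nil`, `c' = pcO r ζ`
(`upd_upd`, `upd_pcO`), `q' ≤ q` (`upd_le`, `noE_iff`), `c' ≤ c` (`pcO_mono`, `pcO_upd`); and
`upd q ζ c ≤ q` (`upd_le_of_noE`). The data: `Ba α n q c = fmem (nT (α, n)) b (upd q ζ c)`,
`O β m α n q = fmem (nm2 nT nT ((β, m), (α, n))) a1 q`, `V α n γ i q = fmem (nm2 nT nV ((α, n), (γ, i))) a2 q`,
`x γ i c = ∃ ρ, c.f γ = some ρ ∧ ρ 0 = i` (so `XV ζ γ i (upd q ζ c)` iff `x γ i c`: `upd_e_self`).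
Monotonicity: `fmem_mono`, `upd_le`.
KEY STEP (`tr1`, `tr2`): if `r ≤ upd q ζ c` (`q ∈ Q`) and `fmem j a1 r`, then there is `q' ≤ upd r ζ nil` in `Q`
with `fmem j a1 q'`: by `zt_spec` there are `r' ≤ r` with `r'.e ζ = r.e ζ` and `a ≥ r'` with `NoE a ζ`,
`a ∈ Dj a1 a2 (inl j)`; the second alternative for `a` is impossible (`r' ≤ a`, `fmem j a1 r'`), so
`fmem j a1 a`; `q' = upd r' ζ nil ≤ a` (`upd_le_of_noE`), so `fmem j a1 q'`. Moreover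
`upd q' ζ (pcO r ζ) = r'` (as `r'.e ζ = r.e ζ`). The same for `a2`.
`F1`: `g1` for `upd q ζ c`. `F3`: `g3` and the key step. `F4`: apply `g4` to `upd q ζ (pcO p0 ζ) ≤ q`.
`F5`: `g5` for `upd q ζ c` gives `r`; key step gives `q'`, `r' = upd q' ζ (pcO r ζ) ≤ r`: take `c' = pcO r ζ`;
`Ba α n q' c'` as `r' ≤ r`. `F6`: `g6` for `upd q ζ c`. `F8`: `pc_split`. `Q` is countably closed:
`exists_lb` (the second part) and `q ≤ (first element)`; `C`: `pc_lb`. Then `comb`. -/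

namespace Pool.Agent.RFN.GX.KUR

open Pool.Agent.ChoicelessEmb LName

private theorem pcO_congr {r r' : Cn} {ζ : Kx} (h : r'.e ζ = r.e ζ) : pcO r ζ = pcO r' ζ := by
  unfold pcO
  simp only [Pc.mk.injEq]
  exact h.symm

private theorem tr1 {a1 a2 : Nm} {r : Cn} {z : (Om × ℕ) × (Om × ℕ)}
    (h : fmem (nm2 nT nT z) a1 r) : ∃ q' ≤ upd r (zt a1 a2) Pc.nil, NoE q' (zt a1 a2) ∧
      fmem (nm2 nT nT z) a1 q' ∧ upd q' (zt a1 a2) (pcO r (zt a1 a2)) ≤ r := by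
  obtain ⟨r', hr', he, a, hra, hna, hD⟩ := zt_spec a1 a2 (.inl z) r
  have h1 : fmem (nm2 nT nT z) a1 a := by
    rcases hD with hD | hD
    · exact hD
    · exact absurd (fmem_mono h hr') (hD r' hra)
  refine ⟨upd r' (zt a1 a2) Pc.nil, upd_le hr' le_rfl, noE_upd _ _,
    fmem_mono h1 (upd_le_of_noE hra hna _), ?_⟩
  rw [upd_upd, pcO_congr he, upd_pcO]
  exact hr'

private theorem tr2 {a1 a2 : Nm} {r : Cn} {z : (Om × ℕ) × (Om × Bool)}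
    (h : fmem (nm2 nT nV z) a2 r) : ∃ q' ≤ upd r (zt a1 a2) Pc.nil, NoE q' (zt a1 a2) ∧
      fmem (nm2 nT nV z) a2 q' ∧ upd q' (zt a1 a2) (pcO r (zt a1 a2)) ≤ r := by
  obtain ⟨r', hr', he, a, hra, hna, hD⟩ := zt_spec a1 a2 (.inr z) r
  have h1 : fmem (nm2 nT nV z) a2 a := by
    rcases hD with hD | hD
    · exact hD
    · exact absurd (fmem_mono h hr') (hD r' hra)
  refine ⟨upd r' (zt a1 a2) Pc.nil, upd_le hr' le_rfl, noE_upd _ _,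
    fmem_mono h1 (upd_le_of_noE hra hna _), ?_⟩
  rw [upd_upd, pcO_congr he, upd_pcO]
  exact hr'

/-- The part of the forcing notion without the coordinate `ζ`. -/
private abbrev QQ (p : Cn) (ζ : Kx) : Type := {q : Cn // NoE q ζ ∧ q ≤ upd p ζ Pc.nil}

/-- The coordinate `ζ`. -/
private abbrev CC (p : Cn) (ζ : Kx) : Type := {c : Pc // c ≤ pcO p ζ}

private theorem upd_QC {p : Cn} {ζ : Kx} (q : QQ p ζ) (c : CC p ζ) : upd q.1 ζ c.1 ≤ p := by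
  have h := upd_le (ζ := ζ) q.2.2 c.2
  rw [upd_upd, upd_pcO] at h
  exact h

private theorem nil_le {p : Cn} {ζ : Kx} (q : QQ p ζ) {c : Pc} {r : Cn}
    (h : r ≤ upd q.1 ζ c) : upd r ζ Pc.nil ≤ q.1 := by
  have h1 := upd_le (ζ := ζ) h (le_refl Pc.nil)
  rw [upd_upd, noE_iff.1 q.2.1] at h1
  exact h1

private theorem pcO_le {p : Cn} {ζ : Kx} {q : Cn} (c : CC p ζ) {r : Cn}
    (h : r ≤ upd q ζ c.1) : pcO r ζ ≤ c.1 := by
  have h1 := pcO_mono h ζ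
  rw [pcO_upd] at h1
  exact h1

theorem not_good (a1 a2 b : Nm) (p : Cn) : ¬ Good a1 a2 b p := by
  intro hG
  obtain ⟨ζ, hζ⟩ : ∃ ζ, ζ = zt a1 a2 := ⟨_, rfl⟩
  have hC : SCl (CC p ζ) := by
    intro c hc
    obtain ⟨c', hc'⟩ := pc_lb (fun n => (c n).1) (fun n => hc n)
    exact ⟨⟨c', (hc' 0).trans (c 0).2⟩, fun n => hc' n⟩
  have hQ : SCl (QQ p ζ) := by
    intro q hq
    obtain ⟨q', h1, h2⟩ := exists_lb (fun n => (q n).1) (fun n => hq n)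
    exact ⟨⟨q', h2 ζ fun n => (q n).2.1, (h1 0).trans (q 0).2.2⟩, fun n => h1 n⟩
  -- every extension is of the form `upd q' ζ c'`
  have hex : ∀ (q : QQ p ζ) (c : CC p ζ) (r : Cn), r ≤ upd q.1 ζ c.1 →
      ∃ (q' : QQ p ζ) (c' : CC p ζ), q' ≤ q ∧ c' ≤ c ∧ upd q'.1 ζ c'.1 = r := by
    intro q c r hr
    refine ⟨⟨upd r ζ Pc.nil, noE_upd _ _, (nil_le q hr).trans q.2.2⟩,
      ⟨pcO r ζ, (pcO_le c hr).trans c.2⟩, nil_le q hr, pcO_le c hr, ?_⟩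
    show upd (upd r ζ Pc.nil) ζ (pcO r ζ) = r
    rw [upd_upd, upd_pcO]
  have hself : ∀ (q : QQ p ζ) (c : Pc), upd q.1 ζ c ≤ q.1 :=
    fun q c => upd_le_of_noE le_rfl q.2.1 c
  refine comb hQ hC ⟨upd p ζ Pc.nil, noE_upd _ _, le_rfl⟩ ⟨pcO p ζ, le_rfl⟩
    { Ba := fun α n q c => fmem (nT (α, n)) b (upd q.1 ζ c.1)
      O := fun β m α n q => fmem (nm2 nT nT ((β, m), (α, n))) a1 q.1
      V := fun α n γ i q => fmem (nm2 nT nV ((α, n), (γ, i))) a2 q.1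
      x := fun γ i c => ∃ ρ, c.1.f γ = some ρ ∧ ρ 0 = i
      Ba_mono := fun hq hc h => fmem_mono h (upd_le hq hc)
      O_mono := fun hq h => fmem_mono h hq
      V_mono := fun hq h => fmem_mono h hq
      x_mono := ?_
      F1 := ?_
      F3 := ?_
      F4 := ?_
      F5 := ?_
      F6 := ?_
      F8 := ?_ }
  · rintro γ i c c' hc ⟨ρ, h1, h2⟩
    exact ⟨ρ, hc γ ρ h1, h2⟩
  · intro q c α
    obtain ⟨r, hr, n, hn⟩ := hG.g1 _ (upd_QC q c) α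
    obtain ⟨q', c', hq', hc', e⟩ := hex q c r hr
    exact ⟨q', hq', c', hc', n, by rw [e]; exact hn⟩
  · intro β m α n q c hlt h1 h2
    obtain ⟨r, hr, h3⟩ := hG.g3 _ (upd_QC q c) β m α n hlt h1 h2
    obtain ⟨q', hq', hn, hf, -⟩ := tr1 (a2 := a2) h3
    rw [← hζ] at hq' hn
    exact ⟨⟨q', hn, (hq'.trans (nil_le q hr)).trans q.2.2⟩, hq'.trans (nil_le q hr), hf⟩
  · intro β m m' α n q h1 h2
    have h3 := upd_QC q ⟨pcO p ζ, le_rfl⟩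
    exact hG.g4 _ h3 β m m' α n (fmem_mono h1 (hself q _)) (fmem_mono h2 (hself q _))
  · intro q c γ
    obtain ⟨r, hr, α, n, i, h1, h2, h3⟩ := hG.g5 _ (upd_QC q c) γ
    obtain ⟨q', hq', hn, hf, hle⟩ := tr2 (a1 := a1) h2
    rw [← hζ] at hq' hn hle h3
    refine ⟨⟨q', hn, (hq'.trans (nil_le q hr)).trans q.2.2⟩, hq'.trans (nil_le q hr),
      ⟨pcO r ζ, (pcO_le c hr).trans c.2⟩, pcO_le c hr, α, n, i, fmem_mono h1 hle, hf, h3⟩
  · rintro α n γ i i' q c h1 h2 ⟨ρ, h3, h4⟩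
    refine hG.g6 _ (upd_QC q c) α n γ i i' h1 (fmem_mono h2 (hself q _)) ⟨ρ, ?_, h4⟩
    rw [← hζ, upd_e_self]
    exact h3
  · intro c
    obtain ⟨γ, c0, hc0, c1, hc1, h0, h1⟩ := pc_split c.1
    exact ⟨γ, ⟨c0, hc0.trans c.2⟩, hc0, ⟨c1, hc1.trans c.2⟩, hc1, h0, h1⟩

end Pool.Agent.RFN.GX.KUR
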