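import Pool.Agent.GEX.Base
import Pool.Agent.KUR.Free
import Pool.Agent.KUR.Ext
import Pool.Agent.KUR.Defs

set_option autoImplicit false

/-! # Names and requirements

The forcing notion is `Cn`. `nO α` is the canonical name of the countable ordinal `α`, `nK ξ` of the
index `ξ`, `nR ρ` of the real `ρ` (as a subset of `ω`), `nI i` of `i ∈ {0, 1}`, `nN n` of `n ∈ ω`. -/

namespace Pool.Agent.RFN.GX.KUR

open Pool.Agent.ChoicelessEmb LName

open Pool.Agent.H78.ZF (ZFM IsZFModel opair omega)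

/-- Names over the forcing notion. -/
abbrev Nm : Type 1 := LName Cn

/-- The set with the characteristic function `ρ`. -/
noncomputable def rZ (ρ : Rl) : ZFSet.{0} := ZFSet.sep (fun z => ∃ n, z = natZ n ∧ ρ n = true) omegaZ

noncomputable def nO (α : Om) : Nm := checkN (α.ord).toZFSet
noncomputable def nK : Kx → Nm := ckT Kx
noncomputable def nR (ρ : Rl) : Nm := checkN (rZ ρ)
noncomputable def nI (i : Bool) : Nm := nN (if i then 1 else 0)

/-- The name of a node. -/
noncomputable def nT : Om × ℕ → Nm := nm2 nO nN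

/-- The name of `(γ, i)`. -/
noncomputable def nV : Om × Bool → Nm := nm2 nO nI

theorem exists_cin (α : Om) : ∃ f : Om → ℕ, ∀ β γ, β < α → γ < α → f β = f γ → β = γ := by
  obtain ⟨f, hf⟩ := Set.countable_iff_exists_injOn.1 (H68.KT.countable_Iio α)
  exact ⟨f, fun β γ hβ hγ h => hf hβ hγ h⟩

/-- An injection of the predecessors of `α` into `ℕ`. -/
noncomputable def cin (α : Om) : Om → ℕ := (exists_cin α).choose

theorem cin_inj {α β γ : Om} (hβ : β < α) (hγ : γ < α) (h : cin α β = cin α γ) : β = γ :=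
  (exists_cin α).choose_spec β γ hβ hγ h

/-- `p` knows the value of the new function with index `ζ` at `γ`. -/
def XV (ζ : Kx) (γ : Om) (i : Bool) (p : Cn) : Prop := ∃ ρ, p.e ζ γ = some ρ ∧ ρ 0 = i

/-- The names of the first uncountable ordinal, of the set of indices, of the order of the tree,
of the branches, of the map of `ω₁` onto the reals, of the new functions and of injections of
the countable ordinals into `ω`. -/
noncomputable def nmW : Nm := relG nO fun _ _ => True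
noncomputable def nmK : Nm := relG nK fun _ _ => True
noncomputable def nmR : Nm := relG (nm2 nT nT)
  fun z p => z.1.1 < z.2.1 ∧ z.2.1 < p.d ∧ p.pi z.1.1 z.2.1 z.2.2 = z.1.2
noncomputable def nmB : Nm := relG (nm2 nK nT)
  fun z p => z.1 ∈ p.A ∧ z.2.1 < p.d ∧ p.b z.1 z.2.1 = z.2.2
noncomputable def nmE : Nm := relG (nm2 nO nR) fun z p => p.e k0 z.1 = some z.2
noncomputable def nmX (ζ : Kx) : Nm := relG nV fun z p => XV ζ z.1 z.2 p
noncomputable def nmC (α : Om) : Nm := relG nT fun z _ => z.1 < α ∧ cin α z.1 = z.2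

/-- The requirements. -/
structure StK (X : Set Nm) (g0 : Set Cn) : Prop where
  nmW : nmW ∈ X
  nmK : nmK ∈ X
  nmR : nmR ∈ X
  nmB : nmB ∈ X
  nmE : nmE ∈ X
  nmC : ∀ α, nO α ∈ X → nmC α ∈ X
  nmX : ∀ ζ, nK ζ ∈ X → nmX ζ ∈ X
  low : ∀ α, nO α ∈ X → ∃ p ∈ g0, α < p.d
  mem : ∀ ξ, nK ξ ∈ X → ∃ p ∈ g0, ξ ∈ p.A
  ne : ∀ ξ η, nK ξ ∈ X → nK η ∈ X → ξ ≠ η → ∃ α, nO α ∈ X ∧ ∃ p ∈ g0, ξ ∈ p.A ∧ η ∈ p.A ∧
    α < p.d ∧ p.b ξ α ≠ p.b η α
  val : ∀ ξ α, nK ξ ∈ X → nO α ∈ X → ∃ ρ, nR ρ ∈ X ∧ ∃ p ∈ g0, p.e ξ α = some ρ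
  real : ∀ ρ, nR ρ ∈ X → ∃ α, nO α ∈ X ∧ ∃ p ∈ g0, p.e k0 α = some ρ
  k0 : nK k0 ∈ X

section el

variable {X : Set Nm} {g : Set Cn}

/-- Elements of the model: countable ordinals, indices, reals. -/
noncomputable def eO (X : Set Nm) (g : Set Cn) (α : {α : Om // nO α ∈ X}) : Mod X g :=
  el X g (nO α.1) α.2
noncomputable def eK (X : Set Nm) (g : Set Cn) (ξ : {ξ : Kx // nK ξ ∈ X}) : Mod X g :=
  el X g (nK ξ.1) ξ.2
noncomputable def eR (X : Set Nm) (g : Set Cn) (ρ : {ρ : Rl // nR ρ ∈ X}) : Mod X g :=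
  el X g (nR ρ.1) ρ.2
noncomputable def eI (X : Set Nm) (g : Set Cn) [SB X g] (i : Bool) : Mod X g :=
  eN X g (if i then 1 else 0)

/-- The first uncountable ordinal, the set of indices, the order of the tree, the branches, the map
of `ω₁` onto the reals, the new functions. -/
noncomputable def sW {g0 : Set Cn} (h : StK X g0) : Mod X g := el X g nmW h.nmW
noncomputable def sK {g0 : Set Cn} (h : StK X g0) : Mod X g := el X g nmK h.nmK
noncomputable def sR {g0 : Set Cn} (h : StK X g0) : Mod X g := el X g nmR h.nmR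
noncomputable def sB {g0 : Set Cn} (h : StK X g0) : Mod X g := el X g nmB h.nmB
noncomputable def sE {g0 : Set Cn} (h : StK X g0) : Mod X g := el X g nmE h.nmE
noncomputable def sX {g0 : Set Cn} (h : StK X g0) (ζ : Kx) (hζ : nK ζ ∈ X) : Mod X g :=
  el X g (nmX ζ) (h.nmX ζ hζ)

end el

end Pool.Agent.RFN.GX.KUR
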