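import Pool.Agent.KUR.SDefs

set_option autoImplicit false

/-! # The requirements can be met

PROOFS. Injectivity: `checkN_injective`, `Ordinal.toZFSet_injective`, `H68.KT.ord_inj`; `rZ` is
injective since `natZ n ∈ rZ ρ ↔ ρ n = true` (`ZFSet.mem_sep`, `natZ_injective`, `natZ n ∈ omegaZ`:
`ZFSet.mem_range.2`).
`req_stK` (conjunction by `Req.and`, `Req.mono`; model: `Pool/Agent/RFN/SReq.lean`):
* the constants: `Req.const`; `nmC`: `reqc_op nO nO_inj (id : Nm → Nm) nmC`; `nmX`: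
  `reqc_op nK nK_inj (id : Nm → Nm) nmX`;
* `low`: `reqc_dec nO nO_inj (fun α => {p | α < p.d})`, dense by `ext_d` (`dec0_dense`); `mem`:
  `reqc_dec nK`, `ext_A`;
* `ne`: `reqc_dec (nm2 nK nK)` for `{p | ∃ α, ξ ∈ p.A ∧ η ∈ p.A ∧ α < p.d ∧ p.b ξ α ≠ p.b η α}`, dense for
  `ξ ≠ η` by `ext_ne`, and `reqc_refl (nm2 nK nK) _ nO` for the witness `α`; membership of
  `nm2 a b t` in `X` from `req_proj`;
* `val`: `reqc_dec (nm2 nK nO)` for `{p | ∃ ρ, p.e ξ α = some ρ}` (`ext_e`), `reqc_refl (nm2 nK nO) _ nR`;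
* `real`: `reqc_dec nR` for `{p | ∃ α, p.e k0 α = some ρ}` (`ext_real`), `reqc_refl nR _ nO`. -/

namespace Pool.Agent.RFN.GX.KUR

open Pool.Agent.ChoicelessEmb LName

theorem nO_inj : Function.Injective nO := fun _ _ h =>
  H68.KT.ord_inj.1 (Ordinal.toZFSet_injective (checkN_injective h))

theorem nK_inj : Function.Injective nK := ckT_inj Kx

theorem mem_rZ {ρ : Rl} {n : ℕ} : natZ n ∈ rZ ρ ↔ ρ n = true := by
  unfold rZ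
  rw [ZFSet.mem_sep]
  constructor
  · rintro ⟨_, m, hm, h⟩
    rw [natZ_injective hm]
    exact h
  · intro h
    exact ⟨ZFSet.mem_range.2 ⟨n, rfl⟩, n, rfl, h⟩

theorem nR_inj : Function.Injective nR := by
  intro ρ σ h
  have h1 : rZ ρ = rZ σ := checkN_injective h
  funext n
  have h2 : ρ n = true ↔ σ n = true := by
    rw [← mem_rZ, ← mem_rZ, h1]
  exact Bool.eq_iff_iff.2 h2

theorem nI_inj : Function.Injective nI := by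
  intro i j h
  have h1 : (if i = true then 1 else 0) = (if j = true then 1 else 0) := nN_inj h
  cases i <;> cases j <;> simp at h1 <;> rfl

theorem req_stK_c : Req fun (X : Set Nm) _ _ =>
    (nmW ∈ X ∧ nmK ∈ X ∧ nmR ∈ X) ∧ nmB ∈ X ∧ nmE ∈ X ∧ nK k0 ∈ X :=
  ((Req.const _).and ((Req.const _).and (Req.const _))).and
    ((Req.const _).and ((Req.const _).and (Req.const _)))

theorem req_nmC : Req fun (X : Set Nm) _ _ => ∀ α, nO α ∈ X → nmC α ∈ X :=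
  reqc_op nO nO_inj (id : Nm → Nm) nmC

theorem req_nmX : Req fun (X : Set Nm) _ _ => ∀ ζ, nK ζ ∈ X → nmX ζ ∈ X :=
  reqc_op nK nK_inj (id : Nm → Nm) nmX

theorem req_low : Req fun (X : Set Nm) g0 _ => ∀ α, nO α ∈ X → ∃ p ∈ g0, α < p.d := by
  refine (reqc_dec nO nO_inj (fun α => {p : Cn | α < p.d})).mono ?_
  intro X g0 g _ h α hα
  exact dec0_dense (h α hα) fun p => ext_d p α

theorem req_mem : Req fun (X : Set Nm) g0 _ => ∀ ξ, nK ξ ∈ X → ∃ p ∈ g0, ξ ∈ p.A := by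
  refine (reqc_dec nK nK_inj (fun ξ => {p : Cn | ξ ∈ p.A})).mono ?_
  intro X g0 g _ h ξ hξ
  exact dec0_dense (h ξ hξ) fun p => ext_A p ξ

theorem req_ne : Req fun (X : Set Nm) g0 _ => ∀ ξ η, nK ξ ∈ X → nK η ∈ X → ξ ≠ η →
    ∃ α, nO α ∈ X ∧ ∃ p ∈ g0, ξ ∈ p.A ∧ η ∈ p.A ∧ α < p.d ∧ p.b ξ α ≠ p.b η α := by
  refine (((reqc_dec (nm2 nK nK) (nm2_inj nK_inj nK_inj)
    (fun t => {p : Cn | ∃ α, t.1 ∈ p.A ∧ t.2 ∈ p.A ∧ α < p.d ∧ p.b t.1 α ≠ p.b t.2 α})).and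
    (reqc_refl (nm2 nK nK) (nm2_inj nK_inj nK_inj) nO
      (fun t (p : Cn) α => t.1 ∈ p.A ∧ t.2 ∈ p.A ∧ α < p.d ∧ p.b t.1 α ≠ p.b t.2 α))).and
    req_proj).mono ?_
  rintro X g0 g _ ⟨⟨h1, h2⟩, h3, _⟩ ξ η hξ hη hne
  have ht : nm2 nK nK (ξ, η) ∈ X := h3 _ hξ _ hη
  obtain ⟨p, hp, hp'⟩ := dec0_dense (h1 (ξ, η) ht) fun p => by
    obtain ⟨q, hq, h4, h5, α, h6, h7⟩ := ext_ne p hne
    exact ⟨q, hq, α, h4, h5, h6, h7⟩
  obtain ⟨α, hα, hα'⟩ := h2 (ξ, η) ht p hp hp'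
  exact ⟨α, hα, p, hp, hα'⟩

theorem req_val : Req fun (X : Set Nm) g0 _ => ∀ ξ α, nK ξ ∈ X → nO α ∈ X →
    ∃ ρ, nR ρ ∈ X ∧ ∃ p ∈ g0, p.e ξ α = some ρ := by
  refine (((reqc_dec (nm2 nK nO) (nm2_inj nK_inj nO_inj)
    (fun t => {p : Cn | ∃ ρ, p.e t.1 t.2 = some ρ})).and
    (reqc_refl (nm2 nK nO) (nm2_inj nK_inj nO_inj) nR
      (fun t (p : Cn) ρ => p.e t.1 t.2 = some ρ))).and req_proj).mono ?_
  rintro X g0 g _ ⟨⟨h1, h2⟩, h3, _⟩ ξ α hξ hα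
  have ht : nm2 nK nO (ξ, α) ∈ X := h3 _ hξ _ hα
  obtain ⟨p, hp, hp'⟩ := dec0_dense (h1 (ξ, α) ht) fun p => ext_e p ξ α
  obtain ⟨ρ, hρ, hρ'⟩ := h2 (ξ, α) ht p hp hp'
  exact ⟨ρ, hρ, p, hp, hρ'⟩

theorem req_real : Req fun (X : Set Nm) g0 _ => ∀ ρ, nR ρ ∈ X →
    ∃ α, nO α ∈ X ∧ ∃ p ∈ g0, p.e k0 α = some ρ := by
  refine ((reqc_dec nR nR_inj (fun ρ => {p : Cn | ∃ α, p.e k0 α = some ρ})).and
    (reqc_refl nR nR_inj nO (fun ρ (p : Cn) α => p.e k0 α = some ρ))).mono ?_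
  rintro X g0 g _ ⟨h1, h2⟩ ρ hρ
  obtain ⟨p, hp, hp'⟩ := dec0_dense (h1 ρ hρ) fun p => ext_real p k0 ρ
  obtain ⟨α, hα, hα'⟩ := h2 ρ hρ p hp hp'
  exact ⟨α, hα, p, hp, hα'⟩

theorem req_stK : Req fun X g0 _ => StK X g0 := by
  refine (req_stK_c.and ((req_nmC.and req_nmX).and ((req_low.and req_mem).and
    (req_ne.and (req_val.and req_real))))).mono ?_
  rintro X g0 g _ ⟨⟨⟨h1, h2, h3⟩, h4, h5, h6⟩, ⟨h7, h8⟩, ⟨h9, h10⟩, h11, h12, h13⟩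
  exact ⟨h1, h2, h3, h4, h5, h7, h8, h9, h10, h11, h12, h13, h6⟩

end Pool.Agent.RFN.GX.KUR
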