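import Pool.Agent.KUR.Dict

set_option autoImplicit false

/-! # The first uncountable ordinal of the model

PROOFS.
* `no_inj_om`: build a decreasing sequence `p n` with `p 0 = p` such that for every `n` either
  `F (a n) n (p (n + 1))` for some `a n : Om`, or no `r ≤ p (n + 1)` has `F α n r` for any `α` (if there are
  `r ≤ p n` and `α` with `F α n r` take them). Let `q ≤ p n` for all `n` (`exists_lb`) and let `α` be
  greater than all the `a n` (`H68.KT.exists_bound`). By `h1` there are `r ≤ q`, `n` with `F α n r`; so the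
  second case does not hold for `n`, and `F (a n) n r` by `mono`; `α = a n` by `h2`: contradiction.
* `req_stW`: `req_alt` (with `k = 1`) for the index type `Om ⊕ (Om × Om × ℕ)`, the names `nO α` and
  `opairN (nO α) (nO β)`, and the bad sets `{p | ∀ r ≤ p, ∀ n, ¬ fmem (nT (α, n)) f r}` and
  `{p | α ≠ β ∧ fmem (nT (α, n)) f p ∧ fmem (nT (β, n)) f p}`; and `req_proj`.
* `isW1_ok`: `tr`, `lin`: `mem_W`, `mem_eO`, `eO_mem` and the linear order of `Om`. `ctb`: for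
  `α` the set `el X g (nmC α.1) _` is an injection of `eO α` into `omega` (`mem_C`, `mem_C'`,
  `mem_eO`, `cin_inj`, `mem_omega_iff`, `eN_inj`). `unc`: let `f = el X g f' hf'` be an injection of `sW h`
  into `omega`. First alternative of `StW f'`: for `α` there is `n` with `opair (eO α) (eN n) ∈ f`, so
  `fmem (nT (α, n)) f' q` for some `q ∈ g` (`mem_node`); a common extension of `p` and `q` in `g`
  (`hs.st.op.atom.fil.dir`; `fmem_mono`) contradicts. Second: `mem_node` and injectivity. Third: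
  `no_inj_om`. -/

namespace Pool.Agent.RFN.GX.KUR

open Pool.Agent.ChoicelessEmb LName

open Pool.Agent.H78.ZF (ZFM opair omega)

theorem no_inj_om {F : Om → ℕ → Cn → Prop} (mono : ∀ α n p q, q ≤ p → F α n p → F α n q) (p : Cn)
    (h1 : ∀ r ≤ p, ∀ α, ∃ q ≤ r, ∃ n, F α n q)
    (h2 : ∀ r ≤ p, ∀ α β n, F α n r → F β n r → α = β) : False := by
  have hstep : ∀ (n : ℕ) (r : Cn), ∃ r' ≤ r, (∃ a, F a n r') ∨ ∀ s ≤ r', ∀ α, ¬ F α n s := by
    intro n r
    by_cases h : ∃ r' ≤ r, ∃ a, F a n r'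
    · obtain ⟨r', hr', a, ha⟩ := h
      exact ⟨r', hr', Or.inl ⟨a, ha⟩⟩
    · exact ⟨r, le_rfl, Or.inr fun s hs α hα => h ⟨s, hs, α, hα⟩⟩
  choose step hle hst using hstep
  let seq : ℕ → Cn := fun n => Nat.rec p (fun n r => step n r) n
  have hsucc : ∀ n, seq (n + 1) = step n (seq n) := fun _ => rfl
  obtain ⟨q, hq, _⟩ := exists_lb seq fun n => by rw [hsucc]; exact hle n _
  have hqp : q ≤ p := hq 0
  obtain ⟨bd, hbd⟩ := H68.KT.exists_bound
    (Set.countable_iUnion fun n => (show {a | F a n (seq (n + 1))}.Countable by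
      refine Set.Subsingleton.countable fun a ha b hb => ?_
      have hle' : seq (n + 1) ≤ p := by
        have h5 : ∀ m, seq m ≤ p := by
          intro m
          induction m with
          | zero => exact le_rfl
          | succ m ih => rw [hsucc]; exact (hle m _).trans ih
        exact h5 (n + 1)
      exact h2 _ hle' a b n ha hb))
  obtain ⟨r, hr, n, hn⟩ := h1 q hqp bd
  have hst' := hst n (seq n)
  rw [← hsucc] at hst'
  rcases hst' with ⟨a, ha⟩ | h3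
  · have hlt := hbd a (Set.mem_iUnion.2 ⟨n, ha⟩)
    have h4 := mono a n _ r (hr.trans (hq (n + 1))) ha
    exact absurd (h2 r (hr.trans hqp) a bd n h4 hn) hlt.ne
  · exact h3 r (hr.trans (hq (n + 1))) bd hn

/-- The requirement for names of injections of the first uncountable ordinal into `ω`. -/
def StW (X : Set Nm) (g0 : Set Cn) : Prop :=
  ∀ f ∈ X, (∃ p ∈ g0, ∃ α, nO α ∈ X ∧ ∀ r ≤ p, ∀ n, ¬ fmem (nT (α, n)) f r) ∨
    (∃ p ∈ g0, ∃ α β n, nO α ∈ X ∧ nO β ∈ X ∧ α ≠ β ∧ fmem (nT (α, n)) f p ∧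
      fmem (nT (β, n)) f p) ∨
    ∃ p : Cn, (∀ r ≤ p, ∀ α, ∃ q ≤ r, ∃ n, fmem (nT (α, n)) f q) ∧
      ∀ r ≤ p, ∀ α β n, fmem (nT (α, n)) f r → fmem (nT (β, n)) f r → α = β

theorem req_stW : Req fun X g0 _ => StW X g0 := by
  have h := req_alt (P := Cn) (I := Om ⊕ (Om × Om × ℕ))
    (fun i => Sum.elim (fun α => nO α) (fun z => opairN (nO z.1) (nO z.2.1)) i) 1
    (fun v i => Sum.elim (fun α => {p : Cn | ∀ r ≤ p, ∀ n, ¬ fmem (nT (α, n)) (v 0) r})
      (fun z => {p : Cn | z.1 ≠ z.2.1 ∧ fmem (nT (z.1, z.2.2)) (v 0) p ∧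
        fmem (nT (z.2.1, z.2.2)) (v 0) p}) i)
  refine (h.and Pool.Agent.RFN.req_proj).mono ?_
  rintro X g0 g _ ⟨h1, _, h2⟩ f hf
  rcases h1 (fun _ => f) (fun _ => hf) with ⟨p, hp, i, hi, hb⟩ | ⟨p, hp, hb⟩
  · rcases i with α | ⟨α, β, n⟩
    · exact Or.inl ⟨p, hp, α, hi, hb⟩
    · obtain ⟨hα, hβ⟩ := h2 _ _ hi
      exact Or.inr (Or.inl ⟨p, hp, α, β, n, hα, hβ, hb.1, hb.2.1, hb.2.2⟩)
  · refine Or.inr (Or.inr ⟨p, fun r hr α => ?_, fun r hr α β n ha hb' => ?_⟩)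
    · have h3 := hb r hr (Sum.inl α)
      by_contra hc
      push Not at hc
      exact h3 fun q hq n => hc q hq n
    · have h3 := hb r hr (Sum.inr (α, β, n))
      by_contra hc
      exact h3 ⟨hc, ha, hb'⟩

theorem isW1_ok {X : Set Nm} {g : Set Cn} [hs : SB X g] (h : StK X hs.g0) (hW : StW X hs.g0) :
    IsW1 (sW (g := g) h) := by
  refine ⟨?_, ?_, ?_, ?_⟩
  · intro x hx z hz
    obtain ⟨α, rfl⟩ := (mem_W h).1 hx
    obtain ⟨β, _, rfl⟩ := mem_eO.1 hz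
    exact (mem_W h).2 ⟨β, rfl⟩
  · intro x y hx hy
    obtain ⟨α, rfl⟩ := (mem_W h).1 hx
    obtain ⟨β, rfl⟩ := (mem_W h).1 hy
    rcases lt_trichotomy α.1 β.1 with h1 | h1 | h1
    · exact Or.inl (eO_mem.2 h1)
    · exact Or.inr (Or.inl (by rw [Subtype.ext h1]))
    · exact Or.inr (Or.inr (eO_mem.2 h1))
  · intro x hx
    obtain ⟨α, rfl⟩ := (mem_W h).1 hx
    refine ⟨el X g (nmC α.1) (h.nmC α.1 α.2), ⟨?_, ?_⟩, ?_⟩
    · intro z hz
      obtain ⟨β, n, hβ, rfl⟩ := mem_C' h hz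
      exact ⟨_, eO_mem.2 hβ, _, mem_omega_iff.2 ⟨n, rfl⟩, rfl⟩
    · intro x hx
      obtain ⟨β, hβ, rfl⟩ := mem_eO.1 hx
      refine ⟨eN X g (cin α.1 β.1), (mem_C h).2 ⟨hβ, rfl⟩, ?_⟩
      intro y hy
      obtain ⟨β', n, hβ', e⟩ := mem_C' h hy
      obtain ⟨e1, rfl⟩ := Pool.Agent.H78.ZF.opair_inj e
      rw [((mem_C h).1 hy).2]
    · intro x x' y hx hx'
      obtain ⟨β, n, hβ, e⟩ := mem_C' h hx
      obtain ⟨rfl, rfl⟩ := Pool.Agent.H78.ZF.opair_inj e
      obtain ⟨β', n', hβ', e'⟩ := mem_C' h hx'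
      obtain ⟨rfl, e2⟩ := Pool.Agent.H78.ZF.opair_inj e'
      have h1 := ((mem_C h).1 hx).2
      have h2 := ((mem_C h).1 hx').2
      have h3 := cin_inj hβ hβ' (h1.trans h2.symm)
      rw [Subtype.ext h3]
  · rintro ⟨f, hf⟩
    obtain ⟨f', hf', rfl⟩ := exists_el f
    have hfil := hs.st.op.atom.fil
    rcases hW f' hf' with ⟨p, hp, α, hα, hno⟩ | ⟨p, hp, α, β, n, hα, hβ, hne, h1, h2⟩ | ⟨p, h1, h2⟩
    · obtain ⟨y, hy, _⟩ := hf.1.2 (eO X g ⟨α, hα⟩) ((mem_W h).2 ⟨_, rfl⟩)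
      obtain ⟨_, hyo⟩ := hf.1.mem_of_opair hy
      obtain ⟨n, rfl⟩ := mem_omega_iff.1 hyo
      obtain ⟨q, hq, hm⟩ := (mem_node hf').1 hy
      obtain ⟨r, _, hrp, hrq⟩ := hs.st.op.atom.dir0 (hs.st.op.atom.sub hp) hq
      exact hno r hrp n (fmem_mono hm hrq)
    · have hg := hs.st.op.atom.sub hp
      have e1 : opair (eO X g ⟨α, hα⟩) (eN X g n) ∈ el X g f' hf' := (mem_node hf').2 ⟨p, hg, h1⟩
      have e2 : opair (eO X g ⟨β, hβ⟩) (eN X g n) ∈ el X g f' hf' := (mem_node hf').2 ⟨p, hg, h2⟩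
      have e3 := eO_inj (hf.2 _ _ _ e1 e2)
      exact hne (congrArg Subtype.val e3)
    · exact no_inj_om (F := fun α n p => fmem (nT (α, n)) f' p)
        (fun α n p q hqp h => fmem_mono h hqp) p h1 h2

end Pool.Agent.RFN.GX.KUR
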